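import Mathlib
open Matrix
open scoped ComplexOrder

namespace Pool.Agent.Helper774

theorem exists_spectral {ν : Type*} [Fintype ν] [DecidableEq ν] (M : Matrix ν ν ℂ)
    (hM : M.IsHermitian) :
    ∃ (W : Matrix ν ν ℂ) (d : ν → ℝ), Wᴴ * W = 1 ∧ W * Wᴴ = 1 ∧
      M = W * diagonal (fun i => (d i : ℂ)) * Wᴴ := by
  refine ⟨(hM.eigenvectorUnitary : Matrix ν ν ℂ), hM.eigenvalues, ?_, ?_, ?_⟩
  · have := hM.eigenvectorUnitary.2
    rw [Matrix.mem_unitaryGroup_iff'] at this
    exact this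
  · have := hM.eigenvectorUnitary.2
    rw [Matrix.mem_unitaryGroup_iff] at this
    exact this
  · have := hM.spectral_theorem
    rw [Unitary.conjStarAlgAut_apply] at this
    exact this

theorem exists_factor {ν : Type*} [Fintype ν] [DecidableEq ν] (α : Matrix ν ν ℂ)
    (hα : α.PosDef) :
    ∃ R S : Matrix ν ν ℂ, R * S = 1 ∧ S * R = 1 ∧ α = Rᴴ * R := by
  obtain ⟨U, d, hUU, hUU', hspec⟩ := exists_spectral α hα.1
  have hpos : ∀ i, 0 < d i := by
    intro i
    have h1 : 0 < star (U *ᵥ Pi.single i 1) ⬝ᵥ (α *ᵥ (U *ᵥ Pi.single i 1)) := by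
      apply hα.dotProduct_mulVec_pos
      intro h0
      have : (Uᴴ * U) *ᵥ (Pi.single i 1) = 0 := by
        rw [← Matrix.mulVec_mulVec, h0, Matrix.mulVec_zero]
      rw [hUU, Matrix.one_mulVec] at this
      have := congrFun this i
      simp at this
    have h2 : star (U *ᵥ Pi.single i 1) ⬝ᵥ (α *ᵥ (U *ᵥ Pi.single i 1)) = (d i : ℂ) := by
      rw [star_mulVec, ← Matrix.dotProduct_mulVec, Matrix.mulVec_mulVec, Matrix.mulVec_mulVec]
      have : Uᴴ * α * U = diagonal (fun i => (d i : ℂ)) := by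
        rw [hspec]
        calc Uᴴ * (U * diagonal (fun i => (d i : ℂ)) * Uᴴ) * U
            = (Uᴴ * U) * diagonal (fun i => (d i : ℂ)) * (Uᴴ * U) := by
              simp only [Matrix.mul_assoc]
          _ = _ := by rw [hUU, Matrix.one_mul, Matrix.mul_one]
      rw [this]
      simp [Matrix.mulVec_single]
    rw [h2] at h1
    exact_mod_cast h1
  set sq : ν → ℂ := fun i => ((Real.sqrt (d i) : ℝ) : ℂ) with hsq
  have hsq2 : ∀ i, sq i * sq i = ((d i : ℝ) : ℂ) := by
    intro i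
    rw [hsq]
    simp only
    rw [← Complex.ofReal_mul, Real.mul_self_sqrt (hpos i).le]
  have hsq0 : ∀ i, sq i ≠ 0 := by
    intro i h
    have := hsq2 i
    rw [h] at this
    simp only [mul_zero] at this
    exact (hpos i).ne' (by exact_mod_cast this.symm)
  have hstar : ∀ i, star (sq i) = sq i := by
    intro i; simp [hsq]
  refine ⟨diagonal sq * Uᴴ, U * diagonal (fun i => (sq i)⁻¹), ?_, ?_, ?_⟩
  · rw [Matrix.mul_assoc, ← Matrix.mul_assoc Uᴴ, hUU, Matrix.one_mul, diagonal_mul_diagonal]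
    rw [← Matrix.diagonal_one]
    congr 1
    ext i
    simp [hsq0 i]
  · rw [Matrix.mul_assoc, ← Matrix.mul_assoc (diagonal _), diagonal_mul_diagonal]
    have : (fun i => (sq i)⁻¹ * sq i) = fun _ => (1 : ℂ) := by
      ext i; simp [hsq0 i]
    rw [this, Matrix.diagonal_one, Matrix.one_mul, hUU']
  · rw [conjTranspose_mul, conjTranspose_conjTranspose, diagonal_conjTranspose]
    rw [Matrix.mul_assoc, ← Matrix.mul_assoc (diagonal _), diagonal_mul_diagonal]
    conv_lhs => rw [hspec]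
    rw [Matrix.mul_assoc]
    congr 3
    ext i
    rw [← hsq2 i]
    simp only [Pi.star_apply, hstar i]

theorem exists_simul_diag {ν : Type*} [Fintype ν] [DecidableEq ν] (α v : Matrix ν ν ℂ)
    (hα : α.PosDef) (hv : v.IsHermitian) :
    ∃ (Q P : Matrix ν ν ℂ) (d : ν → ℝ), Q * P = 1 ∧ P * Q = 1 ∧ α = Qᴴ * Q ∧
      v = Qᴴ * diagonal (fun i => (d i : ℂ)) * Q := by
  obtain ⟨R, S, hRS, hSR, hαR⟩ := exists_factor α hα
  have hv'H : (Sᴴ * v * S).IsHermitian := by
    unfold Matrix.IsHermitian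
    rw [conjTranspose_mul, conjTranspose_mul, conjTranspose_conjTranspose, hv.eq,
      Matrix.mul_assoc]
  obtain ⟨W, d, hWW, hWW', hspec⟩ := exists_spectral _ hv'H
  refine ⟨Wᴴ * R, S * W, d, ?_, ?_, ?_, ?_⟩
  · calc Wᴴ * R * (S * W) = Wᴴ * (R * S) * W := by simp only [Matrix.mul_assoc]
      _ = 1 := by rw [hRS, Matrix.mul_one, hWW]
  · calc S * W * (Wᴴ * R) = S * (W * Wᴴ) * R := by simp only [Matrix.mul_assoc]
      _ = 1 := by rw [hWW', Matrix.mul_one, hSR]
  · rw [conjTranspose_mul, conjTranspose_conjTranspose]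
    calc α = Rᴴ * R := hαR
      _ = Rᴴ * (W * Wᴴ) * R := by rw [hWW', Matrix.mul_one]
      _ = _ := by simp only [Matrix.mul_assoc]
  · rw [conjTranspose_mul, conjTranspose_conjTranspose]
    have h1 : Rᴴ * Sᴴ = 1 := by rw [← conjTranspose_mul, hSR, conjTranspose_one]
    calc v = (Rᴴ * Sᴴ) * v * (S * R) := by rw [h1, hSR, Matrix.one_mul, Matrix.mul_one]
      _ = Rᴴ * (Sᴴ * v * S) * R := by simp only [Matrix.mul_assoc]
      _ = _ := by rw [hspec]; simp only [Matrix.mul_assoc]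

end Pool.Agent.Helper774
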