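import Mathlib
import Pool.Agent.Helper774.SimDiag
open Matrix
open scoped ComplexOrder

namespace Pool.Agent.Helper774

theorem quad_diag {ν : Type*} [Fintype ν] [DecidableEq ν] (Q : Matrix ν ν ℂ) (e : ν → ℝ)
    (x : ν → ℂ) :
    star x ⬝ᵥ ((Qᴴ * diagonal (fun i => (e i : ℂ)) * Q) *ᵥ x)
      = ((∑ j, e j * ‖(Q *ᵥ x) j‖ ^ 2 : ℝ) : ℂ) := by
  have h1 : (Qᴴ * diagonal (fun i => (e i : ℂ)) * Q) *ᵥ x
      = Qᴴ *ᵥ (diagonal (fun i => (e i : ℂ)) *ᵥ (Q *ᵥ x)) := by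
    rw [Matrix.mulVec_mulVec, Matrix.mulVec_mulVec, Matrix.mul_assoc]
  rw [h1, Matrix.dotProduct_mulVec, ← Matrix.star_mulVec]
  rw [dotProduct]
  push_cast
  apply Finset.sum_congr rfl
  intro j _
  rw [Matrix.mulVec_diagonal]
  have : (‖(Q *ᵥ x) j‖ : ℂ) ^ 2 = star ((Q *ᵥ x) j) * (Q *ᵥ x) j := by
    rw [Complex.star_def, Complex.conj_mul']
  rw [this]
  simp only [Pi.star_apply]
  ring

theorem cross_diag {ν : Type*} [Fintype ν] [DecidableEq ν] (Q : Matrix ν ν ℂ) (e : ν → ℂ)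
    (η ξ : ν → ℂ) :
    star η ⬝ᵥ ((Qᴴ * diagonal e * Q) *ᵥ ξ)
      = ∑ j, e j * (star ((Q *ᵥ η) j) * (Q *ᵥ ξ) j) := by
  have h1 : (Qᴴ * diagonal e * Q) *ᵥ ξ
      = Qᴴ *ᵥ (diagonal e *ᵥ (Q *ᵥ ξ)) := by
    rw [Matrix.mulVec_mulVec, Matrix.mulVec_mulVec, Matrix.mul_assoc]
  rw [h1, Matrix.dotProduct_mulVec, ← Matrix.star_mulVec]
  rw [dotProduct]
  apply Finset.sum_congr rfl
  intro j _
  rw [Matrix.mulVec_diagonal]
  simp only [Pi.star_apply]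
  ring

theorem trace_diag_mul {ν : Type*} [Fintype ν] [DecidableEq ν] (Q M : Matrix ν ν ℂ)
    (e : ν → ℂ) :
    trace ((Qᴴ * diagonal e * Q) * M)
      = ∑ j, e j * (star (fun a => star (Q j a)) ⬝ᵥ (M *ᵥ (fun a => star (Q j a)))) := by
  have h1 : trace ((Qᴴ * diagonal e * Q) * M) = trace (diagonal e * (Q * M * Qᴴ)) := by
    rw [Matrix.mul_assoc, Matrix.mul_assoc, Matrix.trace_mul_comm]
    rw [Matrix.mul_assoc, Matrix.mul_assoc]
  rw [h1, Matrix.trace]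
  apply Finset.sum_congr rfl
  intro j _
  rw [Matrix.diag_apply, Matrix.diagonal_mul]
  congr 1
  rw [Matrix.mul_assoc, Matrix.mul_apply]
  rw [dotProduct]
  apply Finset.sum_congr rfl
  intro a _
  simp only [Pi.star_apply, star_star]
  rfl

theorem trace_vecMulVec_mul {ν : Type*} [Fintype ν] (w : ν → ℂ) (M : Matrix ν ν ℂ) :
    trace (vecMulVec w (star w) * M) = star w ⬝ᵥ (M *ᵥ w) := by
  rw [Matrix.vecMulVec_mul, Matrix.trace_vecMulVec, Matrix.dotProduct_mulVec, dotProduct_comm]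

theorem cross_ineq (a d : ℝ) (ha : 0 < a) (y b y0 : ℂ) :
    0 ≤ a * ‖y‖ ^ 2 - 2 * d * ((starRingEnd ℂ y) * b * y0).re
      + (‖b‖ ^ 2 * d ^ 2 / a) * ‖y0‖ ^ 2 := by
  have h1 : d * ((starRingEnd ℂ y) * b * y0).re ≤ |d| * (‖y‖ * ‖b‖ * ‖y0‖) := by
    have h2 : |((starRingEnd ℂ y) * b * y0).re| ≤ ‖y‖ * ‖b‖ * ‖y0‖ := by
      refine (Complex.abs_re_le_norm _).trans ?_
      rw [norm_mul, norm_mul, Complex.norm_conj]
    calc d * ((starRingEnd ℂ y) * b * y0).re ≤ |d * ((starRingEnd ℂ y) * b * y0).re| :=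
          le_abs_self _
      _ = |d| * |((starRingEnd ℂ y) * b * y0).re| := abs_mul _ _
      _ ≤ _ := by gcongr
  have h3 : (‖b‖ ^ 2 * d ^ 2 / a) * ‖y0‖ ^ 2 = (|d| * ‖b‖ * ‖y0‖) ^ 2 / a := by
    rw [mul_pow, mul_pow, sq_abs]; ring
  rw [h3]
  have h4 : 0 ≤ (a * ‖y‖ - |d| * ‖b‖ * ‖y0‖) ^ 2 / a := by positivity
  have h5 : (a * ‖y‖ - |d| * ‖b‖ * ‖y0‖) ^ 2 / a
      = a * ‖y‖ ^ 2 - 2 * (|d| * (‖y‖ * ‖b‖ * ‖y0‖)) + (|d| * ‖b‖ * ‖y0‖) ^ 2 / a := by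
    field_simp
    ring
  nlinarith

theorem dual_core {ν κ : Type*} [Fintype ν] [DecidableEq ν] [Fintype κ]
    (lam r c : ℝ) (hr : 0 < r) (k : κ → ℝ) (b : κ → ℂ) (i0 : κ)
    (s v γ : Matrix ν ν ℂ) (hs : s.IsHermitian) (hv : v.IsHermitian) (hγ : γ.IsHermitian)
    (hpos : ∀ i, ∀ ξ : ν → ℂ, ξ ≠ 0 → 0 < (star ξ ⬝ᵥ ((s - (k i : ℂ) • v) *ᵥ ξ)).re)
    (hq : ∀ (ξ : κ → ν → ℂ) (η : ν → ℂ),
      0 ≤ (∑ i, star (ξ i) ⬝ᵥ ((s - (k i : ℂ) • v) *ᵥ ξ i)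
        - 2 * ∑ i, b i * (star η ⬝ᵥ (v *ᵥ ξ i)) + star η ⬝ᵥ (γ *ᵥ η)).re)
    (T : Matrix ν ν ℂ)
    (hT : ∀ x : ν → ℂ, ∃ (y : κ → ℂ) (y0 : ℂ),
      (star x ⬝ᵥ x).re = ∑ i, ‖y i‖ ^ 2 + ‖y0‖ ^ 2 ∧
      (star x ⬝ᵥ (T *ᵥ x)).re = lam * (star x ⬝ᵥ x).re - r * ‖y0‖ ^ 2 ∧
      (star x ⬝ᵥ (T *ᵥ x)).im = ∑ i, k i * ‖y i‖ ^ 2
        + 2 * (∑ i, (starRingEnd ℂ (y i)) * b i * y0).re + c * ‖y0‖ ^ 2) :
    0 ≤ (trace s).re + (1 / r) * (trace ((γ - s + (c : ℂ) • v) * ((lam : ℂ) • 1 - T))).re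
      - (trace (v * T)).im := by
  classical
  set k0 := k i0 with hk0
  have hαH : (s - (k0 : ℂ) • v).IsHermitian := by
    apply hs.sub
    unfold Matrix.IsHermitian
    rw [conjTranspose_smul, hv.eq]
    simp
  have hα : (s - (k0 : ℂ) • v).PosDef := by
    apply Matrix.PosDef.of_dotProduct_mulVec_pos hαH
    intro x hx
    have h1 := hpos i0 x hx
    have h2 : (star x ⬝ᵥ ((s - (k0 : ℂ) • v) *ᵥ x)).im = 0 :=
      hαH.im_star_dotProduct_mulVec_self x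
    rw [Complex.lt_def]
    exact ⟨h1, by simpa using h2.symm⟩
  obtain ⟨Q, P, d, hQP, hPQ, hαQ, hvQ⟩ := exists_simul_diag _ v hα hv
  -- s in terms of Q
  have hdiag : ∀ t : ℝ, s - (t : ℂ) • v
      = Qᴴ * diagonal (fun j => ((1 + (k0 - t) * d j : ℝ) : ℂ)) * Q := by
    intro t
    have h1 : diagonal (fun j => ((1 + (k0 - t) * d j : ℝ) : ℂ))
        = (1 : Matrix ν ν ℂ) + ((k0 - t : ℝ) : ℂ) • diagonal (fun j => (d j : ℂ)) := by
      ext a b'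
      by_cases hab : a = b'
      · subst hab
        simp
      · simp [hab]
    rw [h1, Matrix.mul_add, Matrix.add_mul, Matrix.mul_one, ← hαQ]
    rw [Matrix.mul_smul, Matrix.smul_mul, ← hvQ]
    push_cast
    rw [sub_smul]
    abel
  set A : κ → ν → ℝ := fun i j => 1 + (k0 - k i) * d j with hA
  have hApos : ∀ i j, 0 < A i j := by
    intro i j
    have hPj : P *ᵥ Pi.single j 1 ≠ 0 := by
      intro h0
      have : (Q * P) *ᵥ (Pi.single j 1) = 0 := by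
        rw [← Matrix.mulVec_mulVec, h0, Matrix.mulVec_zero]
      rw [hQP, Matrix.one_mulVec] at this
      have := congrFun this j
      simp at this
    have h1 := hpos i _ hPj
    rw [hdiag (k i), quad_diag] at h1
    rw [Matrix.mulVec_mulVec, hQP, Matrix.one_mulVec] at h1
    rw [Complex.ofReal_re] at h1
    have h2 : ∑ j', (1 + (k0 - k i) * d j') * ‖(Pi.single j (1 : ℂ) : ν → ℂ) j'‖ ^ 2
        = 1 + (k0 - k i) * d j := by
      rw [Finset.sum_eq_single j]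
      · simp
      · intro b' _ hb'
        simp [hb']
      · simp
    rw [h2] at h1
    exact h1
  set g : ν → ℝ := fun j => ∑ i, ‖b i‖ ^ 2 * (d j) ^ 2 / A i j with hg
  -- Gamma is positive semidefinite
  have hΓH : (γ - Qᴴ * diagonal (fun j => (g j : ℂ)) * Q).IsHermitian := by
    apply hγ.sub
    unfold Matrix.IsHermitian
    rw [conjTranspose_mul, conjTranspose_mul, conjTranspose_conjTranspose,
      diagonal_conjTranspose, Matrix.mul_assoc]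
    congr 3
    ext j
    simp
  have hΓ : (γ - Qᴴ * diagonal (fun j => (g j : ℂ)) * Q).PosSemidef := by
    apply Matrix.PosSemidef.of_dotProduct_mulVec_nonneg hΓH
    intro η
    have him : (star η ⬝ᵥ ((γ - Qᴴ * diagonal (fun j => (g j : ℂ)) * Q) *ᵥ η)).im = 0 :=
      hΓH.im_star_dotProduct_mulVec_self η
    rw [Complex.le_def]
    refine ⟨?_, by simpa using him.symm⟩
    set y : ν → ℂ := Q *ᵥ η with hy
    set x : κ → ν → ℂ := fun i j => (starRingEnd ℂ (b i)) * (d j : ℂ) * y j / (A i j : ℂ) with hx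
    have hqq := hq (fun i => P *ᵥ x i) η
    have hQx : ∀ i, Q *ᵥ (P *ᵥ x i) = x i := by
      intro i
      rw [Matrix.mulVec_mulVec, hQP, Matrix.one_mulVec]
    have e1 : ∀ i, star (P *ᵥ x i) ⬝ᵥ ((s - (k i : ℂ) • v) *ᵥ (P *ᵥ x i))
        = ((∑ j, ‖b i‖ ^ 2 * (d j) ^ 2 / A i j * ‖y j‖ ^ 2 : ℝ) : ℂ) := by
      intro i
      rw [hdiag (k i), quad_diag, hQx]
      congr 1
      apply Finset.sum_congr rfl
      intro j _
      have hne := (hApos i j).ne'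
      have : ‖x i j‖ = ‖b i‖ * |d j| * ‖y j‖ / A i j := by
        simp only [hx, norm_div, norm_mul, Complex.norm_conj, Complex.norm_real,
          Real.norm_eq_abs]
        rw [abs_of_pos (hApos i j)]
      rw [this]
      change A i j * (‖b i‖ * |d j| * ‖y j‖ / A i j) ^ 2 = _
      rw [div_pow, mul_pow, mul_pow, sq_abs]
      field_simp
    have e2 : ∀ i, b i * (star η ⬝ᵥ (v *ᵥ (P *ᵥ x i)))
        = ((∑ j, ‖b i‖ ^ 2 * (d j) ^ 2 / A i j * ‖y j‖ ^ 2 : ℝ) : ℂ) := by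
      intro i
      rw [hvQ, cross_diag, hQx, Finset.mul_sum]
      push_cast
      apply Finset.sum_congr rfl
      intro j _
      have hne : (A i j : ℂ) ≠ 0 := by exact_mod_cast (hApos i j).ne'
      have hb : (‖b i‖ : ℂ) ^ 2 = b i * starRingEnd ℂ (b i) := by
        rw [Complex.mul_conj']
      have hyj : (‖y j‖ : ℂ) ^ 2 = star (y j) * y j := by
        rw [Complex.star_def, Complex.conj_mul']
      rw [hb, hyj]
      change b i * ((d j : ℂ) * (star (y j) * x i j)) = _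
      simp only [hx]
      field_simp
    rw [Finset.sum_congr rfl (fun i _ => e1 i), Finset.sum_congr rfl (fun i _ => e2 i)] at hqq
    rw [Matrix.sub_mulVec, dotProduct_sub, quad_diag]
    have e3 : (∑ j, g j * ‖(Q *ᵥ η) j‖ ^ 2)
        = ∑ i, ∑ j, ‖b i‖ ^ 2 * (d j) ^ 2 / A i j * ‖y j‖ ^ 2 := by
      rw [Finset.sum_comm]
      apply Finset.sum_congr rfl
      intro j _
      rw [hg, Finset.sum_mul]
    rw [e3]
    rw [← Complex.ofReal_sum] at hqq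
    set w := ∑ i, ∑ j, ‖b i‖ ^ 2 * (d j) ^ 2 / A i j * ‖y j‖ ^ 2 with hw
    have e4 : ((w : ℂ) - 2 * (w : ℂ) + star η ⬝ᵥ (γ *ᵥ η)).re
        = (star η ⬝ᵥ (γ *ᵥ η) - (w : ℂ)).re := by
      congr 1
      ring
    rw [e4] at hqq
    simpa using hqq
  obtain ⟨m, w, hw⟩ := Matrix.posSemidef_iff_eq_sum_vecMulVec.mp hΓ
  set q : ν → ν → ℂ := fun j a => star (Q j a) with hqdef
  have hs' : s = Qᴴ * diagonal (fun j => ((1 + k0 * d j : ℝ) : ℂ)) * Q := by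
    have := hdiag 0
    simpa using this
  have hγ' : γ = Qᴴ * diagonal (fun j => (g j : ℂ)) * Q
      + ∑ i, vecMulVec (w i) (star (w i)) := by
    rw [← hw]; abel
  set N : Matrix ν ν ℂ := (lam : ℂ) • 1 - T with hN
  have ht1 : trace s = ∑ j, ((1 + k0 * d j : ℝ) : ℂ) * (star (q j) ⬝ᵥ q j) := by
    have h := trace_diag_mul Q (1 : Matrix ν ν ℂ) (fun j => ((1 + k0 * d j : ℝ) : ℂ))
    rw [Matrix.mul_one, ← hs'] at h
    rw [h]
    apply Finset.sum_congr rfl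
    intro j _
    rw [Matrix.one_mulVec]
  have ht2 : trace (v * T) = ∑ j, (d j : ℂ) * (star (q j) ⬝ᵥ (T *ᵥ q j)) := by
    have h := trace_diag_mul Q T (fun j => (d j : ℂ))
    rw [← hvQ] at h
    exact h
  have ht3 : trace ((γ - s + (c : ℂ) • v) * N)
      = ∑ j, ((g j - (1 + k0 * d j) + c * d j : ℝ) : ℂ) * (star (q j) ⬝ᵥ (N *ᵥ q j))
        + ∑ i, star (w i) ⬝ᵥ (N *ᵥ w i) := by
    have h1 : γ - s + (c : ℂ) • v
        = Qᴴ * diagonal (fun j => ((g j - (1 + k0 * d j) + c * d j : ℝ) : ℂ)) * Q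
          + ∑ i, vecMulVec (w i) (star (w i)) := by
      have h2 : diagonal (fun j => ((g j - (1 + k0 * d j) + c * d j : ℝ) : ℂ))
          = diagonal (fun j => (g j : ℂ)) - diagonal (fun j => ((1 + k0 * d j : ℝ) : ℂ))
            + (c : ℂ) • diagonal (fun j => (d j : ℂ)) := by
        ext a b'
        by_cases hab : a = b'
        · subst hab
          simp
        · simp [hab]
      rw [h2, Matrix.mul_add, Matrix.mul_sub, Matrix.add_mul, Matrix.sub_mul, Matrix.mul_smul,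
        Matrix.smul_mul, ← hs', ← hvQ]
      conv_lhs => rw [hγ']
      abel
    rw [h1, Matrix.add_mul, Matrix.trace_add, trace_diag_mul, Finset.sum_mul, Matrix.trace_sum]
    congr 1
    apply Finset.sum_congr rfl
    intro i _
    rw [trace_vecMulVec_mul]
  have hNx : ∀ x : ν → ℂ, star x ⬝ᵥ (N *ᵥ x) = (lam : ℂ) * (star x ⬝ᵥ x) - star x ⬝ᵥ (T *ᵥ x) := by
    intro x
    rw [hN, Matrix.sub_mulVec, Matrix.smul_mulVec, Matrix.one_mulVec, dotProduct_sub,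
      dotProduct_smul, smul_eq_mul]
  have hNre : ∀ x : ν → ℂ, 0 ≤ (star x ⬝ᵥ (N *ᵥ x)).re := by
    intro x
    obtain ⟨y, y0, h1, h2, h3⟩ := hT x
    rw [hNx, Complex.sub_re, Complex.re_ofReal_mul, h2]
    have : 0 ≤ r * ‖y0‖ ^ 2 := by positivity
    linarith
  rw [ht1, ht2, ht3]
  rw [Complex.add_re, Complex.re_sum, Complex.re_sum, Complex.re_sum, Complex.im_sum]
  have hw0 : 0 ≤ ∑ i, (star (w i) ⬝ᵥ (N *ᵥ w i)).re := Finset.sum_nonneg (fun i _ => hNre _)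
  have hmain : 0 ≤ ∑ j, ((((1 + k0 * d j : ℝ) : ℂ) * (star (q j) ⬝ᵥ q j)).re
      + (1 / r) * (((g j - (1 + k0 * d j) + c * d j : ℝ) : ℂ) * (star (q j) ⬝ᵥ (N *ᵥ q j))).re
      - ((d j : ℂ) * (star (q j) ⬝ᵥ (T *ᵥ q j))).im) := by
    apply Finset.sum_nonneg
    intro j _
    obtain ⟨y, y0, h1, h2, h3⟩ := hT (q j)
    rw [hNx, Complex.re_ofReal_mul, Complex.re_ofReal_mul, Complex.im_ofReal_mul, Complex.sub_re,
      Complex.re_ofReal_mul, h2, h3, h1]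
    have e1 : (∑ i, (starRingEnd ℂ (y i)) * b i * y0).re
        = ∑ i, ((starRingEnd ℂ (y i)) * b i * y0).re := Complex.re_sum _ _
    rw [e1]
    have hterm : ∀ i, 0 ≤ A i j * ‖y i‖ ^ 2 - 2 * d j * ((starRingEnd ℂ (y i)) * b i * y0).re
      + (‖b i‖ ^ 2 * (d j) ^ 2 / A i j) * ‖y0‖ ^ 2 := fun i =>
        cross_ineq (A i j) (d j) (hApos i j) (y i) (b i) y0
    have hsum := Finset.sum_nonneg (fun i (_ : i ∈ Finset.univ) => hterm i)
    have hexp : ∑ i, (A i j * ‖y i‖ ^ 2 - 2 * d j * ((starRingEnd ℂ (y i)) * b i * y0).re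
      + (‖b i‖ ^ 2 * (d j) ^ 2 / A i j) * ‖y0‖ ^ 2)
      = (1 + k0 * d j) * ∑ i, ‖y i‖ ^ 2 - d j * ∑ i, k i * ‖y i‖ ^ 2
        - 2 * d j * ∑ i, ((starRingEnd ℂ (y i)) * b i * y0).re + g j * ‖y0‖ ^ 2 := by
      rw [hg]
      simp only [hA]
      rw [Finset.sum_add_distrib, Finset.sum_sub_distrib, Finset.sum_mul, Finset.mul_sum,
        Finset.mul_sum, Finset.mul_sum, ← Finset.sum_sub_distrib, ← Finset.sum_sub_distrib,
        ← Finset.sum_sub_distrib]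
      congr 1
      apply Finset.sum_congr rfl
      intro i _
      ring
    rw [hexp] at hsum
    have hr' : (1 / r) * ((g j - (1 + k0 * d j) + c * d j) *
        (lam * (∑ i, ‖y i‖ ^ 2 + ‖y0‖ ^ 2) - (lam * (∑ i, ‖y i‖ ^ 2 + ‖y0‖ ^ 2)
          - r * ‖y0‖ ^ 2))) = (g j - (1 + k0 * d j) + c * d j) * ‖y0‖ ^ 2 := by
      field_simp
      ring
    rw [hr']
    nlinarith [hsum]
  rw [Finset.sum_sub_distrib, Finset.sum_add_distrib, ← Finset.mul_sum] at hmain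
  have : 0 ≤ (1 / r) * ∑ i, (star (w i) ⬝ᵥ (N *ᵥ w i)).re := by positivity
  nlinarith [hmain, this]

end Pool.Agent.Helper774
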