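import Mathlib
import Pool.Agent.Helper774.DualCore
open Matrix
open scoped ComplexOrder

namespace Pool.Agent.Helper774

theorem quad_conjTranspose {ν : Type*} [Fintype ν] (X : Matrix ν ν ℂ) (a b : ν → ℂ) :
    star a ⬝ᵥ (Xᴴ *ᵥ b) = starRingEnd ℂ (star b ⬝ᵥ (X *ᵥ a)) := by
  have h : star (star b ⬝ᵥ (X *ᵥ a)) = star a ⬝ᵥ (Xᴴ *ᵥ b) := by
    rw [← Matrix.star_dotProduct_star, star_star, Matrix.star_mulVec, Matrix.dotProduct_mulVec]
  rw [← h]
  rfl

theorem dual_NF {ν κ : Type*} [Fintype ν] [DecidableEq ν] [Fintype κ]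
    (lam r c : ℝ) (hr : 0 < r) (k : κ → ℝ) (b : κ → ℂ) (i0 : κ)
    (Z X : Matrix ν ν ℂ)
    (hZX : ∀ (ξ : κ → ν → ℂ) (η : ν → ℂ),
      0 ≤ (∑ i, star (ξ i) ⬝ᵥ (Z *ᵥ ξ i) + star η ⬝ᵥ (Z *ᵥ η)
        + ∑ i, ((lam : ℂ) + Complex.I * (k i : ℂ)) * (star (ξ i) ⬝ᵥ (X *ᵥ ξ i))
        + ∑ i, (Complex.I * b i) * (star η ⬝ᵥ (X *ᵥ ξ i))
        + ∑ i, (Complex.I * starRingEnd ℂ (b i)) * (star (ξ i) ⬝ᵥ (X *ᵥ η))
        + (((lam - r : ℝ) : ℂ) + Complex.I * (c : ℂ)) * (star η ⬝ᵥ (X *ᵥ η))).re)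
    (T : Matrix ν ν ℂ)
    (hT : ∀ x : ν → ℂ, ∃ (y : κ → ℂ) (y0 : ℂ),
      (star x ⬝ᵥ x).re = ∑ i, ‖y i‖ ^ 2 + ‖y0‖ ^ 2 ∧
      (star x ⬝ᵥ (T *ᵥ x)).re = lam * (star x ⬝ᵥ x).re - r * ‖y0‖ ^ 2 ∧
      (star x ⬝ᵥ (T *ᵥ x)).im = ∑ i, k i * ‖y i‖ ^ 2
        + 2 * (∑ i, (starRingEnd ℂ (y i)) * b i * y0).re + c * ‖y0‖ ^ 2) :
    0 ≤ (trace Z + trace (X * T)).re := by
  classical
  -- hermitian parts
  obtain ⟨Zh, hZh⟩ : ∃ Zh : Matrix ν ν ℂ, Zh = (1 / 2 : ℂ) • (Z + Zᴴ) := ⟨_, rfl⟩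
  obtain ⟨X1, hX1⟩ : ∃ X1 : Matrix ν ν ℂ, X1 = (-(1 / 2) : ℂ) • (X + Xᴴ) := ⟨_, rfl⟩
  obtain ⟨v, hv⟩ : ∃ v : Matrix ν ν ℂ, v = (-(Complex.I) / 2 : ℂ) • (X - Xᴴ) := ⟨_, rfl⟩
  have hZhH : Zhᴴ = Zh := by
    rw [hZh, conjTranspose_smul, conjTranspose_add, conjTranspose_conjTranspose, add_comm]
    simp
  have hX1H : X1ᴴ = X1 := by
    rw [hX1, conjTranspose_smul, conjTranspose_add, conjTranspose_conjTranspose, add_comm Xᴴ X]
    simp
  have hvH : vᴴ = v := by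
    rw [hv, conjTranspose_smul, conjTranspose_sub, conjTranspose_conjTranspose]
    have : star (-(Complex.I) / 2 : ℂ) = -(-(Complex.I) / 2) := by
      simp
      ring
    rw [this, neg_smul, ← smul_neg, neg_sub]
  have eZ : ∀ x : ν → ℂ, (star x ⬝ᵥ (Zh *ᵥ x)).re = (star x ⬝ᵥ (Z *ᵥ x)).re := by
    intro x
    rw [hZh, Matrix.smul_mulVec, Matrix.add_mulVec, dotProduct_smul, dotProduct_add,
      quad_conjTranspose]
    simp
    ring
  have eX1 : ∀ x : ν → ℂ, (star x ⬝ᵥ (X1 *ᵥ x)) = ((-(star x ⬝ᵥ (X *ᵥ x)).re : ℝ) : ℂ) := by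
    intro x
    rw [hX1, Matrix.smul_mulVec, Matrix.add_mulVec, dotProduct_smul, dotProduct_add,
      quad_conjTranspose, Complex.add_conj]
    simp
  have ev : ∀ x : ν → ℂ, (star x ⬝ᵥ (v *ᵥ x)) = ((star x ⬝ᵥ (X *ᵥ x)).im : ℂ) := by
    intro x
    rw [hv, Matrix.smul_mulVec, Matrix.sub_mulVec, dotProduct_smul, dotProduct_sub,
      quad_conjTranspose, Complex.sub_conj]
    apply Complex.ext
    · simp
      ring
    · simp
  have ecross : ∀ (β : ℂ) (x y : ν → ℂ), (-(2 * (β * (star y ⬝ᵥ (v *ᵥ x))))).re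
      = ((Complex.I * β) * (star y ⬝ᵥ (X *ᵥ x))).re
        + ((Complex.I * starRingEnd ℂ β) * (star x ⬝ᵥ (X *ᵥ y))).re := by
    intro β x y
    rw [hv, Matrix.smul_mulVec, Matrix.sub_mulVec, dotProduct_smul, dotProduct_sub,
      quad_conjTranspose]
    simp [Complex.mul_re, Complex.mul_im]
    ring
  have key : ∀ ε : ℝ, 0 < ε → 0 ≤ (trace Z + trace (X * T)).re + ε * (Fintype.card ν : ℝ) := by
    intro ε hε
    obtain ⟨s, hs⟩ : ∃ s : Matrix ν ν ℂ, s = Zh + (ε : ℂ) • 1 - (lam : ℂ) • X1 := ⟨_, rfl⟩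
    obtain ⟨γ, hγ⟩ : ∃ γ : Matrix ν ν ℂ, γ = s + (r : ℂ) • X1 - (c : ℂ) • v := ⟨_, rfl⟩
    have hsH : s.IsHermitian := by
      unfold Matrix.IsHermitian
      rw [hs, conjTranspose_sub, conjTranspose_add, conjTranspose_smul, conjTranspose_smul,
        hZhH, hX1H, conjTranspose_one]
      simp
    have hγH : γ.IsHermitian := by
      unfold Matrix.IsHermitian
      rw [hγ, conjTranspose_sub, conjTranspose_add, conjTranspose_smul, conjTranspose_smul,
        hsH.eq, hX1H, hvH]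
      simp
    have q1 : ∀ (t : ℝ) (x : ν → ℂ), (star x ⬝ᵥ ((s - (t : ℂ) • v) *ᵥ x)).re
        = (star x ⬝ᵥ (Z *ᵥ x)).re + ε * (star x ⬝ᵥ x).re
          + (((lam : ℂ) + Complex.I * (t : ℂ)) * (star x ⬝ᵥ (X *ᵥ x))).re := by
      intro t x
      rw [hs]
      rw [Matrix.sub_mulVec, Matrix.sub_mulVec, Matrix.add_mulVec, Matrix.smul_mulVec,
        Matrix.smul_mulVec, Matrix.smul_mulVec, Matrix.one_mulVec, dotProduct_sub,
        dotProduct_sub, dotProduct_add, dotProduct_smul, dotProduct_smul, dotProduct_smul,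
        Complex.sub_re, Complex.sub_re, Complex.add_re, eZ, eX1, ev]
      simp [Complex.mul_re, Complex.mul_im]
      ring
    have q2 : ∀ (x : ν → ℂ), (star x ⬝ᵥ (γ *ᵥ x)).re
        = (star x ⬝ᵥ (Z *ᵥ x)).re + ε * (star x ⬝ᵥ x).re
          + ((((lam - r : ℝ) : ℂ) + Complex.I * (c : ℂ)) * (star x ⬝ᵥ (X *ᵥ x))).re := by
      intro x
      have h0 : (star x ⬝ᵥ (γ *ᵥ x)).re
          = (star x ⬝ᵥ ((s - (c : ℂ) • v) *ᵥ x)).re + r * (-(star x ⬝ᵥ (X *ᵥ x)).re) := by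
        have : γ = (s - (c : ℂ) • v) + (r : ℂ) • X1 := by rw [hγ]; abel
        rw [this, Matrix.add_mulVec, dotProduct_add, Complex.add_re, Matrix.smul_mulVec,
          dotProduct_smul, eX1]
        simp
      rw [h0, q1]
      simp [Complex.mul_re, Complex.mul_im]
      ring
    have hss : ∀ x : ν → ℂ, 0 ≤ (star x ⬝ᵥ x).re := by
      intro x
      have : 0 ≤ star x ⬝ᵥ x := dotProduct_star_self_nonneg x
      exact (Complex.le_def.mp this).1
    have hpos : ∀ i, ∀ ξ : ν → ℂ, ξ ≠ 0 →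
        0 < (star ξ ⬝ᵥ ((s - (k i : ℂ) • v) *ᵥ ξ)).re := by
      intro i x hx
      rw [q1]
      have h1 := hZX (Pi.single i x) 0
      have h2 : 0 < (star x ⬝ᵥ x).re := by
        have h3 : 0 < star x ⬝ᵥ x := by
          exact dotProduct_star_self_pos_iff.mpr hx
        exact (Complex.lt_def.mp h3).1
      have e1 : ∑ j, star ((Pi.single i x : κ → ν → ℂ) j) ⬝ᵥ (Z *ᵥ (Pi.single i x : κ → ν → ℂ) j)
          = star x ⬝ᵥ (Z *ᵥ x) := by
        rw [Finset.sum_eq_single i]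
        · simp
        · intro j _ hj
          simp [Pi.single_eq_of_ne hj]
        · simp
      have e2 : ∑ j, ((lam : ℂ) + Complex.I * (k j : ℂ)) *
            (star ((Pi.single i x : κ → ν → ℂ) j) ⬝ᵥ (X *ᵥ (Pi.single i x : κ → ν → ℂ) j))
          = ((lam : ℂ) + Complex.I * (k i : ℂ)) * (star x ⬝ᵥ (X *ᵥ x)) := by
        rw [Finset.sum_eq_single i]
        · simp
        · intro j _ hj
          simp [Pi.single_eq_of_ne hj]
        · simp
      rw [e1, e2] at h1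
      simp only [star_zero, zero_dotProduct, Matrix.mulVec_zero, dotProduct_zero, mul_zero,
        Finset.sum_const_zero, add_zero, Complex.add_re] at h1
      have : 0 < ε * (star x ⬝ᵥ x).re := mul_pos hε h2
      linarith
    have hq : ∀ (ξ : κ → ν → ℂ) (η : ν → ℂ),
      0 ≤ (∑ i, star (ξ i) ⬝ᵥ ((s - (k i : ℂ) • v) *ᵥ ξ i)
        - 2 * ∑ i, b i * (star η ⬝ᵥ (v *ᵥ ξ i)) + star η ⬝ᵥ (γ *ᵥ η)).re := by
      intro ξ η
      have h1 := hZX ξ η
      rw [Complex.add_re, sub_eq_add_neg, Complex.add_re, Complex.re_sum, q2, Finset.mul_sum,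
        ← Finset.sum_neg_distrib, Complex.re_sum]
      rw [Finset.sum_congr rfl (fun i _ => q1 (k i) (ξ i)),
        Finset.sum_congr rfl (fun i _ => ecross (b i) (ξ i) η)]
      rw [Finset.sum_add_distrib, Finset.sum_add_distrib, Finset.sum_add_distrib]
      simp only [Complex.add_re, Complex.re_sum] at h1
      have h3 : 0 ≤ ∑ i, ε * (star (ξ i) ⬝ᵥ ξ i).re :=
        Finset.sum_nonneg (fun i _ => mul_nonneg hε.le (hss _))
      have h4 : 0 ≤ ε * (star η ⬝ᵥ η).re := mul_nonneg hε.le (hss _)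
      linarith
    have main := dual_core lam r c hr k b i0 s v γ hsH hvH hγH hpos hq T hT
    have e1 : γ - s + (c : ℂ) • v = (r : ℂ) • X1 := by rw [hγ]; abel
    rw [e1, Matrix.smul_mul, Matrix.trace_smul, Matrix.mul_sub, Matrix.mul_smul, Matrix.mul_one,
      Matrix.trace_sub, Matrix.trace_smul] at main
    have e2 : (trace s).re = (trace Z).re + ε * (Fintype.card ν : ℝ) - lam * (trace X1).re := by
      rw [hs, Matrix.trace_sub, Matrix.trace_add, Matrix.trace_smul, Matrix.trace_smul,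
        Matrix.trace_one, hZh, Matrix.trace_smul, Matrix.trace_add, Matrix.trace_conjTranspose]
      simp
      ring
    have e3 : (trace (v * T)).im = -(1 / 2) * (trace (X * T)).re + (1 / 2) * (trace (Xᴴ * T)).re := by
      rw [hv, Matrix.smul_mul, Matrix.trace_smul, Matrix.sub_mul, Matrix.trace_sub]
      simp [Complex.mul_im]
      ring
    have e4 : (trace (X1 * T)).re = -(1 / 2) * (trace (X * T)).re - (1 / 2) * (trace (Xᴴ * T)).re := by
      rw [hX1, Matrix.smul_mul, Matrix.trace_smul, Matrix.add_mul, Matrix.trace_add]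
      simp
      ring
    rw [e2, e3] at main
    have e5 : (1 / r) * ((r : ℂ) • ((lam : ℂ) • trace X1 - trace (X1 * T))).re
        = lam * (trace X1).re - (trace (X1 * T)).re := by
      simp
      field_simp
    rw [e5, e4] at main
    rw [Complex.add_re]
    linarith
  by_contra hneg
  rw [not_le] at hneg
  set J := (trace Z + trace (X * T)).re with hJ
  have hc : 0 ≤ (Fintype.card ν : ℝ) := by positivity
  have := key (-J / (2 * ((Fintype.card ν : ℝ) + 1))) (by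
    apply div_pos (by linarith) (by positivity))
  have h2 : -J / (2 * ((Fintype.card ν : ℝ) + 1)) * (Fintype.card ν : ℝ) ≤ -J / 2 := by
    rw [div_mul_eq_mul_div, div_le_div_iff₀ (by positivity) (by positivity)]
    nlinarith
  linarith

end Pool.Agent.Helper774
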