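import Mathlib
import Pool.Agent.Helper774.SimDiag
open Matrix
open scoped ComplexOrder

namespace Pool.Agent.Helper774

theorem exists_factor_psd {ν : Type*} [Fintype ν] [DecidableEq ν] (B : Matrix ν ν ℂ)
    (hB : B.PosSemidef) : ∃ R : Matrix ν ν ℂ, B = Rᴴ * R := by
  obtain ⟨U, d, hUU, hUU', hspec⟩ := exists_spectral B hB.1
  have hpos : ∀ i, 0 ≤ d i := by
    intro i
    have h1 : 0 ≤ star (U *ᵥ Pi.single i 1) ⬝ᵥ (B *ᵥ (U *ᵥ Pi.single i 1)) :=
      hB.dotProduct_mulVec_nonneg _
    have h2 : star (U *ᵥ Pi.single i 1) ⬝ᵥ (B *ᵥ (U *ᵥ Pi.single i 1)) = (d i : ℂ) := by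
      rw [star_mulVec, ← Matrix.dotProduct_mulVec, Matrix.mulVec_mulVec, Matrix.mulVec_mulVec]
      have : Uᴴ * B * U = diagonal (fun i => (d i : ℂ)) := by
        rw [hspec]
        calc Uᴴ * (U * diagonal (fun i => (d i : ℂ)) * Uᴴ) * U
            = (Uᴴ * U) * diagonal (fun i => (d i : ℂ)) * (Uᴴ * U) := by
              simp only [Matrix.mul_assoc]
          _ = _ := by rw [hUU, Matrix.one_mul, Matrix.mul_one]
      rw [this]
      simp [Matrix.mulVec_single]
    rw [h2] at h1
    exact_mod_cast h1
  refine ⟨diagonal (fun i => ((Real.sqrt (d i) : ℝ) : ℂ)) * Uᴴ, ?_⟩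
  rw [conjTranspose_mul, conjTranspose_conjTranspose, diagonal_conjTranspose]
  rw [Matrix.mul_assoc, ← Matrix.mul_assoc (diagonal _), diagonal_mul_diagonal]
  conv_lhs => rw [hspec]
  rw [Matrix.mul_assoc]
  congr 3
  ext i
  simp only [Pi.star_apply, Complex.star_def, Complex.conj_ofReal]
  rw [← Complex.ofReal_mul, Real.mul_self_sqrt (hpos i)]

/-- The linear map `B ↦ (∑ᵢ Bᵢᵢ, ∑ᵢⱼ Aᵢⱼ Bᵢⱼ)` on block matrices. -/
noncomputable def blockMap {ι ν : Type*} [Fintype ι] [Fintype ν] (A : Matrix ι ι ℂ) :
    Matrix (ι × ν) (ι × ν) ℂ →ₗ[ℂ] (ν → ν → ℂ) × (ν → ν → ℂ) where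
  toFun B := (fun a b => ∑ i, B (i, a) (i, b), fun a b => ∑ i, ∑ j, A i j * B (i, a) (j, b))
  map_add' B C := by
    ext a b
    · simp [Finset.sum_add_distrib]
    · simp [Finset.sum_add_distrib, mul_add]
  map_smul' c B := by
    ext a b
    · simp [Finset.mul_sum]
    · simp only [Matrix.smul_apply, smul_eq_mul, RingHom.id_apply, Prod.smul_mk, Pi.smul_apply,
        Finset.mul_sum]
      apply Finset.sum_congr rfl
      intro i _
      apply Finset.sum_congr rfl
      intro j _
      ring

theorem exists_R_of_dual {ι ν : Type*} [Fintype ι] [Fintype ν] [DecidableEq ι] [DecidableEq ν]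
    (A : Matrix ι ι ℂ) (T : Matrix ν ν ℂ)
    (hdual : ∀ Z X : Matrix ν ν ℂ,
      (∀ ξ : ι → ν → ℂ, 0 ≤ (∑ i, star (ξ i) ⬝ᵥ (Z *ᵥ ξ i)
        + ∑ i, ∑ j, A i j * (star (ξ j) ⬝ᵥ (X *ᵥ ξ i))).re) →
      0 ≤ (trace Z + trace (X * T)).re) :
    ∃ R : (ι × ν) → ι → ν → ℂ,
      (∀ a b, ∑ p, ∑ i, starRingEnd ℂ (R p i a) * R p i b = if a = b then 1 else 0) ∧
      (∀ a b, ∑ p, ∑ i, ∑ j, A i j * (starRingEnd ℂ (R p i a) * R p j b) = T a b) := by
  classical
  rcases isEmpty_or_nonempty ν with hν | hν
  · exact ⟨fun _ _ _ => 0, fun a => (hν.false a).elim, fun a => (hν.false a).elim⟩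
  set P := ι × ν with hP
  set n : ℝ := (Fintype.card ν : ℝ) with hn
  have hn0 : 0 < n := by rw [hn]; exact_mod_cast Fintype.card_pos
  set S : Set (P → P → ℂ) := {R | ∑ p, ∑ q, ‖R p q‖ ^ 2 = n} with hS
  set F : (P → P → ℂ) → (ν → ν → ℂ) × (ν → ν → ℂ) :=
    fun R => blockMap A ((Matrix.of R)ᴴ * (Matrix.of R)) with hF
  have hSc : IsCompact S := by
    apply Metric.isCompact_of_isClosed_isBounded
    · apply isClosed_eq
      · fun_prop
      · fun_prop
    · rw [Metric.isBounded_iff_subset_closedBall 0]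
      refine ⟨Real.sqrt n, ?_⟩
      intro R hR
      rw [mem_closedBall_zero_iff, pi_norm_le_iff_of_nonneg (Real.sqrt_nonneg _)]
      intro p
      rw [pi_norm_le_iff_of_nonneg (Real.sqrt_nonneg _)]
      intro q
      apply Real.le_sqrt_of_sq_le
      have hR' : ∑ p, ∑ q, ‖R p q‖ ^ 2 = n := hR
      calc ‖R p q‖ ^ 2 ≤ ∑ q, ‖R p q‖ ^ 2 :=
            Finset.single_le_sum (f := fun q => ‖R p q‖ ^ 2) (fun _ _ => by positivity)
              (Finset.mem_univ q)
        _ ≤ ∑ p, ∑ q, ‖R p q‖ ^ 2 :=
            Finset.single_le_sum (f := fun p => ∑ q, ‖R p q‖ ^ 2) (fun _ _ => by positivity)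
              (Finset.mem_univ p)
        _ = n := hR'
  have hFc : Continuous F := by
    have h1 : Continuous (fun R : P → P → ℂ => (Matrix.of R)ᴴ * (Matrix.of R)) := by
      apply continuous_matrix
      intro i j
      simp only [Matrix.mul_apply, Matrix.conjTranspose_apply, Matrix.of_apply]
      fun_prop
    have h2 : Continuous (fun B : Matrix P P ℂ => blockMap A B) := by
      change Continuous (fun B : Matrix P P ℂ =>
        ((fun a b => ∑ i, B (i, a) (i, b), fun a b => ∑ i, ∑ j, A i j * B (i, a) (j, b)) :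
          (ν → ν → ℂ) × (ν → ν → ℂ)))
      apply Continuous.prodMk
      · apply continuous_pi; intro a
        apply continuous_pi; intro b
        apply continuous_finsetSum
        intro i _
        exact continuous_id.matrix_elem _ _
      · apply continuous_pi; intro a
        apply continuous_pi; intro b
        apply continuous_finsetSum
        intro i _
        apply continuous_finsetSum
        intro j _
        exact continuous_const.mul (continuous_id.matrix_elem _ _)
    exact h2.comp h1
  have htr : ∀ R : P → P → ℂ, trace ((Matrix.of R)ᴴ * (Matrix.of R))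
      = ((∑ p, ∑ q, ‖R p q‖ ^ 2 : ℝ) : ℂ) := by
    intro R
    rw [Matrix.trace]
    simp only [Matrix.diag_apply, Matrix.mul_apply, Matrix.conjTranspose_apply, Matrix.of_apply]
    rw [Finset.sum_comm]
    push_cast
    apply Finset.sum_congr rfl
    intro p _
    apply Finset.sum_congr rfl
    intro q _
    rw [Complex.star_def, Complex.conj_mul']
  -- general PSD matrices of trace n
  have hmem : ∀ B : Matrix P P ℂ, B.PosSemidef → trace B = (n : ℂ) → blockMap A B ∈ F '' S := by
    intro B hB hBt
    obtain ⟨R, hR⟩ := exists_factor_psd B hB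
    refine ⟨fun p q => R p q, ?_, ?_⟩
    · have h := htr (fun p q => R p q)
      have h2 : (Matrix.of fun p q => R p q) = R := rfl
      rw [h2, ← hR, hBt] at h
      have : (n : ℂ) = ((∑ p, ∑ q, ‖R p q‖ ^ 2 : ℝ) : ℂ) := h
      exact (Complex.ofReal_inj.mp this).symm
    · change blockMap A (Rᴴ * R) = _
      rw [← hR]
  have hconv : Convex ℝ (F '' S) := by
    rintro _ ⟨R1, hR1, rfl⟩ _ ⟨R2, hR2, rfl⟩ a b ha hb hab
    have hsum : a • F R1 + b • F R2
        = blockMap A ((a : ℂ) • ((Matrix.of R1)ᴴ * (Matrix.of R1))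
          + (b : ℂ) • ((Matrix.of R2)ᴴ * (Matrix.of R2))) := by
      rw [map_add, map_smul, map_smul]
      rfl
    rw [hsum]
    apply hmem
    · apply Matrix.PosSemidef.add
      · apply Matrix.PosSemidef.smul (Matrix.posSemidef_conjTranspose_mul_self _)
        exact_mod_cast ha
      · apply Matrix.PosSemidef.smul (Matrix.posSemidef_conjTranspose_mul_self _)
        exact_mod_cast hb
    · rw [Matrix.trace_add, Matrix.trace_smul, Matrix.trace_smul, htr, htr]
      have e1 : ∑ p, ∑ q, ‖R1 p q‖ ^ 2 = n := hR1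
      have e2 : ∑ p, ∑ q, ‖R2 p q‖ ^ 2 = n := hR2
      rw [e1, e2, smul_eq_mul, smul_eq_mul, ← add_mul]
      have : (a : ℂ) + (b : ℂ) = 1 := by exact_mod_cast hab
      rw [this, one_mul]
  have hclosed : IsClosed (F '' S) := (hSc.image hFc).isClosed
  by_cases hx : (((fun a b => if a = b then 1 else 0), (fun a b => T a b)) :
      (ν → ν → ℂ) × (ν → ν → ℂ)) ∈ F '' S
  · obtain ⟨R, hR, hFR⟩ := hx
    refine ⟨fun p i a => R p (i, a), ?_, ?_⟩
    · intro a b
      have h := congrFun (congrFun (congrArg Prod.fst hFR) a) b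
      simp only at h
      rw [← h]
      change _ = ∑ i, ((Matrix.of R)ᴴ * (Matrix.of R)) (i, a) (i, b)
      simp only [Matrix.mul_apply, Matrix.conjTranspose_apply, Matrix.of_apply]
      rw [Finset.sum_comm]
      rfl
    · intro a b
      have h := congrFun (congrFun (congrArg Prod.snd hFR) a) b
      simp only at h
      rw [← h]
      change _ = ∑ i, ∑ j, A i j * ((Matrix.of R)ᴴ * (Matrix.of R)) (i, a) (j, b)
      simp only [Matrix.mul_apply, Matrix.conjTranspose_apply, Matrix.of_apply, Finset.mul_sum]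
      rw [Finset.sum_comm]
      apply Finset.sum_congr rfl
      intro i _
      rw [Finset.sum_comm]
      rfl
  · exfalso
    obtain ⟨f, u, hfx, hft⟩ := RCLike.geometric_hahn_banach_point_closed (𝕜 := ℂ) hconv hclosed hx
    -- represent the functional
    set Z0 : Matrix ν ν ℂ := Matrix.of (fun b a => f (Pi.single a (Pi.single b 1), 0)) with hZ0
    set X : Matrix ν ν ℂ := Matrix.of (fun b a => f (0, Pi.single a (Pi.single b 1))) with hX
    have hdecomp : ∀ M : ν → ν → ℂ, M = ∑ a, ∑ b, M a b • (Pi.single a (Pi.single b 1)) := by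
      intro M
      ext a b
      rw [Finset.sum_apply, Finset.sum_apply]
      rw [Finset.sum_eq_single a]
      · rw [Finset.sum_apply, Finset.sum_apply, Finset.sum_eq_single b]
        · simp
        · intro c _ hc
          simp [Pi.single_eq_of_ne' hc]
        · simp
      · intro c _ hc
        rw [Finset.sum_apply, Finset.sum_apply]
        apply Finset.sum_eq_zero
        intro d _
        simp [Pi.single_eq_of_ne' hc]
      · simp
    have hf1 : ∀ M : ν → ν → ℂ, f (M, 0) = trace (Z0 * Matrix.of M) := by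
      intro M
      have h1 : ((M, 0) : (ν → ν → ℂ) × (ν → ν → ℂ))
          = ∑ a, ∑ b, M a b • ((Pi.single a (Pi.single b 1), 0) : (ν → ν → ℂ) × (ν → ν → ℂ)) := by
        conv_lhs => rw [hdecomp M]
        ext x y
        · simp [Prod.fst_sum]
        · simp [Prod.snd_sum]
      rw [h1, map_sum, Matrix.trace]
      simp only [map_sum, map_smul, Matrix.diag_apply, Matrix.mul_apply, smul_eq_mul]
      rw [Finset.sum_comm]
      apply Finset.sum_congr rfl
      intro b _
      apply Finset.sum_congr rfl
      intro a _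
      rw [hZ0, Matrix.of_apply, Matrix.of_apply, mul_comm]
    have hf2 : ∀ M : ν → ν → ℂ, f (0, M) = trace (X * Matrix.of M) := by
      intro M
      have h1 : ((0, M) : (ν → ν → ℂ) × (ν → ν → ℂ))
          = ∑ a, ∑ b, M a b • ((0, Pi.single a (Pi.single b 1)) : (ν → ν → ℂ) × (ν → ν → ℂ)) := by
        conv_lhs => rw [hdecomp M]
        ext x y
        · simp [Prod.fst_sum]
        · simp [Prod.snd_sum]
      rw [h1, map_sum, Matrix.trace]
      simp only [map_sum, map_smul, Matrix.diag_apply, Matrix.mul_apply, smul_eq_mul]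
      rw [Finset.sum_comm]
      apply Finset.sum_congr rfl
      intro b _
      apply Finset.sum_congr rfl
      intro a _
      rw [hX, Matrix.of_apply, Matrix.of_apply, mul_comm]
    have hf : ∀ M N : ν → ν → ℂ, f (M, N) = trace (Z0 * Matrix.of M) + trace (X * Matrix.of N) := by
      intro M N
      rw [← hf1, ← hf2, ← map_add]
      congr 1
      simp
    set Z : Matrix ν ν ℂ := Z0 - ((u / n : ℝ) : ℂ) • 1 with hZ
    have hlast : 0 ≤ (trace Z + trace (X * T)).re := by
      apply hdual
      intro ξ
      by_cases hξ : (fun p : P => ξ p.1 p.2) = 0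
      · have h0 : ∀ i, ξ i = 0 := by
          intro i
          ext a
          exact congrFun hξ (i, a)
        simp [h0]
      set w : P → ℂ := fun p => ξ p.1 p.2 with hw
      have hτ : 0 < ∑ p, ‖w p‖ ^ 2 := by
        have h1 : ∃ p, w p ≠ 0 := by
          by_contra hcon
          push Not at hcon
          exact hξ (funext hcon)
        obtain ⟨p, hp⟩ := h1
        apply Finset.sum_pos' (fun _ _ => by positivity)
        exact ⟨p, Finset.mem_univ _, by positivity⟩
      set τ : ℝ := ∑ p, ‖w p‖ ^ 2 with hτdef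
      have htrw : trace (vecMulVec w (star w)) = (τ : ℂ) := by
        rw [Matrix.trace_vecMulVec, dotProduct, hτdef]
        push_cast
        apply Finset.sum_congr rfl
        intro p _
        rw [Pi.star_apply, Complex.star_def, Complex.mul_conj']
      have hB := hmem (((n / τ : ℝ) : ℂ) • vecMulVec w (star w))
        (Matrix.PosSemidef.smul (Matrix.posSemidef_vecMulVec_self_star w)
          (by exact_mod_cast (div_pos hn0 hτ).le))
        (by
          rw [Matrix.trace_smul, htrw, smul_eq_mul, ← Complex.ofReal_mul]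
          congr 1
          field_simp)
      have h1 := hft _ hB
      rw [map_smul, map_smul, smul_eq_mul] at h1
      change u < (((n / τ : ℝ) : ℂ) * f (blockMap A (vecMulVec w (star w)))).re at h1
      rw [Complex.re_ofReal_mul] at h1
      have h2 : (u / n) * τ < (f (blockMap A (vecMulVec w (star w)))).re := by
        have h3 : u * (τ / n) < (n / τ) * (f (blockMap A (vecMulVec w (star w)))).re * (τ / n) :=
          mul_lt_mul_of_pos_right h1 (by positivity)
        have h4 : (n / τ) * (f (blockMap A (vecMulVec w (star w)))).re * (τ / n)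
            = (f (blockMap A (vecMulVec w (star w)))).re := by
          field_simp
        have h5 : u * (τ / n) = (u / n) * τ := by ring
        rw [h4, h5] at h3
        exact h3
      have h6 : f (blockMap A (vecMulVec w (star w)))
          = ∑ i, star (ξ i) ⬝ᵥ (Z0 *ᵥ ξ i) + ∑ i, ∑ j, A i j * (star (ξ j) ⬝ᵥ (X *ᵥ ξ i)) := by
        change f ((fun a b => ∑ i, (vecMulVec w (star w)) (i, a) (i, b),
          fun a b => ∑ i, ∑ j, A i j * (vecMulVec w (star w)) (i, a) (j, b)) :
            (ν → ν → ℂ) × (ν → ν → ℂ)) = _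
        rw [hf]
        congr 1
        · have : Matrix.of (fun a b => ∑ i, (vecMulVec w (star w)) (i, a) (i, b))
              = ∑ i, vecMulVec (ξ i) (star (ξ i)) := by
            ext a b
            rw [Matrix.sum_apply]
            rfl
          rw [this, Matrix.mul_sum, Matrix.trace_sum]
          apply Finset.sum_congr rfl
          intro i _
          rw [Matrix.mul_vecMulVec, Matrix.trace_vecMulVec, dotProduct_comm]
        · have : Matrix.of (fun a b => ∑ i, ∑ j, A i j * (vecMulVec w (star w)) (i, a) (j, b))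
              = ∑ i, ∑ j, A i j • vecMulVec (ξ i) (star (ξ j)) := by
            ext a b
            rw [Matrix.sum_apply]
            simp only [Matrix.sum_apply, Matrix.smul_apply, smul_eq_mul]
            rfl
          rw [this, Matrix.mul_sum, Matrix.trace_sum]
          apply Finset.sum_congr rfl
          intro i _
          rw [Matrix.mul_sum, Matrix.trace_sum]
          apply Finset.sum_congr rfl
          intro j _
          rw [Matrix.mul_smul, Matrix.trace_smul, Matrix.mul_vecMulVec, Matrix.trace_vecMulVec,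
            dotProduct_comm, smul_eq_mul]
      rw [h6] at h2
      have h7 : (∑ i, star (ξ i) ⬝ᵥ (Z *ᵥ ξ i)) = (∑ i, star (ξ i) ⬝ᵥ (Z0 *ᵥ ξ i))
          - (((u / n) * τ : ℝ) : ℂ) := by
        rw [hZ]
        have : ∀ i, star (ξ i) ⬝ᵥ ((Z0 - ((u / n : ℝ) : ℂ) • 1) *ᵥ ξ i)
            = star (ξ i) ⬝ᵥ (Z0 *ᵥ ξ i) - ((u / n : ℝ) : ℂ) * ∑ a, (‖ξ i a‖ : ℂ) ^ 2 := by
          intro i
          rw [Matrix.sub_mulVec, Matrix.smul_mulVec, Matrix.one_mulVec, dotProduct_sub,
            dotProduct_smul, smul_eq_mul]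
          congr 2
          rw [dotProduct]
          apply Finset.sum_congr rfl
          intro a _
          rw [Pi.star_apply, Complex.star_def, Complex.conj_mul']
        rw [Finset.sum_congr rfl (fun i _ => this i), Finset.sum_sub_distrib, ← Finset.mul_sum]
        congr 1
        rw [Complex.ofReal_mul]
        congr 1
        rw [hτdef]
        push_cast
        rw [Fintype.sum_prod_type]
      rw [h7]
      have h8 : ((∑ i, star (ξ i) ⬝ᵥ (Z0 *ᵥ ξ i)) - (((u / n) * τ : ℝ) : ℂ)
          + ∑ i, ∑ j, A i j * (star (ξ j) ⬝ᵥ (X *ᵥ ξ i))).re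
          = (∑ i, star (ξ i) ⬝ᵥ (Z0 *ᵥ ξ i) + ∑ i, ∑ j, A i j * (star (ξ j) ⬝ᵥ (X *ᵥ ξ i))).re
            - (u / n) * τ := by
        rw [Complex.add_re, Complex.sub_re, Complex.ofReal_re, Complex.add_re]
        ring
      rw [h8]
      linarith
    have h9 : f ((fun a b => if a = b then 1 else 0), (fun a b => T a b))
        = trace Z0 + trace (X * T) := by
      rw [hf]
      have e1 : Matrix.of (fun a b : ν => if a = b then (1 : ℂ) else 0) = 1 := by
        ext a b
        simp [Matrix.one_apply]
      rw [e1, Matrix.mul_one]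
      rfl
    change (f ((fun a b => if a = b then 1 else 0), (fun a b => T a b))).re < u at hfx
    rw [h9] at hfx
    have h10 : (trace Z).re = (trace Z0).re - u := by
      rw [hZ, Matrix.trace_sub, Matrix.trace_smul, Matrix.trace_one, Complex.sub_re, smul_eq_mul,
        Complex.re_ofReal_mul, Complex.natCast_re]
      rw [← hn]
      field_simp
    rw [Complex.add_re, h10] at hlast
    rw [Complex.add_re] at hfx
    linarith

end Pool.Agent.Helper774
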