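import Mathlib
import Pool.Agent.Helper774.SepFin
import Pool.Agent.Helper774.DualNF
open Matrix
open scoped ComplexOrder

namespace Pool.Agent.Helper774

/-- Numerical range of a matrix, in coordinates. -/
def MW {ι : Type*} [Fintype ι] (A : Matrix ι ι ℂ) : Set ℂ :=
  {z | ∃ x : ι → ℂ, star x ⬝ᵥ x = 1 ∧ star x ⬝ᵥ (A *ᵥ x) = z}

/-- `T` is a compression of `1 ⊗ A`, in coordinates. -/
def FinDil {ι ν : Type*} [Fintype ι] [DecidableEq ν] (A : Matrix ι ι ℂ) (T : Matrix ν ν ℂ) :
    Prop :=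
  ∃ (N : ℕ) (R : Fin N → ι → ν → ℂ),
    (∀ a b, ∑ p, ∑ i, starRingEnd ℂ (R p i a) * R p i b = if a = b then 1 else 0) ∧
    (∀ a b, ∑ p, ∑ i, ∑ j, A i j * (starRingEnd ℂ (R p i a) * R p j b) = T a b)

theorem FinDil.of_fintype {ι ν μ : Type*} [Fintype ι] [DecidableEq ν] [Fintype μ]
    {A : Matrix ι ι ℂ} {T : Matrix ν ν ℂ} (R : μ → ι → ν → ℂ)
    (h1 : ∀ a b, ∑ p, ∑ i, starRingEnd ℂ (R p i a) * R p i b = if a = b then 1 else 0)
    (h2 : ∀ a b, ∑ p, ∑ i, ∑ j, A i j * (starRingEnd ℂ (R p i a) * R p j b) = T a b) :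
    FinDil A T := by
  refine ⟨Fintype.card μ, fun p => R ((Fintype.equivFin μ).symm p), ?_, ?_⟩
  · intro a b
    rw [← h1 a b]
    exact (Fintype.equivFin μ).symm.sum_comp
      (fun p => ∑ i, starRingEnd ℂ (R p i a) * R p i b)
  · intro a b
    rw [← h2 a b]
    exact (Fintype.equivFin μ).symm.sum_comp
      (fun p => ∑ i, ∑ j, A i j * (starRingEnd ℂ (R p i a) * R p j b))

theorem FinDil.transfer {ι ι' ν : Type*} [Fintype ι] [Fintype ι'] [DecidableEq ι']
    [DecidableEq ν] {A : Matrix ι ι ℂ} {T : Matrix ν ν ℂ} (V : Matrix ι ι' ℂ)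
    (hV : Vᴴ * V = 1) (h : FinDil (Vᴴ * A * V) T) : FinDil A T := by
  obtain ⟨N, R, h1, h2⟩ := h
  refine ⟨N, fun p i a => ∑ k, V i k * R p k a, ?_, ?_⟩
  · intro a b
    rw [← h1 a b]
    apply Finset.sum_congr rfl
    intro p _
    have e1 : ∀ k l, ∑ i, starRingEnd ℂ (V i k) * V i l = (1 : Matrix ι' ι' ℂ) k l := by
      intro k l
      rw [← hV, Matrix.mul_apply]
      rfl
    calc ∑ i, starRingEnd ℂ (∑ k, V i k * R p k a) * ∑ l, V i l * R p l b
        = ∑ i, ∑ k, ∑ l, (starRingEnd ℂ (V i k) * V i l)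
            * (starRingEnd ℂ (R p k a) * R p l b) := by
          apply Finset.sum_congr rfl
          intro i _
          rw [map_sum, Finset.sum_mul]
          apply Finset.sum_congr rfl
          intro k _
          rw [Finset.mul_sum]
          apply Finset.sum_congr rfl
          intro l _
          rw [map_mul]
          ring
      _ = ∑ k, ∑ l, (∑ i, starRingEnd ℂ (V i k) * V i l)
            * (starRingEnd ℂ (R p k a) * R p l b) := by
          rw [Finset.sum_comm]
          apply Finset.sum_congr rfl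
          intro k _
          rw [Finset.sum_comm]
          apply Finset.sum_congr rfl
          intro l _
          rw [Finset.sum_mul]
      _ = ∑ k, starRingEnd ℂ (R p k a) * R p k b := by
          apply Finset.sum_congr rfl
          intro k _
          rw [Finset.sum_eq_single k]
          · rw [e1, Matrix.one_apply_eq, one_mul]
          · intro l _ hl
            rw [e1, Matrix.one_apply_ne (Ne.symm hl), zero_mul]
          · simp
  · intro a b
    rw [← h2 a b]
    apply Finset.sum_congr rfl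
    intro p _
    have e1 : ∀ k l, (Vᴴ * A * V) k l = ∑ i, ∑ j, starRingEnd ℂ (V i k) * A i j * V j l := by
      intro k l
      rw [Matrix.mul_apply]
      rw [Finset.sum_comm]
      apply Finset.sum_congr rfl
      intro j _
      rw [Matrix.mul_apply, Finset.sum_mul]
      rfl
    calc ∑ i, ∑ j, A i j * (starRingEnd ℂ (∑ k, V i k * R p k a) * ∑ l, V j l * R p l b)
        = ∑ i, ∑ j, ∑ k, ∑ l, (starRingEnd ℂ (V i k) * A i j * V j l)
            * (starRingEnd ℂ (R p k a) * R p l b) := by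
          apply Finset.sum_congr rfl
          intro i _
          apply Finset.sum_congr rfl
          intro j _
          rw [map_sum, Finset.sum_mul, Finset.mul_sum]
          apply Finset.sum_congr rfl
          intro k _
          rw [Finset.mul_sum, Finset.mul_sum]
          apply Finset.sum_congr rfl
          intro l _
          rw [map_mul]
          ring
      _ = ∑ i, ∑ k, ∑ j, ∑ l, (starRingEnd ℂ (V i k) * A i j * V j l)
            * (starRingEnd ℂ (R p k a) * R p l b) := by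
          apply Finset.sum_congr rfl
          intro i _
          rw [Finset.sum_comm]
      _ = ∑ k, ∑ i, ∑ j, ∑ l, (starRingEnd ℂ (V i k) * A i j * V j l)
            * (starRingEnd ℂ (R p k a) * R p l b) := by
          rw [Finset.sum_comm]
      _ = ∑ k, ∑ i, ∑ l, ∑ j, (starRingEnd ℂ (V i k) * A i j * V j l)
            * (starRingEnd ℂ (R p k a) * R p l b) := by
          apply Finset.sum_congr rfl
          intro k _
          apply Finset.sum_congr rfl
          intro i _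
          rw [Finset.sum_comm]
      _ = ∑ k, ∑ l, ∑ i, ∑ j, (starRingEnd ℂ (V i k) * A i j * V j l)
            * (starRingEnd ℂ (R p k a) * R p l b) := by
          apply Finset.sum_congr rfl
          intro k _
          rw [Finset.sum_comm]
      _ = _ := by
          apply Finset.sum_congr rfl
          intro k _
          apply Finset.sum_congr rfl
          intro l _
          rw [e1, Finset.sum_mul]
          apply Finset.sum_congr rfl
          intro i _
          rw [Finset.sum_mul]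

theorem FinDil.smul {ι ν : Type*} [Fintype ι] [DecidableEq ν] {A : Matrix ι ι ℂ}
    {T : Matrix ν ν ℂ} (u : ℂ) (h : FinDil A T) : FinDil (u • A) (u • T) := by
  obtain ⟨N, R, h1, h2⟩ := h
  refine ⟨N, R, h1, ?_⟩
  intro a b
  rw [Matrix.smul_apply, ← h2 a b, smul_eq_mul, Finset.mul_sum]
  apply Finset.sum_congr rfl
  intro p _
  rw [Finset.mul_sum]
  apply Finset.sum_congr rfl
  intro i _
  rw [Finset.mul_sum]
  apply Finset.sum_congr rfl
  intro j _
  rw [Matrix.smul_apply, smul_eq_mul, mul_assoc]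

theorem FinDil.of_smul {ι ν : Type*} [Fintype ι] [DecidableEq ν] {A : Matrix ι ι ℂ}
    {T : Matrix ν ν ℂ} (u : ℂ) (hu : u ≠ 0) (h : FinDil (u • A) (u • T)) : FinDil A T := by
  have := h.smul u⁻¹
  rwa [smul_smul, smul_smul, inv_mul_cancel₀ hu, one_smul, one_smul] at this

theorem dot_self_eq {ι : Type*} [Fintype ι] (x : ι → ℂ) :
    star x ⬝ᵥ x = ((∑ i, ‖x i‖ ^ 2 : ℝ) : ℂ) := by
  rw [dotProduct]
  push_cast
  apply Finset.sum_congr rfl
  intro i _
  rw [Pi.star_apply, Complex.star_def, Complex.conj_mul']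

theorem MW_smul_subset {ι κ : Type*} [Fintype ι] [Fintype κ] {A : Matrix ι ι ℂ}
    {B : Matrix κ κ ℂ} (u : ℂ) (h : MW B ⊆ MW A) : MW (u • B) ⊆ MW (u • A) := by
  rintro z ⟨x, hx, rfl⟩
  obtain ⟨y, hy, hxy⟩ := h ⟨x, hx, rfl⟩
  refine ⟨y, hy, ?_⟩
  rw [Matrix.smul_mulVec, Matrix.smul_mulVec, dotProduct_smul, dotProduct_smul, hxy]

section NF

variable {κ : Type*} [Fintype κ] [DecidableEq κ]

theorem NF_quad (lam r c : ℝ) (k : κ → ℝ) (b : κ → ℂ) (M : Matrix (Option κ) (Option κ) ℂ)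
    (h1 : ∀ i j, M (some i) (some j) = if i = j then (lam : ℂ) + Complex.I * (k i : ℂ) else 0)
    (h2 : ∀ i, M (some i) none = Complex.I * b i)
    (h3 : ∀ i, M none (some i) = Complex.I * starRingEnd ℂ (b i))
    (h4 : M none none = ((lam - r : ℝ) : ℂ) + Complex.I * (c : ℂ))
    (z : Option κ → ℂ) :
    star z ⬝ᵥ (M *ᵥ z) = ((lam * (∑ i, ‖z (some i)‖ ^ 2 + ‖z none‖ ^ 2)
        - r * ‖z none‖ ^ 2 : ℝ) : ℂ)
      + Complex.I * ((∑ i, k i * ‖z (some i)‖ ^ 2
        + 2 * (∑ i, (starRingEnd ℂ (z (some i))) * b i * z none).re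
        + c * ‖z none‖ ^ 2 : ℝ) : ℂ) := by
  have hM0 : (M *ᵥ z) none = (((lam - r : ℝ) : ℂ) + Complex.I * (c : ℂ)) * z none
      + ∑ i, (Complex.I * starRingEnd ℂ (b i)) * z (some i) := by
    rw [Matrix.mulVec, dotProduct, Fintype.sum_option, h4]
    congr 1
    apply Finset.sum_congr rfl
    intro i _
    rw [h3]
  have hMi : ∀ i, (M *ᵥ z) (some i) = (Complex.I * b i) * z none
      + ((lam : ℂ) + Complex.I * (k i : ℂ)) * z (some i) := by
    intro i
    rw [Matrix.mulVec, dotProduct, Fintype.sum_option, h2]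
    congr 1
    rw [Finset.sum_eq_single i]
    · rw [h1]; simp
    · intro j _ hj
      rw [h1, if_neg (Ne.symm hj), zero_mul]
    · simp
  rw [dotProduct, Fintype.sum_option, hM0]
  simp only [hMi, Pi.star_apply, Complex.star_def]
  have hn : ∀ w : ℂ, (‖w‖ : ℂ) ^ 2 = starRingEnd ℂ w * w := fun w => by rw [Complex.conj_mul']
  have hre : ((2 * (∑ i, (starRingEnd ℂ (z (some i))) * b i * z none).re : ℝ) : ℂ)
      = ∑ i, ((starRingEnd ℂ (z (some i))) * b i * z none
        + z (some i) * starRingEnd ℂ (b i) * starRingEnd ℂ (z none)) := by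
    rw [← Complex.add_conj, map_sum, ← Finset.sum_add_distrib]
    apply Finset.sum_congr rfl
    intro i _
    rw [map_mul, map_mul, Complex.conj_conj]
  push_cast
  push_cast at hre
  rw [hre]
  simp only [hn, mul_add, Finset.mul_sum, Finset.sum_add_distrib, sub_mul, mul_sub, add_mul]
  have e1 : ∀ i, starRingEnd ℂ (z (some i)) * (Complex.I * b i * z none)
      = Complex.I * (starRingEnd ℂ (z (some i)) * b i * z none) := fun i => by ring
  have e2 : ∀ i, starRingEnd ℂ (z (some i)) * ((lam : ℂ) * z (some i))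
      = (lam : ℂ) * (starRingEnd ℂ (z (some i)) * z (some i)) := fun i => by ring
  have e3 : ∀ i, starRingEnd ℂ (z (some i)) * (Complex.I * (k i : ℂ) * z (some i))
      = Complex.I * ((k i : ℂ) * (starRingEnd ℂ (z (some i)) * z (some i))) := fun i => by ring
  have e4 : ∀ i, starRingEnd ℂ (z none) * (Complex.I * starRingEnd ℂ (b i) * z (some i))
      = Complex.I * (z (some i) * starRingEnd ℂ (b i) * starRingEnd ℂ (z none)) :=
    fun i => by ring
  simp only [e1, e2, e3, e4]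
  ring

theorem NF_FinDil {ν : Type*} [Fintype ν] [DecidableEq ν]
    (lam r c : ℝ) (hr : 0 < r) (k : κ → ℝ) (b : κ → ℂ) (i0 : κ)
    (M : Matrix (Option κ) (Option κ) ℂ)
    (h1 : ∀ i j, M (some i) (some j) = if i = j then (lam : ℂ) + Complex.I * (k i : ℂ) else 0)
    (h2 : ∀ i, M (some i) none = Complex.I * b i)
    (h3 : ∀ i, M none (some i) = Complex.I * starRingEnd ℂ (b i))
    (h4 : M none none = ((lam - r : ℝ) : ℂ) + Complex.I * (c : ℂ))
    (T : Matrix ν ν ℂ) (hT : MW T ⊆ MW M) : FinDil M T := by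
  have hT' : ∀ x : ν → ℂ, ∃ (y : κ → ℂ) (y0 : ℂ),
      (star x ⬝ᵥ x).re = ∑ i, ‖y i‖ ^ 2 + ‖y0‖ ^ 2 ∧
      (star x ⬝ᵥ (T *ᵥ x)).re = lam * (star x ⬝ᵥ x).re - r * ‖y0‖ ^ 2 ∧
      (star x ⬝ᵥ (T *ᵥ x)).im = ∑ i, k i * ‖y i‖ ^ 2
        + 2 * (∑ i, (starRingEnd ℂ (y i)) * b i * y0).re + c * ‖y0‖ ^ 2 := by
    intro x
    by_cases hx : x = 0
    · refine ⟨0, 0, ?_, ?_, ?_⟩ <;> simp [hx]
    have hpos : 0 < ∑ i, ‖x i‖ ^ 2 := by
      obtain ⟨i, hi⟩ : ∃ i, x i ≠ 0 := by
        by_contra hcon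
        push Not at hcon
        exact hx (funext hcon)
      apply Finset.sum_pos' (fun _ _ => by positivity)
      exact ⟨i, Finset.mem_univ _, by positivity⟩
    set ρ : ℝ := Real.sqrt (∑ i, ‖x i‖ ^ 2) with hρ
    have hρ0 : 0 < ρ := Real.sqrt_pos.mpr hpos
    have hρ2 : ρ ^ 2 = ∑ i, ‖x i‖ ^ 2 := Real.sq_sqrt hpos.le
    have hxx : star x ⬝ᵥ x = ((ρ ^ 2 : ℝ) : ℂ) := by rw [dot_self_eq, hρ2]
    have hunit : star (((ρ⁻¹ : ℝ) : ℂ) • x) ⬝ᵥ (((ρ⁻¹ : ℝ) : ℂ) • x) = 1 := by
      rw [star_smul, smul_dotProduct, dotProduct_smul, hxx]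
      simp only [smul_eq_mul, Complex.star_def, Complex.conj_ofReal]
      rw [← Complex.ofReal_mul, ← Complex.ofReal_mul]
      have : ρ⁻¹ * (ρ⁻¹ * ρ ^ 2) = 1 := by field_simp
      rw [this, Complex.ofReal_one]
    obtain ⟨z, hz, hzx⟩ := hT ⟨((ρ⁻¹ : ℝ) : ℂ) • x, hunit, rfl⟩
    have hzn : ∑ i, ‖z (some i)‖ ^ 2 + ‖z none‖ ^ 2 = 1 := by
      rw [dot_self_eq, Fintype.sum_option] at hz
      have : ((‖z none‖ ^ 2 + ∑ i, ‖z (some i)‖ ^ 2 : ℝ) : ℂ) = ((1 : ℝ) : ℂ) := by
        rw [hz, Complex.ofReal_one]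
      have := Complex.ofReal_inj.mp this
      linarith
    rw [NF_quad lam r c k b M h1 h2 h3 h4 z] at hzx
    have hTx : star x ⬝ᵥ (T *ᵥ x) = ((ρ ^ 2 : ℝ) : ℂ) *
        (star (((ρ⁻¹ : ℝ) : ℂ) • x) ⬝ᵥ (T *ᵥ (((ρ⁻¹ : ℝ) : ℂ) • x))) := by
      rw [star_smul, Matrix.mulVec_smul, smul_dotProduct, dotProduct_smul]
      simp only [smul_eq_mul, Complex.star_def, Complex.conj_ofReal]
      rw [← mul_assoc, ← mul_assoc, ← Complex.ofReal_mul, ← Complex.ofReal_mul]
      have : ρ ^ 2 * ρ⁻¹ * ρ⁻¹ = 1 := by field_simp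
      rw [this, Complex.ofReal_one, one_mul]
    refine ⟨fun i => (ρ : ℂ) * z (some i), (ρ : ℂ) * z none, ?_, ?_, ?_⟩
    · rw [hxx, Complex.ofReal_re]
      simp only [norm_mul, Complex.norm_real, Real.norm_eq_abs, mul_pow, sq_abs]
      rw [← Finset.mul_sum, ← mul_add, hzn, mul_one]
    · rw [hTx, ← hzx, Complex.re_ofReal_mul, Complex.add_re, Complex.ofReal_re, hzn, hxx,
        Complex.ofReal_re]
      simp only [norm_mul, Complex.norm_real, Real.norm_eq_abs, mul_pow, sq_abs, Complex.mul_re,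
        Complex.I_re, Complex.I_im, Complex.ofReal_im, Complex.ofReal_re]
      ring
    · rw [hTx, ← hzx, Complex.im_ofReal_mul, Complex.add_im, Complex.ofReal_im]
      simp only [norm_mul, Complex.norm_real, Real.norm_eq_abs, mul_pow, sq_abs, Complex.mul_im,
        Complex.I_re, Complex.I_im, Complex.ofReal_im, Complex.ofReal_re]
      have e1 : ∀ i, starRingEnd ℂ ((ρ : ℂ) * z (some i)) * b i * ((ρ : ℂ) * z none)
          = ((ρ ^ 2 : ℝ) : ℂ) * (starRingEnd ℂ (z (some i)) * b i * z none) := by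
        intro i
        rw [map_mul, Complex.conj_ofReal]
        push_cast
        ring
      rw [Finset.sum_congr rfl (fun i _ => e1 i), ← Finset.mul_sum, Complex.re_ofReal_mul]
      have e2 : ∑ i, k i * (ρ ^ 2 * ‖z (some i)‖ ^ 2) = ρ ^ 2 * ∑ i, k i * ‖z (some i)‖ ^ 2 := by
        rw [Finset.mul_sum]
        apply Finset.sum_congr rfl
        intro i _
        ring
      rw [e2]
      ring
  obtain ⟨R, hR1, hR2⟩ := exists_R_of_dual M T (by
    intro Z X hZX
    apply dual_NF lam r c hr k b i0 Z X _ T hT'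
    intro ξ η
    have h := hZX (fun o => o.elim η ξ)
    have e1 : ∑ o : Option κ, star ((fun o : Option κ => o.elim η ξ) o) ⬝ᵥ
        (Z *ᵥ ((fun o : Option κ => o.elim η ξ) o))
        = ∑ i, star (ξ i) ⬝ᵥ (Z *ᵥ ξ i) + star η ⬝ᵥ (Z *ᵥ η) := by
      rw [Fintype.sum_option, add_comm]
      rfl
    have e2 : ∑ o : Option κ, ∑ o' : Option κ, M o o' *
        (star ((fun o : Option κ => o.elim η ξ) o') ⬝ᵥ
          (X *ᵥ ((fun o : Option κ => o.elim η ξ) o)))
        = ∑ i, ((lam : ℂ) + Complex.I * (k i : ℂ)) * (star (ξ i) ⬝ᵥ (X *ᵥ ξ i))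
        + ∑ i, (Complex.I * b i) * (star η ⬝ᵥ (X *ᵥ ξ i))
        + ∑ i, (Complex.I * starRingEnd ℂ (b i)) * (star (ξ i) ⬝ᵥ (X *ᵥ η))
        + (((lam - r : ℝ) : ℂ) + Complex.I * (c : ℂ)) * (star η ⬝ᵥ (X *ᵥ η)) := by
      rw [Fintype.sum_option, Fintype.sum_option]
      simp only [Fintype.sum_option, Option.elim]
      rw [h4]
      have e3 : ∀ i, M none (some i) * (star (ξ i) ⬝ᵥ (X *ᵥ η))
          = (Complex.I * starRingEnd ℂ (b i)) * (star (ξ i) ⬝ᵥ (X *ᵥ η)) := by
        intro i; rw [h3]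
      have e4 : ∀ i, M (some i) none * (star η ⬝ᵥ (X *ᵥ ξ i))
          + ∑ j, M (some i) (some j) * (star (ξ j) ⬝ᵥ (X *ᵥ ξ i))
          = (Complex.I * b i) * (star η ⬝ᵥ (X *ᵥ ξ i))
            + ((lam : ℂ) + Complex.I * (k i : ℂ)) * (star (ξ i) ⬝ᵥ (X *ᵥ ξ i)) := by
        intro i
        rw [h2]
        congr 1
        rw [Finset.sum_eq_single i]
        · rw [h1]; simp
        · intro j _ hj
          rw [h1, if_neg (Ne.symm hj), zero_mul]
        · simp
      rw [Finset.sum_congr rfl (fun i _ => e3 i), Finset.sum_congr rfl (fun i _ => e4 i),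
        Finset.sum_add_distrib]
      ring
    rw [e1, e2] at h
    have e5 : ∀ a b c d e f : ℂ, a + b + (c + d + e + f) = a + b + c + d + e + f := by
      intros; ring
    rw [e5] at h
    exact h)
  exact FinDil.of_fintype R hR1 hR2

end NF

end Pool.Agent.Helper774
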