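import Mathlib
import Pool.Agent.Helper774.FinDil
open Matrix
open scoped ComplexOrder InnerProductSpace

namespace Pool.Agent.Helper774

theorem sum_quad_expand {ι ν : Type*} [Fintype ι] [Fintype ν] {N : ℕ}
    (A : Matrix ι ι ℂ) (R : Fin N → ι → ν → ℂ) (c d : ν → ℂ) :
    ∑ i, ∑ j, A i j * ∑ p, starRingEnd ℂ (∑ a, R p i a * c a) * (∑ b, R p j b * d b)
      = ∑ a, ∑ b, starRingEnd ℂ (c a) * d b *
          (∑ p, ∑ i, ∑ j, A i j * (starRingEnd ℂ (R p i a) * R p j b)) := by
  have h1 : ∀ i j, A i j * ∑ p, starRingEnd ℂ (∑ a, R p i a * c a) * (∑ b, R p j b * d b)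
      = ∑ p, ∑ a, ∑ b, starRingEnd ℂ (c a) * d b * (A i j * (starRingEnd ℂ (R p i a) * R p j b)) := by
    intro i j
    rw [Finset.mul_sum]
    apply Finset.sum_congr rfl
    intro p _
    rw [map_sum, Finset.sum_mul, Finset.mul_sum]
    apply Finset.sum_congr rfl
    intro a _
    rw [Finset.mul_sum, Finset.mul_sum]
    apply Finset.sum_congr rfl
    intro b _
    rw [map_mul]
    ring
  calc ∑ i, ∑ j, A i j * ∑ p, starRingEnd ℂ (∑ a, R p i a * c a) * (∑ b, R p j b * d b)
      = ∑ i, ∑ j, ∑ p, ∑ a, ∑ b,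
          starRingEnd ℂ (c a) * d b * (A i j * (starRingEnd ℂ (R p i a) * R p j b)) := by
        apply Finset.sum_congr rfl
        intro i _
        apply Finset.sum_congr rfl
        intro j _
        rw [h1]
    _ = ∑ i, ∑ j, ∑ a, ∑ b, ∑ p,
          starRingEnd ℂ (c a) * d b * (A i j * (starRingEnd ℂ (R p i a) * R p j b)) := by
        apply Finset.sum_congr rfl
        intro i _
        apply Finset.sum_congr rfl
        intro j _
        rw [Finset.sum_comm]
        apply Finset.sum_congr rfl
        intro a _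
        rw [Finset.sum_comm]
    _ = ∑ a, ∑ b, ∑ i, ∑ j, ∑ p,
          starRingEnd ℂ (c a) * d b * (A i j * (starRingEnd ℂ (R p i a) * R p j b)) := by
        have e1 : ∀ i, ∑ j, ∑ a, ∑ b, ∑ p,
            starRingEnd ℂ (c a) * d b * (A i j * (starRingEnd ℂ (R p i a) * R p j b))
            = ∑ a, ∑ b, ∑ j, ∑ p,
            starRingEnd ℂ (c a) * d b * (A i j * (starRingEnd ℂ (R p i a) * R p j b)) := by
          intro i
          rw [Finset.sum_comm]
          apply Finset.sum_congr rfl
          intro a _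
          rw [Finset.sum_comm]
        rw [Finset.sum_congr rfl (fun i _ => e1 i), Finset.sum_comm]
        apply Finset.sum_congr rfl
        intro a _
        rw [Finset.sum_comm]
    _ = _ := by
        apply Finset.sum_congr rfl
        intro a _
        apply Finset.sum_congr rfl
        intro b _
        rw [Finset.mul_sum]
        have e2 : ∀ p, starRingEnd ℂ (c a) * d b *
            (∑ i, ∑ j, A i j * (starRingEnd ℂ (R p i a) * R p j b))
            = ∑ i, ∑ j, starRingEnd ℂ (c a) * d b *
              (A i j * (starRingEnd ℂ (R p i a) * R p j b)) := by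
          intro p
          rw [Finset.mul_sum]
          apply Finset.sum_congr rfl
          intro i _
          rw [Finset.mul_sum]
        rw [Finset.sum_congr rfl (fun p _ => e2 p)]
        symm
        rw [Finset.sum_comm]
        apply Finset.sum_congr rfl
        intro i _
        rw [Finset.sum_comm]

theorem exists_V_of_submodule {ι : Type*} [Fintype ι] [DecidableEq ι] (A : Matrix ι ι ℂ)
    (hA : ∀ (n : ℕ) (T' : Matrix (Fin n) (Fin n) ℂ), MW T' ⊆ MW A → FinDil A T')
    {K : Type*} [NormedAddCommGroup K] [InnerProductSpace ℂ K] (T : K →L[ℂ] K)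
    (hT : ∀ x : K, ‖x‖ = 1 → inner ℂ x (T x) ∈ MW A)
    (F : Submodule ℂ K) [FiniteDimensional ℂ F] :
    ∃ (N : ℕ) (V : ι → K →ₗ[ℂ] EuclideanSpace ℂ (Fin N)),
      (∀ x, ∑ i, ‖V i x‖ ^ 2 ≤ ‖x‖ ^ 2) ∧
      (∀ x ∈ F, ∀ y ∈ F, ∑ i, inner ℂ (V i y) (V i x) = inner ℂ y x) ∧
      (∀ x ∈ F, ∀ y ∈ F, ∑ i, ∑ j, A i j * inner ℂ (V i y) (V j x) = inner ℂ y (T x)) := by
  classical
  set n := Module.finrank ℂ F with hn
  set e : OrthonormalBasis (Fin n) ℂ F := stdOrthonormalBasis ℂ F with he
  have horth : Orthonormal ℂ (fun a => (e a : K)) := by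
    have := e.orthonormal
    exact this.comp_linearIsometry F.subtypeₗᵢ
  have hexp : ∀ x ∈ F, x = ∑ a, (inner ℂ (e a : K) x) • (e a : K) := by
    intro x hx
    have h1 := e.sum_repr' ⟨x, hx⟩
    have h2 := congrArg (Subtype.val) h1
    simp only [Submodule.coe_sum, Submodule.coe_smul, Submodule.coe_inner] at h2
    exact h2.symm
  set T' : Matrix (Fin n) (Fin n) ℂ := Matrix.of (fun a b => inner ℂ (e a : K) (T (e b : K)))
    with hT'
  have hform : ∀ c d : Fin n → ℂ, inner ℂ (∑ a, c a • (e a : K)) (T (∑ b, d b • (e b : K)))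
      = ∑ a, ∑ b, starRingEnd ℂ (c a) * d b * T' a b := by
    intro c d
    rw [map_sum, sum_inner]
    apply Finset.sum_congr rfl
    intro a _
    rw [inner_smul_left, inner_sum, Finset.mul_sum]
    apply Finset.sum_congr rfl
    intro b _
    rw [map_smul, inner_smul_right, hT', Matrix.of_apply]
    ring
  have hform1 : ∀ c d : Fin n → ℂ, inner ℂ (∑ a, c a • (e a : K)) (∑ b, d b • (e b : K))
      = ∑ a, starRingEnd ℂ (c a) * d a := by
    intro c d
    exact horth.inner_sum c d Finset.univ
  have hMW : MW T' ⊆ MW A := by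
    rintro z ⟨x, hx, rfl⟩
    have h1 : ‖∑ a, x a • (e a : K)‖ = 1 := by
      have h2 : inner ℂ (∑ a, x a • (e a : K)) (∑ b, x b • (e b : K)) = (1 : ℂ) := by
        rw [hform1, ← hx, dotProduct]
        rfl
      have h3 : ‖∑ a, x a • (e a : K)‖ ^ 2 = 1 := by
        rw [← inner_self_eq_norm_sq (𝕜 := ℂ), h2]
        simp
      have h4 : 0 ≤ ‖∑ a, x a • (e a : K)‖ := norm_nonneg _
      nlinarith
    have h5 := hT _ h1
    rw [hform] at h5
    have h6 : star x ⬝ᵥ (T' *ᵥ x) = ∑ a, ∑ b, starRingEnd ℂ (x a) * x b * T' a b := by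
      rw [dotProduct]
      apply Finset.sum_congr rfl
      intro a _
      rw [Matrix.mulVec, dotProduct, Finset.mul_sum]
      apply Finset.sum_congr rfl
      intro b _
      rw [Pi.star_apply, Complex.star_def]
      ring
    rw [h6]
    exact h5
  obtain ⟨N, R, hR1, hR2⟩ := hA n T' hMW
  set V : ι → K →ₗ[ℂ] EuclideanSpace ℂ (Fin N) := fun i =>
    { toFun := fun x => WithLp.toLp 2 (fun p => ∑ a, R p i a * inner ℂ (e a : K) x)
      map_add' := by
        intro x y
        ext p
        simp [inner_add_right, mul_add, Finset.sum_add_distrib]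
      map_smul' := by
        intro c x
        ext p
        simp only [inner_smul_right, PiLp.smul_apply, smul_eq_mul,
          Finset.mul_sum]
        apply Finset.sum_congr rfl
        intro a _
        simp only [RingHom.id_apply]
        ring } with hV
  have hVin : ∀ i j x y, inner ℂ (V i y) (V j x)
      = ∑ p, starRingEnd ℂ (∑ a, R p i a * inner ℂ (e a : K) y)
        * (∑ b, R p j b * inner ℂ (e b : K) x) := by
    intro i j x y
    rw [PiLp.inner_apply]
    apply Finset.sum_congr rfl
    intro p _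
    rw [RCLike.inner_apply]
    simp only [hV, LinearMap.coe_mk, AddHom.coe_mk]
    ring
  have hsum1 : ∀ x y, ∑ i, inner ℂ (V i y) (V i x)
      = ∑ a, starRingEnd ℂ (inner ℂ (e a : K) y) * inner ℂ (e a : K) x := by
    intro x y
    have h1 : ∑ i, inner ℂ (V i y) (V i x)
        = ∑ i, ∑ j, (1 : Matrix ι ι ℂ) i j * ∑ p,
          starRingEnd ℂ (∑ a, R p i a * inner ℂ (e a : K) y)
          * (∑ b, R p j b * inner ℂ (e b : K) x) := by
      apply Finset.sum_congr rfl
      intro i _
      rw [Finset.sum_eq_single i]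
      · rw [Matrix.one_apply_eq, one_mul, hVin]
      · intro j _ hj
        rw [Matrix.one_apply_ne (Ne.symm hj), zero_mul]
      · simp
    rw [h1, sum_quad_expand]
    apply Finset.sum_congr rfl
    intro a _
    have h2 : ∀ b, ∑ p, ∑ i, ∑ j, (1 : Matrix ι ι ℂ) i j * (starRingEnd ℂ (R p i a) * R p j b)
        = if a = b then 1 else 0 := by
      intro b
      rw [← hR1 a b]
      apply Finset.sum_congr rfl
      intro p _
      apply Finset.sum_congr rfl
      intro i _
      rw [Finset.sum_eq_single i]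
      · rw [Matrix.one_apply_eq, one_mul]
      · intro j _ hj
        rw [Matrix.one_apply_ne (Ne.symm hj), zero_mul]
      · simp
    rw [Finset.sum_eq_single a]
    · rw [h2]; simp
    · intro b _ hb
      rw [h2, if_neg (Ne.symm hb), mul_zero]
    · simp
  refine ⟨N, V, ?_, ?_, ?_⟩
  · intro x
    have h1 := hsum1 x x
    have h3 : (∑ i, ‖V i x‖ ^ 2 : ℝ) = (∑ a, ‖inner ℂ (e a : K) x‖ ^ 2 : ℝ) := by
      have h2 := congrArg Complex.re h1
      rw [Complex.re_sum, Complex.re_sum] at h2
      have h4 : ∀ i, (inner ℂ (V i x) (V i x)).re = ‖V i x‖ ^ 2 := fun i =>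
        inner_self_eq_norm_sq (𝕜 := ℂ) (V i x)
      rw [Finset.sum_congr rfl (fun i _ => h4 i)] at h2
      rw [h2]
      apply Finset.sum_congr rfl
      intro a _
      rw [Complex.conj_mul', ← Complex.ofReal_pow, Complex.ofReal_re]
    rw [h3]
    exact horth.sum_inner_products_le x
  · intro x hx y hy
    rw [hsum1]
    conv_rhs => rw [hexp x hx, hexp y hy]
    rw [hform1]
  · intro x hx y hy
    have h1 : ∑ i, ∑ j, A i j * inner ℂ (V i y) (V j x)
        = ∑ i, ∑ j, A i j * ∑ p,
          starRingEnd ℂ (∑ a, R p i a * inner ℂ (e a : K) y)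
          * (∑ b, R p j b * inner ℂ (e b : K) x) := by
      apply Finset.sum_congr rfl
      intro i _
      apply Finset.sum_congr rfl
      intro j _
      rw [hVin]
    rw [h1, sum_quad_expand]
    conv_rhs => rw [hexp x hx, hexp y hy]
    rw [hform]
    apply Finset.sum_congr rfl
    intro a _
    apply Finset.sum_congr rfl
    intro b _
    rw [hR2]

end Pool.Agent.Helper774
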