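import Mathlib
import Pool.Agent.Helper774.LimitA
open Matrix
open scoped ComplexOrder InnerProductSpace
open Filter Topology

namespace Pool.Agent.Helper774

theorem exists_forms {ι : Type*} [Fintype ι] [DecidableEq ι] (A : Matrix ι ι ℂ)
    (hA : ∀ (n : ℕ) (T' : Matrix (Fin n) (Fin n) ℂ), MW T' ⊆ MW A → FinDil A T')
    {K : Type*} [NormedAddCommGroup K] [InnerProductSpace ℂ K] (T : K →L[ℂ] K)
    (hT : ∀ x : K, ‖x‖ = 1 → inner ℂ x (T x) ∈ MW A) :
    ∃ b : ι → ι → K → K → ℂ,
      (∀ i j y x, ‖b i j y x‖ ≤ ‖y‖ * ‖x‖) ∧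
      (∀ i j y x x', b i j y (x + x') = b i j y x + b i j y x') ∧
      (∀ i j y c x, b i j y (c • x) = c * b i j y x) ∧
      (∀ i j y y' x, b i j (y + y') x = b i j y x + b i j y' x) ∧
      (∀ i j c y x, b i j (c • y) x = starRingEnd ℂ c * b i j y x) ∧
      (∀ i j y x, starRingEnd ℂ (b i j y x) = b j i x y) ∧
      (∀ x : ι → K, 0 ≤ (∑ i, ∑ j, b i j (x i) (x j)).re) ∧
      (∀ x y, ∑ i, b i i y x = inner ℂ y x) ∧
      (∀ x y, ∑ i, ∑ j, A i j * b i j y x = inner ℂ y (T x)) := by
  classical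
  have hfin : ∀ s : Finset K, ∃ (N : ℕ) (V : ι → K →ₗ[ℂ] EuclideanSpace ℂ (Fin N)),
      (∀ x, ∑ i, ‖V i x‖ ^ 2 ≤ ‖x‖ ^ 2) ∧
      (∀ x ∈ s, ∀ y ∈ s, ∑ i, inner ℂ (V i y) (V i x) = inner ℂ y x) ∧
      (∀ x ∈ s, ∀ y ∈ s, ∑ i, ∑ j, A i j * inner ℂ (V i y) (V j x) = inner ℂ y (T x)) := by
    intro s
    haveI : FiniteDimensional ℂ (Submodule.span ℂ (s : Set K)) :=
      FiniteDimensional.span_finset ℂ s
    obtain ⟨N, V, h1, h2, h3⟩ := exists_V_of_submodule A hA T hT (Submodule.span ℂ (s : Set K))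
    refine ⟨N, V, h1, ?_, ?_⟩
    · intro x hx y hy
      exact h2 x (Submodule.subset_span hx) y (Submodule.subset_span hy)
    · intro x hx y hy
      exact h3 x (Submodule.subset_span hx) y (Submodule.subset_span hy)
  choose N V hV1 hV2 hV3 using hfin
  set β : Finset K → ι → ι → K → K → ℂ := fun s i j y x => inner ℂ (V s i y) (V s j x) with hβ
  have hVn : ∀ s i x, ‖V s i x‖ ≤ ‖x‖ := by
    intro s i x
    have h1 : ‖V s i x‖ ^ 2 ≤ ‖x‖ ^ 2 :=
      (Finset.single_le_sum (f := fun i => ‖V s i x‖ ^ 2) (fun _ _ => by positivity)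
        (Finset.mem_univ i)).trans (hV1 s x)
    exact (sq_le_sq₀ (norm_nonneg _) (norm_nonneg _)).mp h1
  have hβn : ∀ s i j y x, ‖β s i j y x‖ ≤ ‖y‖ * ‖x‖ := by
    intro s i j y x
    exact (norm_inner_le_norm _ _).trans
      (mul_le_mul (hVn s i y) (hVn s j x) (norm_nonneg _) (norm_nonneg _))
  set 𝒰 : Ultrafilter (Finset K) := Ultrafilter.of atTop with h𝒰
  have h𝒰le : (𝒰 : Filter (Finset K)) ≤ atTop := Ultrafilter.of_le atTop
  have hlim : ∀ i j y x, ∃ l : ℂ, Tendsto (fun s => β s i j y x) (𝒰 : Filter (Finset K)) (𝓝 l) := by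
    intro i j y x
    have hc : IsCompact (Metric.closedBall (0 : ℂ) (‖y‖ * ‖x‖)) := isCompact_closedBall _ _
    have hmem : (𝒰.map (fun s => β s i j y x) : Filter ℂ)
        ≤ 𝓟 (Metric.closedBall (0 : ℂ) (‖y‖ * ‖x‖)) := by
      rw [le_principal_iff]
      rw [Ultrafilter.coe_map, mem_map]
      apply univ_mem'
      intro s
      simp only [Set.mem_preimage, mem_closedBall_zero_iff]
      exact hβn s i j y x
    obtain ⟨l, _, hl⟩ := hc.ultrafilter_le_nhds _ hmem
    exact ⟨l, hl⟩
  choose b hb using hlim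
  have huniq : ∀ {f : Finset K → ℂ} {l l' : ℂ}, Tendsto f (𝒰 : Filter (Finset K)) (𝓝 l) →
      Tendsto f (𝒰 : Filter (Finset K)) (𝓝 l') → l = l' := fun h h' => tendsto_nhds_unique h h'
  have hev : ∀ s0 : Finset K, ∀ᶠ s in (𝒰 : Filter (Finset K)), s0 ⊆ s := by
    intro s0
    exact h𝒰le (eventually_ge_atTop s0)
  refine ⟨b, ?_, ?_, ?_, ?_, ?_, ?_, ?_, ?_, ?_⟩
  · intro i j y x
    have h1 : Tendsto (fun s => ‖β s i j y x‖) (𝒰 : Filter (Finset K)) (𝓝 ‖b i j y x‖) :=
      (hb i j y x).norm
    exact le_of_tendsto h1 (Eventually.of_forall (fun s => hβn s i j y x))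
  · intro i j y x x'
    apply huniq (hb i j y (x + x'))
    have := (hb i j y x).add (hb i j y x')
    refine this.congr (fun s => ?_)
    simp only [hβ, map_add, inner_add_right]
  · intro i j y c x
    apply huniq (hb i j y (c • x))
    have := (hb i j y x).const_mul c
    refine this.congr (fun s => ?_)
    simp only [hβ, map_smul, inner_smul_right]
  · intro i j y y' x
    apply huniq (hb i j (y + y') x)
    have := (hb i j y x).add (hb i j y' x)
    refine this.congr (fun s => ?_)
    simp only [hβ, map_add, inner_add_left]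
  · intro i j c y x
    apply huniq (hb i j (c • y) x)
    have := (hb i j y x).const_mul (starRingEnd ℂ c)
    refine this.congr (fun s => ?_)
    simp only [hβ, map_smul, inner_smul_left]
  · intro i j y x
    apply huniq _ (hb j i x y)
    have := (Complex.continuous_conj.tendsto _).comp (hb i j y x)
    refine this.congr (fun s => ?_)
    simp only [hβ, Function.comp_apply, inner_conj_symm]
  · intro x
    have h1 : Tendsto (fun s => (∑ i, ∑ j, β s i j (x i) (x j)).re) (𝒰 : Filter (Finset K))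
        (𝓝 (∑ i, ∑ j, b i j (x i) (x j)).re) := by
      apply (Complex.continuous_re.tendsto _).comp
      apply tendsto_finsetSum
      intro i _
      apply tendsto_finsetSum
      intro j _
      exact hb i j (x i) (x j)
    apply ge_of_tendsto h1
    apply Eventually.of_forall
    intro s
    have h2 : ∑ i, ∑ j, β s i j (x i) (x j)
        = inner ℂ (∑ i, V s i (x i)) (∑ j, V s j (x j)) := by
      rw [sum_inner]
      apply Finset.sum_congr rfl
      intro i _
      rw [inner_sum]
    simp only [h2]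
    exact inner_self_nonneg (𝕜 := ℂ)
  · intro x y
    have h1 : Tendsto (fun s => ∑ i, β s i i y x) (𝒰 : Filter (Finset K))
        (𝓝 (∑ i, b i i y x)) := by
      apply tendsto_finsetSum
      intro i _
      exact hb i i y x
    apply huniq h1
    apply tendsto_const_nhds.congr'
    filter_upwards [hev {x, y}] with s hs
    have hx : x ∈ s := hs (by simp)
    have hy : y ∈ s := hs (by simp)
    exact (hV2 s x hx y hy).symm
  · intro x y
    have h1 : Tendsto (fun s => ∑ i, ∑ j, A i j * β s i j y x) (𝒰 : Filter (Finset K))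
        (𝓝 (∑ i, ∑ j, A i j * b i j y x)) := by
      apply tendsto_finsetSum
      intro i _
      apply tendsto_finsetSum
      intro j _
      exact (hb i j y x).const_mul _
    apply huniq h1
    apply tendsto_const_nhds.congr'
    filter_upwards [hev {x, y}] with s hs
    have hx : x ∈ s := hs (by simp)
    have hy : y ∈ s := hs (by simp)
    exact (hV3 s x hx y hy).symm

end Pool.Agent.Helper774
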