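import Mathlib
import Pool.Agent.Helper774.LimitB
open Matrix
open scoped ComplexOrder InnerProductSpace TensorProduct
open Filter Topology

namespace Pool.Agent.Helper774

universe u

theorem exists_ops_of_forms {ι : Type*} [Fintype ι] [DecidableEq ι]
    {K : Type u} [NormedAddCommGroup K] [InnerProductSpace ℂ K] [CompleteSpace K]
    (b : ι → ι → K → K → ℂ)
    (hb1 : ∀ i j y x, ‖b i j y x‖ ≤ ‖y‖ * ‖x‖)
    (hb2 : ∀ i j y x x', b i j y (x + x') = b i j y x + b i j y x')
    (hb3 : ∀ i j y c x, b i j y (c • x) = c * b i j y x)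
    (hb4 : ∀ i j y y' x, b i j (y + y') x = b i j y x + b i j y' x)
    (hb5 : ∀ i j c y x, b i j (c • y) x = starRingEnd ℂ c * b i j y x)
    (hb6 : ∀ i j y x, starRingEnd ℂ (b i j y x) = b j i x y)
    (hb7 : ∀ x : ι → K, 0 ≤ (∑ i, ∑ j, b i j (x i) (x j)).re) :
    ∃ (V : ι → K →L[ℂ] (PiLp 2 (fun _ : ι => K))),
      ∀ i j y x, inner ℂ (V i y) (V j x) = b i j y x := by
  classical
  have hb0l : ∀ i j x, b i j 0 x = 0 := by
    intro i j x
    have := hb5 i j 0 0 x
    simpa using this
  have hb0r : ∀ i j y, b i j y 0 = 0 := by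
    intro i j y
    have := hb3 i j y 0 0
    simpa using this
  set KK := PiLp 2 (fun _ : ι => K) with hKK
  have hadd : ∀ (v v' : KK) (i : ι), (v + v').ofLp i = v.ofLp i + v'.ofLp i := fun _ _ _ => rfl
  have hsmul : ∀ (c : ℂ) (v : KK) (i : ι), (c • v).ofLp i = c • v.ofLp i := fun _ _ _ => rfl
  set B0 : KK →ₗ⋆[ℂ] KK →ₗ[ℂ] ℂ := LinearMap.mk₂'ₛₗ (starRingEnd ℂ) (RingHom.id ℂ)
    (fun v w : KK => ∑ i, ∑ j, b i j (v i) (w j))
    (by
      intro v v' w
      simp only [hadd, hb4, Finset.sum_add_distrib])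
    (by
      intro c v w
      simp only [hsmul, hb5, smul_eq_mul, Finset.mul_sum])
    (by
      intro v w w'
      simp only [hadd, hb2, Finset.sum_add_distrib])
    (by
      intro c v w
      simp only [hsmul, hb3, smul_eq_mul, Finset.mul_sum, RingHom.id_apply]) with hB0
  have hB0b : ∀ v w, ‖B0 v w‖ ≤ ((Fintype.card ι : ℝ) * (Fintype.card ι : ℝ)) * ‖v‖ * ‖w‖ := by
    intro v w
    have h1 : ‖B0 v w‖ ≤ ∑ i : ι, ∑ j : ι, ‖v‖ * ‖w‖ := by
      refine (norm_sum_le _ _).trans (Finset.sum_le_sum (fun i _ => ?_))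
      refine (norm_sum_le _ _).trans (Finset.sum_le_sum (fun j _ => ?_))
      refine (hb1 i j (v i) (w j)).trans ?_
      exact mul_le_mul (PiLp.norm_apply_le v i) (PiLp.norm_apply_le w j) (norm_nonneg _)
        (norm_nonneg _)
    refine h1.trans (le_of_eq ?_)
    simp only [Finset.sum_const, Finset.card_univ, nsmul_eq_mul]
    ring
  set B : KK →L⋆[ℂ] KK →L[ℂ] ℂ := B0.mkContinuous₂ _ hB0b with hB
  have hBapp : ∀ v w, B v w = ∑ i, ∑ j, b i j (v i) (w j) := fun v w => rfl
  set Op : KK →L[ℂ] KK := InnerProductSpace.continuousLinearMapOfBilin B with hOp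
  have hOpapp : ∀ v w, inner ℂ (Op v) w = ∑ i, ∑ j, b i j (v i) (w j) := by
    intro v w
    rw [hOp, InnerProductSpace.continuousLinearMapOfBilin_apply, hBapp]
  have hconj : ∀ v w : KK, starRingEnd ℂ (∑ i, ∑ j, b i j (v i) (w j))
      = ∑ i, ∑ j, b i j (w i) (v j) := by
    intro v w
    rw [map_sum, Finset.sum_comm]
    apply Finset.sum_congr rfl
    intro i _
    rw [map_sum]
    apply Finset.sum_congr rfl
    intro j _
    rw [hb6]
  have hPos : Op.IsPositive := by
    rw [ContinuousLinearMap.isPositive_def]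
    constructor
    · intro v w
      change inner ℂ (Op v) w = inner ℂ v (Op w)
      rw [← inner_conj_symm v (Op w), hOpapp, hOpapp, hconj]
    · intro v
      change 0 ≤ (inner ℂ (Op v) v).re
      rw [hOpapp]
      exact hb7 (fun i => v i)
  have hOp0 : 0 ≤ Op := (ContinuousLinearMap.nonneg_iff_isPositive Op).mpr hPos
  set S : KK →L[ℂ] KK := CFC.sqrt Op with hS
  have hSS : S * S = Op := CFC.sqrt_mul_sqrt_self Op hOp0
  have hSsa : IsSelfAdjoint S := IsSelfAdjoint.of_nonneg (CFC.sqrt_nonneg Op)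
  have hSin : ∀ v w, inner ℂ (S v) (S w) = inner ℂ (Op v) w := by
    intro v w
    rw [← hSS]
    change inner ℂ (S v) (S w) = inner ℂ (S (S v)) w
    have h1 := ContinuousLinearMap.isSelfAdjoint_iff_isSymmetric.mp hSsa (S v) w
    exact h1.symm
  have hsingle : ∀ (i : ι) (x : K) (j : ι), (WithLp.toLp 2 (Pi.single i x) : KK) j
      = if j = i then x else 0 := by
    intro i x j
    by_cases hj : j = i
    · subst hj; simp
    · simp [hj]
  set inc : ι → K →L[ℂ] KK := fun i =>
    LinearMap.mkContinuous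
      { toFun := fun x => (WithLp.toLp 2 (Pi.single i x) : KK)
        map_add' := by
          intro x y
          ext j
          rw [PiLp.add_apply, hsingle, hsingle, hsingle]
          by_cases hj : j = i <;> simp [hj]
        map_smul' := by
          intro c x
          ext j
          rw [PiLp.smul_apply, hsingle, hsingle]
          by_cases hj : j = i <;> simp [hj] } 1
      (by
        intro x
        rw [one_mul]
        apply le_of_eq
        change ‖(WithLp.toLp 2 (Pi.single i x) : KK)‖ = ‖x‖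
        rw [PiLp.norm_eq_of_L2]
        rw [Finset.sum_eq_single i]
        · simp [Real.sqrt_sq (norm_nonneg x)]
        · intro j _ hj
          have : (Pi.single i x : ι → K) j = 0 := by simp [hj]
          simp [this]
        · simp) with hinc
  have hincapp : ∀ i x j, (inc i x) j = if j = i then x else 0 := by
    intro i x j
    exact hsingle i x j
  refine ⟨fun i => S ∘L (inc i), ?_⟩
  intro i j y x
  change inner ℂ (S (inc i y)) (S (inc j x)) = _
  rw [hSin, hOpapp]
  rw [Finset.sum_eq_single i]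
  · rw [Finset.sum_eq_single j]
    · rw [hincapp, hincapp, if_pos rfl, if_pos rfl]
    · intro j' _ hj'
      rw [hincapp j x j', if_neg hj', hb0r]
    · simp
  · intro i' _ hi'
    apply Finset.sum_eq_zero
    intro j' _
    rw [hincapp i y i', if_neg hi', hb0l]
  · simp

/-- Positive part, operator form: if every matrix with numerical range inside `W(A)` dilates, then
every bounded operator does. -/
theorem exists_dilation {n : ℕ} (A : Matrix (Fin n) (Fin n) ℂ)
    (hA : ∀ (m : ℕ) (T' : Matrix (Fin m) (Fin m) ℂ), MW T' ⊆ MW A → FinDil A T')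
    {K : Type u} [NormedAddCommGroup K] [InnerProductSpace ℂ K] [CompleteSpace K] (T : K →L[ℂ] K)
    (hT : ∀ x : K, ‖x‖ = 1 → inner ℂ x (T x) ∈ MW A) :
    ∃ (H : Type u) (_ : NormedAddCommGroup H) (_ : InnerProductSpace ℂ H) (_ : CompleteSpace H)
      (X : K →ₗᵢ[ℂ] H ⊗[ℂ] EuclideanSpace ℂ (Fin n)),
      ∀ x y : K, inner ℂ (X y) (LinearMap.lTensor H (Matrix.toEuclideanLin A) (X x))
        = inner ℂ y (T x) := by
  classical
  obtain ⟨b, hb1, hb2, hb3, hb4, hb5, hb6, hb7, hb8, hb9⟩ := exists_forms A hA T hT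
  obtain ⟨V, hV⟩ := exists_ops_of_forms b hb1 hb2 hb3 hb4 hb5 hb6 hb7
  refine ⟨PiLp 2 (fun _ : Fin n => K), inferInstance, inferInstance, inferInstance, ?_⟩
  set H := PiLp 2 (fun _ : Fin n => K) with hH
  set e : Fin n → EuclideanSpace ℂ (Fin n) := fun i => EuclideanSpace.single i (1 : ℂ) with he
  set X0 : K →ₗ[ℂ] H ⊗[ℂ] EuclideanSpace ℂ (Fin n) :=
    { toFun := fun x => ∑ i, (V i x) ⊗ₜ[ℂ] (e i)
      map_add' := by
        intro x y
        simp only [map_add, TensorProduct.add_tmul, Finset.sum_add_distrib]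
      map_smul' := by
        intro c x
        simp only [map_smul, TensorProduct.smul_tmul', Finset.smul_sum, RingHom.id_apply] } with hX0
  have hX0app : ∀ x, X0 x = ∑ i, (V i x) ⊗ₜ[ℂ] (e i) := fun x => rfl
  have hee : ∀ i j, inner ℂ (e i) (e j) = (if i = j then (1 : ℂ) else 0) := by
    intro i j
    rw [he]
    simp only [EuclideanSpace.inner_single_left, map_one, one_mul]
    by_cases hij : i = j
    · subst hij; simp
    · simp [hij]
  have hin : ∀ x y, inner ℂ (X0 y) (X0 x) = inner ℂ y x := by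
    intro x y
    rw [hX0app, hX0app, sum_inner]
    rw [← hb8 x y]
    apply Finset.sum_congr rfl
    intro i _
    rw [inner_sum, Finset.sum_eq_single i]
    · rw [TensorProduct.inner_tmul, hee, if_pos rfl, mul_one, hV]
    · intro j _ hj
      rw [TensorProduct.inner_tmul, hee, if_neg (Ne.symm hj), mul_zero]
    · simp
  refine ⟨X0.isometryOfInner (fun y x => hin x y), ?_⟩
  intro x y
  change inner ℂ (X0 y) (LinearMap.lTensor H (Matrix.toEuclideanLin A) (X0 x)) = _
  rw [hX0app, hX0app, map_sum]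
  simp only [LinearMap.lTensor_tmul]
  rw [← hb9 x y, sum_inner]
  apply Finset.sum_congr rfl
  intro i _
  rw [inner_sum]
  apply Finset.sum_congr rfl
  intro j _
  rw [TensorProduct.inner_tmul, hV]
  have : inner ℂ (e i) (Matrix.toEuclideanLin A (e j)) = A i j := by
    rw [he]
    simp only [EuclideanSpace.inner_single_left, map_one, one_mul]
    rw [Matrix.ofLp_toLpLin]
    simp
  rw [this, mul_comm]

end Pool.Agent.Helper774
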