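import Mathlib
import Pool.Agent.Helper774.FinDil
open Matrix
open scoped ComplexOrder InnerProductSpace
open Filter Topology

namespace Pool.Agent.Helper774

theorem isCompact_unit {ι : Type*} [Fintype ι] : IsCompact {x : ι → ℂ | star x ⬝ᵥ x = 1} := by
  apply Metric.isCompact_of_isClosed_isBounded
  · apply isClosed_eq
    · simp only [dotProduct, Pi.star_apply]
      fun_prop
    · fun_prop
  · rw [Metric.isBounded_iff_subset_closedBall 0]
    refine ⟨1, ?_⟩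
    intro x hx
    rw [mem_closedBall_zero_iff, pi_norm_le_iff_of_nonneg zero_le_one]
    intro i
    have h1 : star x ⬝ᵥ x = 1 := hx
    rw [dot_self_eq] at h1
    have h2 : ∑ i, ‖x i‖ ^ 2 = 1 := by exact_mod_cast h1
    have h3 : ‖x i‖ ^ 2 ≤ 1 := by
      rw [← h2]
      exact Finset.single_le_sum (f := fun i => ‖x i‖ ^ 2) (fun _ _ => by positivity)
        (Finset.mem_univ i)
    have h4 := norm_nonneg (x i)
    nlinarith

theorem continuous_quad {ι : Type*} [Fintype ι] (A : Matrix ι ι ℂ) :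
    Continuous (fun x : ι → ℂ => star x ⬝ᵥ (A *ᵥ x)) := by
  simp only [dotProduct, Pi.star_apply, Matrix.mulVec]
  fun_prop

theorem MW_isCompact {ι : Type*} [Fintype ι] (A : Matrix ι ι ℂ) : IsCompact (MW A) := by
  have : MW A = (fun x : ι → ℂ => star x ⬝ᵥ (A *ᵥ x)) '' {x : ι → ℂ | star x ⬝ᵥ x = 1} := by
    ext z
    constructor
    · rintro ⟨x, hx, hz⟩
      exact ⟨x, hx, hz⟩
    · rintro ⟨x, hx, hz⟩
      exact ⟨x, hx, hz⟩
  rw [this]
  exact isCompact_unit.image (continuous_quad A)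

theorem dot_self_re_nonneg {ι : Type*} [Fintype ι] (x : ι → ℂ) : 0 ≤ (star x ⬝ᵥ x).re := by
  rw [dot_self_eq, Complex.ofReal_re]
  positivity

theorem dot_self_im {ι : Type*} [Fintype ι] (x : ι → ℂ) : (star x ⬝ᵥ x).im = 0 := by
  rw [dot_self_eq, Complex.ofReal_im]

theorem dot_self_re_eq_zero {ι : Type*} [Fintype ι] {x : ι → ℂ} (h : (star x ⬝ᵥ x).re = 0) :
    x = 0 := by
  rw [dot_self_eq, Complex.ofReal_re] at h
  ext i
  have := (Finset.sum_eq_zero_iff_of_nonneg (fun i _ => by positivity)).mp h i (Finset.mem_univ i)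
  simpa using this

/-- rescaling a nonzero vector to a unit vector -/
theorem mem_MW_of_ne_zero {ι : Type*} [Fintype ι] (A : Matrix ι ι ℂ) (x : ι → ℂ) (hx : x ≠ 0) :
    (star x ⬝ᵥ (A *ᵥ x)) / (star x ⬝ᵥ x) ∈ MW A := by
  have hpos : 0 < (star x ⬝ᵥ x).re := by
    rcases (dot_self_re_nonneg x).lt_or_eq with h | h
    · exact h
    · exact absurd (dot_self_re_eq_zero h.symm) hx
  set ρ : ℝ := (star x ⬝ᵥ x).re with hρ
  have hxx : star x ⬝ᵥ x = (ρ : ℂ) := by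
    apply Complex.ext
    · simp [hρ]
    · simp [dot_self_im]
  set s : ℝ := (Real.sqrt ρ)⁻¹ with hs
  have hs2 : s * s = ρ⁻¹ := by
    rw [hs, ← mul_inv, Real.mul_self_sqrt hpos.le]
  have hq : ∀ M : Matrix ι ι ℂ, star ((s : ℂ) • x) ⬝ᵥ (M *ᵥ ((s : ℂ) • x))
      = ((ρ⁻¹ : ℝ) : ℂ) * (star x ⬝ᵥ (M *ᵥ x)) := by
    intro M
    rw [star_smul, Matrix.mulVec_smul, smul_dotProduct, dotProduct_smul]
    simp only [smul_eq_mul, Complex.star_def, Complex.conj_ofReal]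
    rw [← mul_assoc, ← Complex.ofReal_mul, hs2]
  refine ⟨(s : ℂ) • x, ?_, ?_⟩
  · classical
    have := hq 1
    rw [Matrix.one_mulVec, Matrix.one_mulVec] at this
    rw [this, hxx, ← Complex.ofReal_mul, inv_mul_cancel₀ hpos.ne', Complex.ofReal_one]
  · rw [hq, hxx, Complex.ofReal_inv, div_eq_inv_mul]

theorem MW_convex {ι : Type*} [Fintype ι] (A : Matrix ι ι ℂ) : Convex ℝ (MW A) := by
  classical
  rintro _ ⟨x, hx, rfl⟩ _ ⟨y, hy, rfl⟩ s t hs ht hst
  set a := star x ⬝ᵥ (A *ᵥ x) with ha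
  set b := star y ⬝ᵥ (A *ᵥ y) with hb
  by_cases hab : a = b
  · rw [← hab, ← add_smul, hst, one_smul]
    exact ⟨x, hx, rfl⟩
  have hba : b - a ≠ 0 := sub_ne_zero.mpr (Ne.symm hab)
  -- normalised matrix
  set B : Matrix ι ι ℂ := (b - a)⁻¹ • (A - a • 1) with hB
  have hBq : ∀ u v : ι → ℂ, star u ⬝ᵥ (B *ᵥ v)
      = (b - a)⁻¹ * (star u ⬝ᵥ (A *ᵥ v) - a * (star u ⬝ᵥ v)) := by
    intro u v
    rw [hB, Matrix.smul_mulVec, Matrix.sub_mulVec, Matrix.smul_mulVec, Matrix.one_mulVec,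
      dotProduct_smul, dotProduct_sub, dotProduct_smul]
    simp only [smul_eq_mul]
  have hBx : star x ⬝ᵥ (B *ᵥ x) = 0 := by
    rw [hBq, hx, ← ha]; ring
  have hBy : star y ⬝ᵥ (B *ᵥ y) = 1 := by
    rw [hBq, hy, ← hb, mul_one, inv_mul_cancel₀ hba]
  set p := star x ⬝ᵥ (B *ᵥ y) with hp
  set q := star y ⬝ᵥ (B *ᵥ x) with hq
  obtain ⟨ω, hω, hωim⟩ : ∃ ω : ℂ, ‖ω‖ = 1 ∧ (ω * p + starRingEnd ℂ ω * q).im = 0 := by
    by_cases h0 : p - starRingEnd ℂ q = 0
    · refine ⟨1, by simp, ?_⟩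
      have : p = starRingEnd ℂ q := sub_eq_zero.mp h0
      simp [this]
    · refine ⟨starRingEnd ℂ (p - starRingEnd ℂ q) / (‖p - starRingEnd ℂ q‖ : ℂ), ?_, ?_⟩
      · rw [norm_div, Complex.norm_conj, Complex.norm_real, norm_norm,
          div_self (norm_ne_zero_iff.mpr h0)]
      · set d := p - starRingEnd ℂ q with hd
        have hdn : (‖d‖ : ℂ) ≠ 0 := by
          exact_mod_cast norm_ne_zero_iff.mpr h0
        have h1 : (starRingEnd ℂ d / (‖d‖ : ℂ)) * p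
            + starRingEnd ℂ (starRingEnd ℂ d / (‖d‖ : ℂ)) * q
            = (starRingEnd ℂ d / (‖d‖ : ℂ)) * d
              + ((starRingEnd ℂ d / (‖d‖ : ℂ)) * starRingEnd ℂ q
                + starRingEnd ℂ ((starRingEnd ℂ d / (‖d‖ : ℂ)) * starRingEnd ℂ q)) := by
          rw [map_mul, Complex.conj_conj, hd]
          ring
        rw [h1, Complex.add_conj, Complex.add_im, Complex.ofReal_im, add_zero]
        have h2 : (starRingEnd ℂ d / (‖d‖ : ℂ)) * d = ((‖d‖ : ℝ) : ℂ) := by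
          rw [div_mul_eq_mul_div, Complex.conj_mul']
          field_simp
        rw [h2, Complex.ofReal_im]
  have hωn : starRingEnd ℂ ω * ω = 1 := by
    rw [Complex.conj_mul', hω]; simp
  set g : ℝ := (ω * p + starRingEnd ℂ ω * q).re with hg
  have hg' : ω * p + starRingEnd ℂ ω * q = (g : ℂ) := by
    apply Complex.ext
    · simp [hg]
    · rw [hωim, Complex.ofReal_im]
  set v : ℝ → ι → ℂ := fun τ => ((1 - τ : ℝ) : ℂ) • x + ((τ : ℂ) * ω) • y with hv
  have hvq : ∀ τ, star (v τ) ⬝ᵥ (B *ᵥ v τ) = ((τ ^ 2 + (1 - τ) * τ * g : ℝ) : ℂ) := by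
    intro τ
    have h1 : star (v τ) ⬝ᵥ (B *ᵥ v τ)
        = ((1 - τ : ℝ) : ℂ) * ((1 - τ : ℝ) : ℂ) * (star x ⬝ᵥ (B *ᵥ x))
          + ((1 - τ : ℝ) : ℂ) * (τ : ℂ) * (ω * (star x ⬝ᵥ (B *ᵥ y))
            + starRingEnd ℂ ω * (star y ⬝ᵥ (B *ᵥ x)))
          + (τ : ℂ) * (τ : ℂ) * (starRingEnd ℂ ω * ω) * (star y ⬝ᵥ (B *ᵥ y)) := by
      simp only [hv, star_add, star_smul, Matrix.mulVec_add, Matrix.mulVec_smul, add_dotProduct,
        dotProduct_add, smul_dotProduct, dotProduct_smul, smul_eq_mul, Complex.star_def,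
        Complex.conj_ofReal, map_mul]
      ring
    rw [h1, hBx, hBy, hωn, ← hp, ← hq, hg']
    push_cast
    ring
  have hv0 : ∀ τ, v τ ≠ 0 := by
    intro τ h0
    have h1 : ((1 - τ : ℝ) : ℂ) • x = -(((τ : ℂ) * ω) • y) := by
      have : ((1 - τ : ℝ) : ℂ) • x + ((τ : ℂ) * ω) • y = 0 := h0
      exact eq_neg_of_add_eq_zero_left this
    have h2 : star (((1 - τ : ℝ) : ℂ) • x) ⬝ᵥ (B *ᵥ (((1 - τ : ℝ) : ℂ) • x))
        = star (-(((τ : ℂ) * ω) • y)) ⬝ᵥ (B *ᵥ (-(((τ : ℂ) * ω) • y))) := by rw [h1]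
    have h3 : star (((1 - τ : ℝ) : ℂ) • x) ⬝ᵥ (((1 - τ : ℝ) : ℂ) • x)
        = star (-(((τ : ℂ) * ω) • y)) ⬝ᵥ (-(((τ : ℂ) * ω) • y)) := by rw [h1]
    simp only [star_neg, star_smul, Matrix.mulVec_neg, Matrix.mulVec_smul, neg_dotProduct,
      dotProduct_neg, neg_neg, smul_dotProduct, dotProduct_smul, smul_eq_mul, Complex.star_def,
      Complex.conj_ofReal, map_mul, hBx, hBy, hx, hy, mul_zero, mul_one] at h2 h3
    have h4 : -((τ : ℂ) * ω * -((τ : ℂ) * starRingEnd ℂ ω)) = (τ : ℂ) * (τ : ℂ) := by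
      calc -((τ : ℂ) * ω * -((τ : ℂ) * starRingEnd ℂ ω))
          = (τ : ℂ) * (τ : ℂ) * (starRingEnd ℂ ω * ω) := by ring
        _ = _ := by rw [hωn, mul_one]
    rw [h4] at h2 h3
    have h5 : τ * τ = 0 := by exact_mod_cast h2.symm
    have h6 : τ = 0 := by simpa using h5
    rw [h6] at h3
    simp at h3
  set D : ℝ → ℝ := fun τ => (star (v τ) ⬝ᵥ v τ).re with hD
  have hDpos : ∀ τ, 0 < D τ := by
    intro τ
    rcases (dot_self_re_nonneg (v τ)).lt_or_eq with h | h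
    · exact h
    · exact absurd (dot_self_re_eq_zero h.symm) (hv0 τ)
  have hDc : Continuous D := by
    simp only [hD, hv, dotProduct, Pi.star_apply, Pi.add_apply, Pi.smul_apply, smul_eq_mul]
    fun_prop
  set F : ℝ → ℝ := fun τ => (τ ^ 2 + (1 - τ) * τ * g) / D τ with hF
  have hFc : Continuous F := by
    apply Continuous.div _ hDc (fun τ => (hDpos τ).ne')
    fun_prop
  have hF0 : F 0 = 0 := by simp [hF]
  have hF1 : F 1 = 1 := by
    have h1 : D 1 = 1 := by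
      have : v 1 = ω • y := by simp [hv]
      simp only [hD]
      rw [this, star_smul, smul_dotProduct, dotProduct_smul, hy]
      simp only [smul_eq_mul, mul_one, Complex.star_def, hωn, Complex.one_re]
    simp [hF, h1]
  have hivt := intermediate_value_Icc (zero_le_one (α := ℝ)) hFc.continuousOn
  have htmem : t ∈ Set.Icc (F 0) (F 1) := by
    rw [hF0, hF1]
    exact ⟨ht, by linarith⟩
  obtain ⟨τ, _, hτ⟩ := hivt htmem
  have hmem := mem_MW_of_ne_zero A (v τ) (hv0 τ)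
  have hvv : star (v τ) ⬝ᵥ v τ = (D τ : ℂ) := by
    apply Complex.ext
    · simp [hD]
    · rw [dot_self_im, Complex.ofReal_im]
  have hfinal : (star (v τ) ⬝ᵥ (A *ᵥ v τ)) / (star (v τ) ⬝ᵥ v τ) = s • a + t • b := by
    have h1 := hvq τ
    rw [hBq, hvv] at h1
    have h2 : star (v τ) ⬝ᵥ (A *ᵥ v τ)
        = a * (D τ : ℂ) + (b - a) * ((τ ^ 2 + (1 - τ) * τ * g : ℝ) : ℂ) := by
      rw [← h1]
      field_simp
      ring
    have h3 : τ ^ 2 + (1 - τ) * τ * g = t * D τ := by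
      have : (τ ^ 2 + (1 - τ) * τ * g) / D τ = t := hτ
      rw [div_eq_iff (hDpos τ).ne'] at this
      exact this
    rw [h2, h3, hvv]
    have hD0 : (D τ : ℂ) ≠ 0 := by exact_mod_cast (hDpos τ).ne'
    rw [Complex.real_smul, Complex.real_smul]
    have hs' : (s : ℂ) = 1 - (t : ℂ) := by
      have : s = 1 - t := by linarith
      rw [this]; push_cast; ring
    rw [hs']
    push_cast
    field_simp
    ring
  rw [hfinal] at hmem
  exact hmem

/-- Separation of a point from the numerical range. -/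
theorem exists_sep {ι : Type*} [Fintype ι] (A : Matrix ι ι ℂ) (z : ℂ) (hz : z ∉ MW A) :
    ∃ u : ℂ, ∀ w ∈ MW A, (u * w).re < (u * z).re := by
  obtain ⟨f, c, h1, h2⟩ := RCLike.geometric_hahn_banach_closed_point (𝕜 := ℂ) (MW_convex A)
    (MW_isCompact A).isClosed hz
  refine ⟨f 1, ?_⟩
  intro w hw
  have e : ∀ w : ℂ, f w = f 1 * w := by
    intro w
    have : w = w • (1 : ℂ) := by simp
    conv_lhs => rw [this, map_smul]
    rw [smul_eq_mul, mul_comm]
  rw [← e, ← e]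
  exact (h1 w hw).trans h2

end Pool.Agent.Helper774
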