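import Mathlib
import Pool.Agent.Helper774.FinDil
open Matrix
open scoped ComplexOrder

namespace Pool.Agent.Helper774

/-- There is a unitary matrix whose last column is proportional to a given nonzero vector. -/
theorem exists_unitary_col {ι : Type*} [Fintype ι] [DecidableEq ι] (g : ι → ℂ) (hg : g ≠ 0)
    (m : ℕ) (hm : m + 1 = Fintype.card ι) :
    ∃ (V : Matrix ι (Option (Fin m)) ℂ) (ρ : ℝ), 0 < ρ ∧ Vᴴ * V = 1 ∧ V * Vᴴ = 1 ∧
      Vᴴ *ᵥ g = Pi.single none (ρ : ℂ) := by
  classical
  set g' : EuclideanSpace ℂ ι := WithLp.toLp 2 g with hg'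
  have hg'0 : g' ≠ 0 := by
    intro h
    apply hg
    have := congrArg WithLp.ofLp h
    simpa [hg'] using this
  have hn : 0 < ‖g'‖ := norm_pos_iff.mpr hg'0
  set e : EuclideanSpace ℂ ι := ((‖g'‖⁻¹ : ℝ) : ℂ) • g' with he
  have hen : ‖e‖ = 1 := by
    rw [he, norm_smul, Complex.norm_real, Real.norm_eq_abs, abs_of_pos (inv_pos.mpr hn),
      inv_mul_cancel₀ hn.ne']
  have hcard : Module.finrank ℂ (EuclideanSpace ℂ ι) = Fintype.card (Option (Fin m)) := by
    rw [finrank_euclideanSpace, Fintype.card_option, Fintype.card_fin, hm]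
  set v : Option (Fin m) → EuclideanSpace ℂ ι := fun _ => e with hv
  have horth : Orthonormal ℂ (({none} : Set (Option (Fin m))).domRestrict v) := by
    constructor
    · intro i
      exact hen
    · intro i j hij
      exact (hij (Subsingleton.elim i j)).elim
  obtain ⟨b, hb⟩ := horth.exists_orthonormalBasis_extension_of_card_eq hcard
  have hbn : b none = e := hb none rfl
  refine ⟨Matrix.of (fun i o => (b o).ofLp i), ‖g'‖, hn, ?_, ?_, ?_⟩
  · ext o o'
    rw [Matrix.mul_apply, Matrix.one_apply]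
    have h := orthonormal_iff_ite.mp b.orthonormal o o'
    rw [← h, EuclideanSpace.inner_eq_star_dotProduct, dotProduct]
    apply Finset.sum_congr rfl
    intro i _
    simp only [Matrix.conjTranspose_apply, Matrix.of_apply, Pi.star_apply]
    ring
  · have hcard' : Fintype.card ι = Fintype.card (Option (Fin m)) := by
      rw [Fintype.card_option, Fintype.card_fin, hm]
    have e1 : ((Matrix.of (fun i o => (b o).ofLp i))ᴴ * (Matrix.of (fun i o => (b o).ofLp i))
        : Matrix (Option (Fin m)) (Option (Fin m)) ℂ) = 1 := by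
      ext o o'
      rw [Matrix.mul_apply, Matrix.one_apply]
      have h := orthonormal_iff_ite.mp b.orthonormal o o'
      rw [← h, EuclideanSpace.inner_eq_star_dotProduct, dotProduct]
      apply Finset.sum_congr rfl
      intro i _
      simp only [Matrix.conjTranspose_apply, Matrix.of_apply, Pi.star_apply]
      ring
    exact (Matrix.mul_eq_one_comm_of_card_eq _ _ _ hcard').mpr e1
  · ext o
    have h := orthonormal_iff_ite.mp b.orthonormal o none
    rw [hbn] at h
    have h2 : inner ℂ (b o) g' = (‖g'‖ : ℂ) * (if o = none then 1 else 0) := by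
      have h3 : g' = (‖g'‖ : ℂ) • e := by
        rw [he, smul_smul, ← Complex.ofReal_mul, mul_inv_cancel₀ hn.ne', Complex.ofReal_one,
          one_smul]
      conv_lhs => rw [h3]
      rw [inner_smul_right, h]
    have h4 : (((Matrix.of (fun i o => (b o).ofLp i) : Matrix ι (Option (Fin m)) ℂ)ᴴ) *ᵥ g) o
        = inner ℂ (b o) g' := by
      rw [EuclideanSpace.inner_eq_star_dotProduct, Matrix.mulVec, dotProduct, dotProduct]
      apply Finset.sum_congr rfl
      intro i _
      simp only [Matrix.conjTranspose_apply, Matrix.of_apply, Pi.star_apply, hg']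
      ring
    rw [h4, h2]
    by_cases ho : o = none
    · subst ho
      simp
    · simp [ho]

theorem rankOne_FinDil {ι ν : Type*} [Fintype ι] [DecidableEq ι] [Fintype ν] [DecidableEq ν]
    (A : Matrix ι ι ℂ) (u : ℂ) (hu : u ≠ 0) (lam : ℝ) (g : ι → ℂ) (hg : g ≠ 0)
    (hcard : 2 ≤ Fintype.card ι)
    (hA : (u • A) + (u • A)ᴴ = (2 : ℂ) • ((lam : ℂ) • 1 - vecMulVec g (star g)))
    (T : Matrix ν ν ℂ) (hT : MW T ⊆ MW A) : FinDil A T := by
  apply FinDil.of_smul u hu
  have hT1 : MW (u • T) ⊆ MW (u • A) := MW_smul_subset u hT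
  generalize u • T = T1 at hT1 ⊢
  generalize u • A = M at hA hT1 ⊢
  obtain ⟨m, hm⟩ : ∃ m, m + 1 = Fintype.card ι := ⟨Fintype.card ι - 1, by omega⟩
  have hm1 : 1 ≤ m := by omega
  obtain ⟨V, ρ, hρ, hVV, hVV', hVg⟩ := exists_unitary_col g hg m hm
  obtain ⟨K0, hK0⟩ : ∃ K0 : Matrix (Option (Fin m)) (Option (Fin m)) ℂ,
    K0 = (-(Complex.I) / 2 : ℂ) • ((Vᴴ * M * V) - (Vᴴ * M * V)ᴴ) := ⟨_, rfl⟩
  have hK0H : K0ᴴ = K0 := by
    rw [hK0, conjTranspose_smul, conjTranspose_sub, conjTranspose_conjTranspose]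
    have : star (-(Complex.I) / 2 : ℂ) = -(-(Complex.I) / 2) := by
      simp
      ring
    rw [this, neg_smul, ← smul_neg, neg_sub]
  obtain ⟨W, k, hWW, hWW', hWspec⟩ := exists_spectral
    (Matrix.of (fun i j => K0 (some i) (some j))) (by
      ext i j
      have := congrFun (congrFun hK0H (some i)) (some j)
      simpa [Matrix.conjTranspose_apply] using this)
  obtain ⟨W', hW'⟩ : ∃ W' : Matrix (Option (Fin m)) (Option (Fin m)) ℂ,
    (∀ i j, W' (some i) (some j) = W i j) ∧ (∀ i, W' (some i) none = 0) ∧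
    (∀ i, W' none (some i) = 0) ∧ W' none none = 1 :=
    ⟨Matrix.of (fun o o' => match o, o' with
      | some i, some j => W i j
      | none, none => 1
      | _, _ => 0), by simp, by simp, by simp, by simp⟩
  obtain ⟨w1, w2, w3, w4⟩ := hW'
  have hW'W' : W'ᴴ * W' = 1 := by
    ext o o'
    rw [Matrix.mul_apply, Fintype.sum_option]
    simp only [Matrix.conjTranspose_apply]
    rcases o with _ | i <;> rcases o' with _ | j
    · simp [w2, w4]
    · simp [w2, w3, w4]
    · simp [w2, w3, w4]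
    · have := congrFun (congrFun hWW i) j
      rw [Matrix.mul_apply] at this
      simp only [Matrix.conjTranspose_apply] at this
      simp only [w1, w3, star_zero, zero_mul, zero_add]
      rw [this]
      simp [Matrix.one_apply]
  have hW'W'' : W' * W'ᴴ = 1 := mul_eq_one_comm.mp hW'W'
  -- total unitary
  obtain ⟨U, hU⟩ : ∃ U : Matrix ι (Option (Fin m)) ℂ, U = V * W' := ⟨_, rfl⟩
  have hUU : Uᴴ * U = 1 := by
    rw [hU, conjTranspose_mul]
    calc W'ᴴ * Vᴴ * (V * W') = W'ᴴ * (Vᴴ * V) * W' := by simp only [Matrix.mul_assoc]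
      _ = 1 := by rw [hVV, Matrix.mul_one, hW'W']
  have hUU' : U * Uᴴ = 1 := by
    rw [hU, conjTranspose_mul]
    calc V * W' * (W'ᴴ * Vᴴ) = V * (W' * W'ᴴ) * Vᴴ := by simp only [Matrix.mul_assoc]
      _ = 1 := by rw [hW'W'', Matrix.mul_one, hVV']
  have hUg : Uᴴ *ᵥ g = Pi.single none (ρ : ℂ) := by
    rw [hU, conjTranspose_mul, ← Matrix.mulVec_mulVec, hVg]
    ext o
    rw [Matrix.mulVec_single]
    rcases o with _ | i
    · simp [Matrix.conjTranspose_apply, w4]
    · simp [Matrix.conjTranspose_apply, w3]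
  apply FinDil.transfer U hUU
  obtain ⟨M2, hM2⟩ : ∃ M2 : Matrix (Option (Fin m)) (Option (Fin m)) ℂ, M2 = Uᴴ * M * U :=
    ⟨_, rfl⟩
  rw [← hM2]
  have hH2 : M2 + M2ᴴ = (2 : ℂ) • ((lam : ℂ) • 1
      - vecMulVec (Pi.single none (ρ : ℂ)) (star (Pi.single none (ρ : ℂ)))) := by
    have : M2 + M2ᴴ = Uᴴ * (M + Mᴴ) * U := by
      rw [hM2, conjTranspose_mul, conjTranspose_mul, conjTranspose_conjTranspose, Matrix.mul_add,
        Matrix.add_mul, Matrix.mul_assoc Uᴴ Mᴴ U]
    rw [this, hA, Matrix.mul_smul, Matrix.smul_mul, Matrix.mul_sub, Matrix.sub_mul,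
      Matrix.mul_smul, Matrix.smul_mul, Matrix.mul_one, hUU, Matrix.mul_vecMulVec,
      Matrix.vecMulVec_mul, hUg]
    congr 3
    have : star g ᵥ* U = star (Uᴴ *ᵥ g) := by
      rw [Matrix.star_mulVec, conjTranspose_conjTranspose]
    rw [this, hUg]
  obtain ⟨K2, hK2⟩ : ∃ K2 : Matrix (Option (Fin m)) (Option (Fin m)) ℂ,
    K2 = (-(Complex.I) / 2 : ℂ) • (M2 - M2ᴴ) := ⟨_, rfl⟩
  have hK2H : K2ᴴ = K2 := by
    rw [hK2, conjTranspose_smul, conjTranspose_sub, conjTranspose_conjTranspose]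
    have : star (-(Complex.I) / 2 : ℂ) = -(-(Complex.I) / 2) := by
      simp
      ring
    rw [this, neg_smul, ← smul_neg, neg_sub]
  have hK2W : K2 = W'ᴴ * K0 * W' := by
    have e1 : M2 = W'ᴴ * (Vᴴ * M * V) * W' := by
      rw [hM2, hU, conjTranspose_mul]
      simp only [Matrix.mul_assoc]
    have e2 : M2ᴴ = W'ᴴ * (Vᴴ * M * V)ᴴ * W' := by
      rw [e1, conjTranspose_mul, conjTranspose_mul, conjTranspose_conjTranspose]
      simp only [Matrix.mul_assoc]
    rw [hK2, hK0, e2]
    conv_lhs => rw [e1]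
    rw [Matrix.mul_smul, Matrix.smul_mul, Matrix.mul_sub, Matrix.sub_mul]
  have hM2decomp : M2 = (1 / 2 : ℂ) • (M2 + M2ᴴ) + Complex.I • K2 := by
    rw [hK2, smul_smul]
    have : Complex.I * (-Complex.I / 2) = 1 / 2 := by
      rw [mul_div_assoc', mul_neg, Complex.I_mul_I, neg_neg]
    rw [this]
    ext i j
    simp only [Matrix.add_apply, Matrix.smul_apply, Matrix.sub_apply, smul_eq_mul]
    ring
  have hK2ss : ∀ i j, K2 (some i) (some j) = if i = j then (k i : ℂ) else 0 := by
    intro i j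
    have h1 : Wᴴ * (Matrix.of (fun i j => K0 (some i) (some j))) * W
        = diagonal (fun i => (k i : ℂ)) := by
      rw [hWspec]
      calc Wᴴ * (W * diagonal (fun i => (k i : ℂ)) * Wᴴ) * W
          = (Wᴴ * W) * diagonal (fun i => (k i : ℂ)) * (Wᴴ * W) := by
            simp only [Matrix.mul_assoc]
        _ = _ := by rw [hWW, Matrix.one_mul, Matrix.mul_one]
    have h2 := congrFun (congrFun h1 i) j
    rw [Matrix.mul_apply] at h2
    rw [hK2W, Matrix.mul_apply, Fintype.sum_option, w3, mul_zero, zero_add]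
    rw [Matrix.diagonal_apply] at h2
    rw [← h2]
    apply Finset.sum_congr rfl
    intro a _
    rw [w1, Matrix.mul_apply, Matrix.mul_apply, Fintype.sum_option]
    simp only [Matrix.conjTranspose_apply, w3, star_zero, zero_mul, zero_add, w1, Matrix.of_apply]
  have hsingle : ∀ o o' : Option (Fin m),
      (vecMulVec (Pi.single none (ρ : ℂ)) (star (Pi.single none (ρ : ℂ))) :
        Matrix (Option (Fin m)) (Option (Fin m)) ℂ) o o'
      = if o = none ∧ o' = none then ((ρ ^ 2 : ℝ) : ℂ) else 0 := by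
    intro o o'
    rw [Matrix.vecMulVec_apply, Pi.star_apply]
    rcases o with _ | i <;> rcases o' with _ | j <;> simp [sq]
  obtain ⟨c, hc⟩ : ∃ c : ℝ, K2 none none = (c : ℂ) := by
    refine ⟨(K2 none none).re, ?_⟩
    have := congrFun (congrFun hK2H none) none
    rw [Matrix.conjTranspose_apply] at this
    exact (Complex.conj_eq_iff_re.mp this).symm
  have hent : ∀ o o', M2 o o' = (1 / 2 : ℂ) * ((2 : ℂ) * ((lam : ℂ) * (1 : Matrix _ _ ℂ) o o'
      - if o = none ∧ o' = none then ((ρ ^ 2 : ℝ) : ℂ) else 0)) + Complex.I * K2 o o' := by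
    intro o o'
    have := congrFun (congrFun hM2decomp o) o'
    rw [hH2] at this
    rw [this]
    simp only [Matrix.add_apply, Matrix.smul_apply, Matrix.sub_apply, smul_eq_mul, hsingle]
  have hTM2 : MW T1 ⊆ MW M2 := by
    intro z hz
    obtain ⟨x, hx, hxz⟩ := hT1 hz
    refine ⟨Uᴴ *ᵥ x, ?_, ?_⟩
    · rw [Matrix.star_mulVec, conjTranspose_conjTranspose, ← Matrix.dotProduct_mulVec,
        Matrix.mulVec_mulVec, hUU', Matrix.one_mulVec, hx]
    · rw [← hxz, Matrix.star_mulVec, conjTranspose_conjTranspose, ← Matrix.dotProduct_mulVec,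
        Matrix.mulVec_mulVec, Matrix.mulVec_mulVec, hM2]
      congr 2
      calc U * (Uᴴ * M * U) * Uᴴ = (U * Uᴴ) * M * (U * Uᴴ) := by simp only [Matrix.mul_assoc]
        _ = M := by rw [hUU', Matrix.one_mul, Matrix.mul_one]
  refine NF_FinDil lam (ρ ^ 2) c (by positivity) k (fun i => K2 (some i) none) ⟨0, hm1⟩ M2
    ?_ ?_ ?_ ?_ T1 hTM2
  · intro i j
    rw [hent, hK2ss]
    by_cases hij : i = j
    · subst hij
      simp
    · simp [hij]
  · intro i
    rw [hent]
    simp
  · intro i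
    rw [hent]
    have := congrFun (congrFun hK2H none) (some i)
    rw [Matrix.conjTranspose_apply] at this
    rw [← this]
    simp
  · rw [hent, hc]
    simp

end Pool.Agent.Helper774
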