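import Mathlib
import Pool.Agent.Helper774.RankOne
import Pool.Agent.Helper774.Geometry
open Matrix
open scoped ComplexOrder InnerProductSpace
open Filter Topology

namespace Pool.Agent.Helper774

/-- Every matrix whose numerical range lies in that of `A` dilates to a multiple of `A`. -/
def FinPropD {ι : Type*} [Fintype ι] (A : Matrix ι ι ℂ) : Prop :=
  ∀ (n : ℕ) (T' : Matrix (Fin n) (Fin n) ℂ), MW T' ⊆ MW A → FinDil A T'

theorem FinPropD.transfer {ι ι' : Type*} [Fintype ι] [Fintype ι'] [DecidableEq ι']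
    {A : Matrix ι ι ℂ} (V : Matrix ι ι' ℂ) (hV : Vᴴ * V = 1)
    (hsub : MW A ⊆ MW (Vᴴ * A * V)) (h : FinPropD (Vᴴ * A * V)) : FinPropD A := by
  intro n T' hT'
  exact FinDil.transfer V hV (h n T' (hT'.trans hsub))

theorem FinPropD.of_smul {ι : Type*} [Fintype ι] {A : Matrix ι ι ℂ} (u : ℂ) (hu : u ≠ 0)
    (h : FinPropD (u • A)) : FinPropD A := by
  intro n T' hT'
  exact FinDil.of_smul u hu (h n (u • T') (MW_smul_subset u hT'))

theorem MW_subset_unitary {ι ι' : Type*} [Fintype ι] [Fintype ι'] [DecidableEq ι]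
    (A : Matrix ι ι ℂ) (V : Matrix ι ι' ℂ) (hV : V * Vᴴ = 1) : MW A ⊆ MW (Vᴴ * A * V) := by
  rintro z ⟨x, hx, rfl⟩
  refine ⟨Vᴴ *ᵥ x, ?_, ?_⟩
  · rw [Matrix.star_mulVec, conjTranspose_conjTranspose, ← Matrix.dotProduct_mulVec,
      Matrix.mulVec_mulVec, hV, Matrix.one_mulVec, hx]
  · rw [Matrix.star_mulVec, conjTranspose_conjTranspose, ← Matrix.dotProduct_mulVec,
      Matrix.mulVec_mulVec, Matrix.mulVec_mulVec]
    congr 2
    calc V * (Vᴴ * A * V) * Vᴴ = (V * Vᴴ) * A * (V * Vᴴ) := by simp only [Matrix.mul_assoc]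
      _ = A := by rw [hV, Matrix.one_mul, Matrix.mul_one]

theorem MW_compress_subset {ι ι' : Type*} [Fintype ι] [Fintype ι'] [DecidableEq ι']
    (A : Matrix ι ι ℂ) (V : Matrix ι ι' ℂ) (hV : Vᴴ * V = 1) : MW (Vᴴ * A * V) ⊆ MW A := by
  rintro z ⟨x, hx, rfl⟩
  refine ⟨V *ᵥ x, ?_, ?_⟩
  · rw [Matrix.star_mulVec, ← Matrix.dotProduct_mulVec, Matrix.mulVec_mulVec, hV,
      Matrix.one_mulVec, hx]
  · rw [Matrix.star_mulVec, ← Matrix.dotProduct_mulVec, Matrix.mulVec_mulVec,
      Matrix.mulVec_mulVec]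

theorem eq_zero_of_quad {ι : Type*} [Fintype ι] [DecidableEq ι] (N : Matrix ι ι ℂ)
    (h : ∀ x : ι → ℂ, star x ⬝ᵥ (N *ᵥ x) = 0) : N = 0 := by
  have h1 : (Matrix.toEuclideanLin N : EuclideanSpace ℂ ι →ₗ[ℂ] EuclideanSpace ℂ ι) = 0 := by
    rw [← inner_map_self_eq_zero]
    intro x
    rw [EuclideanSpace.inner_eq_star_dotProduct]
    have h2 := h x.ofLp
    have h3 : star (star x.ofLp ⬝ᵥ (N *ᵥ x.ofLp)) = 0 := by rw [h2, star_zero]
    rw [← Matrix.star_dotProduct_star, star_star] at h3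
    rw [Matrix.ofLp_toLpLin]
    rw [dotProduct_comm]
    simpa using h3
  exact (LinearEquiv.map_eq_zero_iff _).mp h1

theorem quad_scale {ι : Type*} [Fintype ι] (A : Matrix ι ι ℂ) (a : ℂ)
    (h : ∀ z ∈ MW A, z = a) (x : ι → ℂ) : star x ⬝ᵥ (A *ᵥ x) = a * (star x ⬝ᵥ x) := by
  by_cases hx : x = 0
  · simp [hx]
  · have h1 := h _ (mem_MW_of_ne_zero A x hx)
    have hne : star x ⬝ᵥ x ≠ 0 := by
      intro h0
      exact hx (dot_self_re_eq_zero (by rw [h0]; simp))
    rw [div_eq_iff hne] at h1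
    exact h1

theorem eq_smul_one_of_MW {ι : Type*} [Fintype ι] [DecidableEq ι] (A : Matrix ι ι ℂ) (a : ℂ)
    (h : ∀ z ∈ MW A, z = a) : A = a • 1 := by
  have h1 : A - a • 1 = 0 := by
    apply eq_zero_of_quad
    intro x
    rw [Matrix.sub_mulVec, Matrix.smul_mulVec, Matrix.one_mulVec, dotProduct_sub,
      dotProduct_smul, quad_scale A a h, smul_eq_mul, sub_self]
  exact sub_eq_zero.mp h1

theorem finPropD_scalar {ι : Type*} [Fintype ι] [DecidableEq ι] [Nonempty ι] (a : ℂ) :
    FinPropD (a • (1 : Matrix ι ι ℂ)) := by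
  intro n T hT
  have hTa : T = a • 1 := by
    apply eq_smul_one_of_MW
    intro z hz
    obtain ⟨x, hx, hxz⟩ := hT hz
    rw [← hxz, Matrix.smul_mulVec, Matrix.one_mulVec, dotProduct_smul, hx, smul_eq_mul, mul_one]
  obtain ⟨i0⟩ := (inferInstance : Nonempty ι)
  refine ⟨n, fun p i b => if i = i0 ∧ p = b then 1 else 0, ?_, ?_⟩
  · intro c d
    rw [Finset.sum_eq_single c]
    · rw [Finset.sum_eq_single i0]
      · simp
      · intro i _ hi
        simp [hi]
      · simp
    · intro p _ hp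
      apply Finset.sum_eq_zero
      intro i _
      simp [hp]
    · simp
  · intro c d
    rw [hTa]
    rw [Finset.sum_eq_single c]
    · rw [Finset.sum_eq_single i0]
      · rw [Finset.sum_eq_single i0]
        · by_cases hcd : c = d
          · subst hcd; simp
          · simp [hcd]
        · intro i _ hi
          simp [hi]
        · simp
      · intro i _ hi
        apply Finset.sum_eq_zero
        intro j _
        simp [hi]
      · simp
    · intro p _ hp
      apply Finset.sum_eq_zero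
      intro i _
      apply Finset.sum_eq_zero
      intro j _
      simp [hp]
    · simp

theorem diag_single_rankOne {ι : Type*} [Fintype ι] [DecidableEq ι] (W : Matrix ι ι ℂ)
    (e : ι → ℝ) (i : ι) (hi : 0 ≤ e i) (h0 : ∀ j, j ≠ i → e j = 0) :
    W * diagonal (fun j => (e j : ℂ)) * Wᴴ
      = vecMulVec (fun a => ((Real.sqrt (e i) : ℝ) : ℂ) * W a i)
          (star (fun a => ((Real.sqrt (e i) : ℝ) : ℂ) * W a i)) := by
  ext a b
  rw [Matrix.mul_apply, Finset.sum_eq_single i]
  · rw [Matrix.mul_diagonal, Matrix.conjTranspose_apply, Matrix.vecMulVec_apply, Pi.star_apply,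
      star_mul', Complex.star_def, Complex.conj_ofReal]
    have h1 : (e i : ℂ) = ((Real.sqrt (e i) : ℝ) : ℂ) * ((Real.sqrt (e i) : ℝ) : ℂ) := by
      rw [← Complex.ofReal_mul, Real.mul_self_sqrt hi]
    rw [h1]
    change W a i * (((Real.sqrt (e i) : ℝ) : ℂ) * ((Real.sqrt (e i) : ℝ) : ℂ))
      * (starRingEnd ℂ) (W b i) = ((Real.sqrt (e i) : ℝ) : ℂ) * W a i *
        (((Real.sqrt (e i) : ℝ) : ℂ) * (starRingEnd ℂ) (W b i))
    ring
  · intro j _ hj
    rw [Matrix.mul_diagonal, h0 j hj]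
    simp
  · simp

theorem quad_spectral {ι : Type*} [Fintype ι] [DecidableEq ι] (W : Matrix ι ι ℂ) (e : ι → ℝ)
    (x : ι → ℂ) :
    star x ⬝ᵥ ((W * diagonal (fun j => (e j : ℂ)) * Wᴴ) *ᵥ x)
      = ((∑ j, e j * ‖(Wᴴ *ᵥ x) j‖ ^ 2 : ℝ) : ℂ) := by
  have := quad_diag (Wᴴ) e x
  rw [conjTranspose_conjTranspose] at this
  exact this

/-- every 2 by 2 matrix has the (finite) property (D) -/
theorem finPropD_two (B : Matrix (Fin 2) (Fin 2) ℂ) : FinPropD B := by
  by_cases hsc : ∃ a : ℂ, B = a • 1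
  · obtain ⟨a, rfl⟩ := hsc
    exact finPropD_scalar a
  have key : ∀ u : ℂ, u ≠ 0 → (¬ ∃ s : ℝ, (1 / 2 : ℂ) • (u • B + (u • B)ᴴ) = (s : ℂ) • 1) →
      FinPropD B := by
    intro u hu hns
    have hH : ((1 / 2 : ℂ) • (u • B + (u • B)ᴴ)).IsHermitian := by
      unfold Matrix.IsHermitian
      rw [conjTranspose_smul, conjTranspose_add, conjTranspose_conjTranspose, add_comm]
      simp
    obtain ⟨W, d, hWW, hWW', hspec⟩ := exists_spectral _ hH
    have hdne : d 0 ≠ d 1 := by
      intro hd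
      apply hns
      refine ⟨d 0, ?_⟩
      rw [hspec]
      have : diagonal (fun i => (d i : ℂ)) = (d 0 : ℂ) • (1 : Matrix (Fin 2) (Fin 2) ℂ) := by
        ext i j
        fin_cases i <;> fin_cases j <;> simp [hd]
      rw [this, Matrix.mul_smul, Matrix.smul_mul, Matrix.mul_one, hWW']
    obtain ⟨i, lam, hi0, hj0⟩ : ∃ (i : Fin 2) (lam : ℝ), 0 < lam - d i ∧
        ∀ j, j ≠ i → lam - d j = 0 := by
      rcases lt_or_gt_of_ne hdne with h | h
      · refine ⟨0, d 1, by linarith, ?_⟩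
        intro j hj
        fin_cases j
        · exact absurd rfl hj
        · simp
      · refine ⟨1, d 0, by linarith, ?_⟩
        intro j hj
        fin_cases j
        · simp
        · exact absurd rfl hj
    have h2 : (lam : ℂ) • (1 : Matrix (Fin 2) (Fin 2) ℂ) - (1 / 2 : ℂ) • (u • B + (u • B)ᴴ)
        = W * diagonal (fun j => ((lam - d j : ℝ) : ℂ)) * Wᴴ := by
      have : diagonal (fun j => ((lam - d j : ℝ) : ℂ))
          = (lam : ℂ) • (1 : Matrix (Fin 2) (Fin 2) ℂ) - diagonal (fun j => (d j : ℂ)) := by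
        ext a b
        by_cases hab : a = b
        · subst hab; simp
        · simp [hab]
      rw [this, Matrix.mul_sub, Matrix.sub_mul, Matrix.mul_smul, Matrix.smul_mul, Matrix.mul_one,
        hWW', ← hspec]
    rw [diag_single_rankOne W (fun j => lam - d j) i hi0.le hj0] at h2
    intro n T hT
    apply rankOne_FinDil B u hu lam _ _ (by simp) _ T hT
    · exact fun a => ((Real.sqrt (lam - d i) : ℝ) : ℂ) * W a i
    · intro h0
      have h3 : ∀ a, W a i = 0 := by
        intro a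
        have := congrFun h0 a
        simp only [Pi.zero_apply, mul_eq_zero, Complex.ofReal_eq_zero] at this
        rcases this with h | h
        · exact absurd h (Real.sqrt_pos.mpr hi0).ne'
        · exact h
      have h4 := congrFun (congrFun hWW i) i
      rw [Matrix.mul_apply, Matrix.one_apply_eq] at h4
      simp [h3] at h4
    · rw [← h2, sub_sub_cancel, smul_smul]
      norm_num
  by_cases h1 : ∃ s : ℝ, (1 / 2 : ℂ) • ((1 : ℂ) • B + ((1 : ℂ) • B)ᴴ) = (s : ℂ) • 1
  · by_cases h2 : ∃ s : ℝ, (1 / 2 : ℂ) • ((-Complex.I) • B + ((-Complex.I) • B)ᴴ) = (s : ℂ) • 1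
    · exfalso
      obtain ⟨s, hs⟩ := h1
      obtain ⟨t, ht⟩ := h2
      apply hsc
      refine ⟨(s : ℂ) + Complex.I * (t : ℂ), ?_⟩
      rw [add_smul, ← smul_smul, ← hs, ← ht]
      rw [conjTranspose_smul, conjTranspose_smul]
      simp only [star_neg, Complex.star_def, Complex.conj_I, neg_neg, map_one, one_smul,
        smul_add, smul_smul]
      have e1 : Complex.I * (1 / 2 * -Complex.I) = 1 / 2 := by
        have := Complex.I_mul_I
        linear_combination (-1 / 2 : ℂ) * this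
      have e2 : Complex.I * (1 / 2 * Complex.I) = -(1 / 2) := by
        have := Complex.I_mul_I
        linear_combination (1 / 2 : ℂ) * this
      rw [e1, e2]
      ext i j
      simp only [Matrix.add_apply, Matrix.smul_apply, smul_eq_mul]
      ring
    · exact key (-Complex.I) (neg_ne_zero.mpr Complex.I_ne_zero) h2
  · exact key 1 one_ne_zero h1

end Pool.Agent.Helper774
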