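import Mathlib
import Pool.Agent.Helper774.PosCases
open Matrix
open scoped ComplexOrder InnerProductSpace
open Filter Topology

namespace Pool.Agent.Helper774

theorem quad_herm_part {ι : Type*} [Fintype ι] (M : Matrix ι ι ℂ) (x : ι → ℂ) :
    star x ⬝ᵥ (((1 / 2 : ℂ) • (M + Mᴴ)) *ᵥ x) = (((star x ⬝ᵥ (M *ᵥ x)).re : ℝ) : ℂ) := by
  rw [Matrix.smul_mulVec, Matrix.add_mulVec, dotProduct_smul, dotProduct_add,
    quad_conjTranspose, Complex.add_conj]
  simp

theorem herm_part_isHermitian {ι : Type*} [Fintype ι] (M : Matrix ι ι ℂ) :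
    ((1 / 2 : ℂ) • (M + Mᴴ)).IsHermitian := by
  unfold Matrix.IsHermitian
  rw [conjTranspose_smul, conjTranspose_add, conjTranspose_conjTranspose, add_comm]
  simp

theorem re_quad_le_of_MW {ι : Type*} [Fintype ι] (M : Matrix ι ι ℂ) (lam : ℝ)
    (h : ∀ z ∈ MW M, z.re ≤ lam) (x : ι → ℂ) :
    (star x ⬝ᵥ (M *ᵥ x)).re ≤ lam * (star x ⬝ᵥ x).re := by
  by_cases hx : x = 0
  · simp [hx]
  · have h1 := h _ (mem_MW_of_ne_zero M x hx)
    have hpos : 0 < (star x ⬝ᵥ x).re := by
      rcases (dot_self_re_nonneg x).lt_or_eq with h | h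
      · exact h
      · exact absurd (dot_self_re_eq_zero h.symm) hx
    have hxx : star x ⬝ᵥ x = (((star x ⬝ᵥ x).re : ℝ) : ℂ) := by
      apply Complex.ext
      · simp
      · simp [dot_self_im]
    rw [hxx, Complex.div_ofReal_re, div_le_iff₀ hpos] at h1
    exact h1

theorem fin3_third : ∀ i j : Fin 3, i ≠ j → ∃ k : Fin 3, ∀ l, l = i ∨ l = j ∨ l = k := by
  decide

/-- 3 by 3 matrices with a flat portion on the boundary of the numerical range. -/
theorem finPropD_flat (A : Matrix (Fin 3) (Fin 3) ℂ) (u : ℂ) (hu : u ≠ 0) (z w : ℂ)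
    (hz : z ∈ MW A) (hw : w ∈ MW A) (hzw : z ≠ w) (heq : (u * z).re = (u * w).re)
    (hmax : ∀ y ∈ MW A, (u * y).re ≤ (u * z).re) : FinPropD A := by
  set lam : ℝ := (u * z).re with hlam
  set M : Matrix (Fin 3) (Fin 3) ℂ := u • A with hM
  have hMq : ∀ x, star x ⬝ᵥ (M *ᵥ x) = u * (star x ⬝ᵥ (A *ᵥ x)) := by
    intro x
    rw [hM, Matrix.smul_mulVec, dotProduct_smul, smul_eq_mul]
  have hMmax : ∀ y ∈ MW M, y.re ≤ lam := by
    rintro y ⟨x, hx, rfl⟩
    rw [hMq]
    exact hmax _ ⟨x, hx, rfl⟩
  obtain ⟨xz, hxz, hxz'⟩ := hz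
  obtain ⟨xw, hxw, hxw'⟩ := hw
  have hNH : ((lam : ℂ) • (1 : Matrix (Fin 3) (Fin 3) ℂ) - (1 / 2 : ℂ) • (M + Mᴴ)).IsHermitian := by
    apply Matrix.IsHermitian.sub _ (herm_part_isHermitian M)
    unfold Matrix.IsHermitian
    rw [conjTranspose_smul, conjTranspose_one]
    simp
  obtain ⟨N, hN⟩ : ∃ N : Matrix (Fin 3) (Fin 3) ℂ,
    N = (lam : ℂ) • (1 : Matrix (Fin 3) (Fin 3) ℂ) - (1 / 2 : ℂ) • (M + Mᴴ) := ⟨_, rfl⟩
  rw [← hN] at hNH
  have hNq : ∀ x, star x ⬝ᵥ (N *ᵥ x)
      = ((lam * (star x ⬝ᵥ x).re - (star x ⬝ᵥ (M *ᵥ x)).re : ℝ) : ℂ) := by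
    intro x
    rw [hN, Matrix.sub_mulVec, dotProduct_sub, quad_herm_part, Matrix.smul_mulVec,
      Matrix.one_mulVec, dotProduct_smul, smul_eq_mul]
    push_cast
    congr 2
    apply Complex.ext
    · simp
    · simp [dot_self_im]
  obtain ⟨W, e, hWW, hWW', hspec⟩ := exists_spectral N hNH
  have hNe : ∀ x, ∑ j, e j * ‖(Wᴴ *ᵥ x) j‖ ^ 2
      = lam * (star x ⬝ᵥ x).re - (star x ⬝ᵥ (M *ᵥ x)).re := by
    intro x
    have h1 := hNq x
    rw [hspec, quad_spectral] at h1
    exact Complex.ofReal_inj.mp h1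
  have he0 : ∀ i, 0 ≤ e i := by
    intro i
    have h1 := hNe (W *ᵥ Pi.single i 1)
    have h2 : Wᴴ *ᵥ (W *ᵥ Pi.single i 1) = Pi.single i (1 : ℂ) := by
      rw [Matrix.mulVec_mulVec, hWW, Matrix.one_mulVec]
    rw [h2] at h1
    have h3 : ∑ j, e j * ‖(Pi.single i (1 : ℂ) : Fin 3 → ℂ) j‖ ^ 2 = e i := by
      rw [Finset.sum_eq_single i]
      · simp
      · intro j _ hj
        simp [hj]
      · simp
    rw [h3] at h1
    rw [h1]
    have := re_quad_le_of_MW M lam hMmax (W *ᵥ Pi.single i 1)
    linarith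
  have hker : ∀ x, star x ⬝ᵥ x = 1 → (u * (star x ⬝ᵥ (A *ᵥ x))).re = lam →
      ∀ j, e j ≠ 0 → (Wᴴ *ᵥ x) j = 0 := by
    intro x hx hx2 j hj
    have h1 := hNe x
    rw [hx, hMq, hx2, Complex.one_re, mul_one, sub_self] at h1
    have h2 := (Finset.sum_eq_zero_iff_of_nonneg (fun i _ => mul_nonneg (he0 i)
      (by positivity))).mp h1 j (Finset.mem_univ j)
    rcases mul_eq_zero.mp h2 with h3 | h3
    · exact absurd h3 hj
    · simpa using h3
  have hkz := hker xz hxz (by rw [hxz'])
  have hkw := hker xw hxw (by rw [hxw', ← heq])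
  have hback : ∀ x : Fin 3 → ℂ, x = W *ᵥ (Wᴴ *ᵥ x) := by
    intro x
    rw [Matrix.mulVec_mulVec, hWW', Matrix.one_mulVec]
  have hunit : ∀ x : Fin 3 → ℂ, star (Wᴴ *ᵥ x) ⬝ᵥ (Wᴴ *ᵥ x) = star x ⬝ᵥ x := by
    intro x
    rw [Matrix.star_mulVec, conjTranspose_conjTranspose, ← Matrix.dotProduct_mulVec,
      Matrix.mulVec_mulVec, hWW', Matrix.one_mulVec]
  -- at most one nonzero eigenvalue
  have honly : ∀ i j, e i ≠ 0 → e j ≠ 0 → i = j := by
    intro i j hi hj
    by_contra hij
    obtain ⟨k, hk⟩ := fin3_third i j hij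
    have hform : ∀ x : Fin 3 → ℂ, (∀ l, e l ≠ 0 → (Wᴴ *ᵥ x) l = 0) →
        ∀ l, l ≠ k → (Wᴴ *ᵥ x) l = 0 := by
      intro x hx l hl
      rcases hk l with h | h | h
      · exact hx l (h ▸ hi)
      · exact hx l (h ▸ hj)
      · exact absurd h hl
    have hz1 := hform xz hkz
    have hw1 := hform xw hkw
    have hval : ∀ x : Fin 3 → ℂ, (∀ l, l ≠ k → (Wᴴ *ᵥ x) l = 0) →
        Wᴴ *ᵥ x = Pi.single k ((Wᴴ *ᵥ x) k) := by
      intro x hx
      ext l
      by_cases hl : l = k
      · subst hl; simp
      · rw [hx l hl]; simp [hl]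
    have hn : ∀ x : Fin 3 → ℂ, star x ⬝ᵥ x = 1 → (∀ l, l ≠ k → (Wᴴ *ᵥ x) l = 0) →
        starRingEnd ℂ ((Wᴴ *ᵥ x) k) * (Wᴴ *ᵥ x) k = 1 := by
      intro x hx hx'
      have h1 := hunit x
      rw [hx] at h1
      rw [← h1, dotProduct, Finset.sum_eq_single k]
      · rfl
      · intro l _ hl
        rw [hx' l hl, mul_zero]
      · simp
    have hq : ∀ x : Fin 3 → ℂ, star x ⬝ᵥ x = 1 → (∀ l, l ≠ k → (Wᴴ *ᵥ x) l = 0) →
        star x ⬝ᵥ (A *ᵥ x) = star (W *ᵥ Pi.single k 1) ⬝ᵥ (A *ᵥ (W *ᵥ Pi.single k 1)) := by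
      intro x hx hx'
      have h1 : x = ((Wᴴ *ᵥ x) k) • (W *ᵥ Pi.single k 1) := by
        conv_lhs => rw [hback x, hval x hx']
        rw [← Matrix.mulVec_smul]
        congr 1
        ext l
        by_cases hl : l = k
        · subst hl; simp
        · simp [hl]
      set c := (Wᴴ *ᵥ x) k with hc
      have hcc : starRingEnd ℂ c * c = 1 := hn x hx hx'
      rw [h1, star_smul, Matrix.mulVec_smul, smul_dotProduct, dotProduct_smul, smul_eq_mul,
        smul_eq_mul, ← mul_assoc, Complex.star_def, hcc, one_mul]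
    apply hzw
    rw [← hxz', ← hxw', hq xz hxz hz1, hq xw hxw hw1]
  by_cases hall : ∀ i, e i = 0
  · -- essentially hermitian case
    have hN0 : N = 0 := by
      rw [hspec]
      have : diagonal (fun i => (e i : ℂ)) = 0 := by
        ext a b
        by_cases hab : a = b
        · subst hab; simp [hall]
        · simp [hab]
      rw [this, Matrix.mul_zero, Matrix.zero_mul]
    have hHM : (1 / 2 : ℂ) • (M + Mᴴ) = (lam : ℂ) • 1 := by
      rw [hN] at hN0
      exact (sub_eq_zero.mp hN0).symm
    obtain ⟨K, hK⟩ : ∃ K : Matrix (Fin 3) (Fin 3) ℂ,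
      K = (-(Complex.I) / 2 : ℂ) • (M - Mᴴ) := ⟨_, rfl⟩
    have hKH : Kᴴ = K := by
      rw [hK, conjTranspose_smul, conjTranspose_sub, conjTranspose_conjTranspose]
      have : star (-(Complex.I) / 2 : ℂ) = -(-(Complex.I) / 2) := by
        simp
        ring
      rw [this, neg_smul, ← smul_neg, neg_sub]
    have hMK : M = (lam : ℂ) • 1 + Complex.I • K := by
      rw [← hHM, hK, smul_smul]
      have : Complex.I * (-Complex.I / 2) = 1 / 2 := by
        rw [mul_div_assoc', mul_neg, Complex.I_mul_I, neg_neg]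
      rw [this]
      ext i j
      simp only [Matrix.add_apply, Matrix.smul_apply, Matrix.sub_apply, smul_eq_mul]
      ring
    obtain ⟨W2, k, hW2, hW2', hspec2⟩ := exists_spectral K hKH
    obtain ⟨i0, _, hi0⟩ := Finset.exists_min_image Finset.univ k ⟨0, Finset.mem_univ _⟩
    obtain ⟨i1, _, hi1⟩ := Finset.exists_max_image Finset.univ k ⟨0, Finset.mem_univ _⟩
    have hMx : ∀ x, star x ⬝ᵥ (M *ᵥ x) = (lam : ℂ) * (star x ⬝ᵥ x)
        + Complex.I * ((∑ j, k j * ‖(W2ᴴ *ᵥ x) j‖ ^ 2 : ℝ) : ℂ) := by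
      intro x
      conv_lhs => rw [hMK, hspec2]
      rw [Matrix.add_mulVec, Matrix.smul_mulVec, Matrix.smul_mulVec, Matrix.one_mulVec,
        dotProduct_add, dotProduct_smul, dotProduct_smul, quad_spectral, smul_eq_mul,
        smul_eq_mul]
    have hunit2 : ∀ x : Fin 3 → ℂ, star x ⬝ᵥ x = 1 → ∑ j, ‖(W2ᴴ *ᵥ x) j‖ ^ 2 = 1 := by
      intro x hx
      have h1 : star (W2ᴴ *ᵥ x) ⬝ᵥ (W2ᴴ *ᵥ x) = 1 := by
        rw [Matrix.star_mulVec, conjTranspose_conjTranspose, ← Matrix.dotProduct_mulVec,
          Matrix.mulVec_mulVec, hW2', Matrix.one_mulVec, hx]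
      rw [dot_self_eq] at h1
      exact_mod_cast h1
    have hk01 : k i0 < k i1 := by
      by_contra hcon
      rw [not_lt] at hcon
      have hconst : ∀ j, k j = k i0 := fun j =>
        le_antisymm ((hi1 j (Finset.mem_univ j)).trans hcon) (hi0 j (Finset.mem_univ j))
      have h1 : ∀ x, star x ⬝ᵥ x = 1 → star x ⬝ᵥ (M *ᵥ x)
          = (lam : ℂ) + Complex.I * (k i0 : ℂ) := by
        intro x hx
        rw [hMx, hx, mul_one]
        congr 3
        rw [Finset.sum_congr rfl (fun j _ => by rw [hconst j]), ← Finset.mul_sum, hunit2 x hx,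
          mul_one]
      apply hzw
      have h2 : u * z = u * w := by
        rw [← hxz', ← hxw', ← hMq, ← hMq, h1 xz hxz, h1 xw hxw]
      exact mul_left_cancel₀ hu h2
    have hi01 : i0 ≠ i1 := fun h => by rw [h] at hk01; exact lt_irrefl _ hk01
    obtain ⟨V, hVdef⟩ : ∃ V : Matrix (Fin 3) (Fin 2) ℂ,
      V = Matrix.of (fun a j => if j = 0 then W2 a i0 else W2 a i1) := ⟨_, rfl⟩
    have hV0 : ∀ a, V a 0 = W2 a i0 := fun a => by rw [hVdef]; rfl
    have hV1 : ∀ a, V a 1 = W2 a i1 := fun a => by rw [hVdef]; rfl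
    have hcol : ∀ p q, ∑ a, star (W2 a p) * W2 a q = if p = q then 1 else 0 := by
      intro p q
      have := congrFun (congrFun hW2 p) q
      rw [Matrix.mul_apply, Matrix.one_apply] at this
      exact this
    have hVV : Vᴴ * V = 1 := by
      ext p q
      rw [Matrix.mul_apply, Matrix.one_apply]
      simp only [Matrix.conjTranspose_apply]
      fin_cases p <;> fin_cases q
      · have := hcol i0 i0
        rw [if_pos rfl] at this
        simpa [hV0] using this
      · have := hcol i0 i1
        rw [if_neg hi01] at this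
        simpa [hV0, hV1] using this
      · have := hcol i1 i0
        rw [if_neg hi01.symm] at this
        simpa [hV0, hV1] using this
      · have := hcol i1 i1
        rw [if_pos rfl] at this
        simpa [hV1] using this
    have hcols : ∀ p : Fin 2, V *ᵥ Pi.single p 1 = fun a => V a p := by
      intro p
      ext a
      simp [Matrix.mulVec_single]
    have hend : ∀ p : Fin 3, (∃ q : Fin 2, (fun a => V a q) = fun a => W2 a p) →
        ((lam : ℂ) + Complex.I * (k p : ℂ)) ∈ MW (Vᴴ * M * V) := by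
      rintro p ⟨q, hq⟩
      refine ⟨Pi.single q 1, ?_, ?_⟩
      · rw [dotProduct, Finset.sum_eq_single q]
        · simp
        · intro j _ hj
          simp [hj]
        · simp
      · have h1 : star (Pi.single q (1 : ℂ)) ⬝ᵥ ((Vᴴ * M * V) *ᵥ Pi.single q 1)
            = star (V *ᵥ Pi.single q 1) ⬝ᵥ (M *ᵥ (V *ᵥ Pi.single q 1)) := by
          rw [Matrix.star_mulVec, ← Matrix.dotProduct_mulVec, Matrix.mulVec_mulVec,
            Matrix.mulVec_mulVec]
        rw [h1, hcols, hq, hMx]
        have h2 : W2ᴴ *ᵥ (fun a => W2 a p) = Pi.single p 1 := by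
          ext l
          rw [Matrix.mulVec, dotProduct]
          simp only [Matrix.conjTranspose_apply]
          rw [hcol]
          by_cases hl : l = p
          · subst hl; simp
          · simp [hl]
        have h3 : star (fun a => W2 a p) ⬝ᵥ (fun a => W2 a p) = 1 := by
          rw [dotProduct]
          simp only [Pi.star_apply]
          rw [hcol, if_pos rfl]
        rw [h2, h3, mul_one]
        congr 3
        rw [Finset.sum_eq_single p]
        · simp
        · intro j _ hj
          simp [hj]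
        · simp
    have hsub : MW M ⊆ MW (Vᴴ * M * V) := by
      rintro y ⟨x, hx, rfl⟩
      rw [hMx, hx, mul_one]
      have hsum := hunit2 x hx
      set t := ∑ j, k j * ‖(W2ᴴ *ᵥ x) j‖ ^ 2 with ht
      have ht0 : k i0 ≤ t := by
        calc k i0 = k i0 * ∑ j, ‖(W2ᴴ *ᵥ x) j‖ ^ 2 := by rw [hsum, mul_one]
          _ ≤ t := by
            rw [ht, Finset.mul_sum]
            apply Finset.sum_le_sum
            intro j _
            exact mul_le_mul_of_nonneg_right (hi0 j (Finset.mem_univ j)) (by positivity)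
      have ht1 : t ≤ k i1 := by
        calc t ≤ k i1 * ∑ j, ‖(W2ᴴ *ᵥ x) j‖ ^ 2 := by
              rw [ht, Finset.mul_sum]
              apply Finset.sum_le_sum
              intro j _
              exact mul_le_mul_of_nonneg_right (hi1 j (Finset.mem_univ j)) (by positivity)
          _ = k i1 := by rw [hsum, mul_one]
      have hm0 := hend i0 ⟨0, by ext a; rw [hV0]⟩
      have hm1 := hend i1 ⟨1, by ext a; rw [hV1]⟩
      have hconv := MW_convex (Vᴴ * M * V) hm0 hm1
        (a := (k i1 - t) / (k i1 - k i0)) (b := (t - k i0) / (k i1 - k i0))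
        (div_nonneg (by linarith) (by linarith)) (div_nonneg (by linarith) (by linarith))
        (by
          have : k i1 - k i0 ≠ 0 := by linarith
          field_simp
          ring)
      convert hconv using 1
      rw [Complex.real_smul, Complex.real_smul]
      have hne : ((k i1 : ℂ) - (k i0 : ℂ)) ≠ 0 := by
        rw [← Complex.ofReal_sub]
        exact_mod_cast (by linarith : k i1 - k i0 ≠ 0)
      push_cast
      field_simp
      ring
    apply FinPropD.of_smul u hu
    exact FinPropD.transfer V hVV hsub (finPropD_two _)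
  · -- rank one case
    push Not at hall
    obtain ⟨i, hi⟩ := hall
    have hipos : 0 < e i := lt_of_le_of_ne (he0 i) (Ne.symm hi)
    have hj0 : ∀ j, j ≠ i → e j = 0 := by
      intro j hj
      by_contra hcon
      exact hj (honly j i hcon hi)
    have h2 := diag_single_rankOne W e i hipos.le hj0
    rw [← hspec] at h2
    intro n T hT
    apply rankOne_FinDil A u hu lam _ _ (by simp) _ T hT
    · exact fun a => ((Real.sqrt (e i) : ℝ) : ℂ) * W a i
    · intro h0
      have h3 : ∀ a, W a i = 0 := by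
        intro a
        have := congrFun h0 a
        simp only [Pi.zero_apply, mul_eq_zero, Complex.ofReal_eq_zero] at this
        rcases this with h | h
        · exact absurd h (Real.sqrt_pos.mpr hipos).ne'
        · exact h
      have h4 := congrFun (congrFun hWW i) i
      rw [Matrix.mul_apply, Matrix.one_apply_eq] at h4
      simp [h3] at h4
    · rw [← h2, hN, sub_sub_cancel, smul_smul, show (2 : ℂ) * (1 / 2) = 1 by norm_num, one_smul]

/-- 3 by 3 matrices with a reducing eigenvector. -/
theorem finPropD_reducible (A : Matrix (Fin 3) (Fin 3) ℂ) (x : Fin 3 → ℂ) (hx : x ≠ 0)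
    (a a' : ℂ) (h1 : A *ᵥ x = a • x) (h2 : Aᴴ *ᵥ x = a' • x) : FinPropD A := by
  obtain ⟨V, ρ, hρ, hVV, hVV', hVx⟩ := exists_unitary_col x hx 2 (by simp)
  have hρ' : (ρ : ℂ) ≠ 0 := by exact_mod_cast hρ.ne'
  obtain ⟨M, hM⟩ : ∃ M : Matrix (Option (Fin 2)) (Option (Fin 2)) ℂ, M = Vᴴ * A * V := ⟨_, rfl⟩
  have hVs : V *ᵥ Pi.single none (ρ : ℂ) = x := by
    rw [← hVx, Matrix.mulVec_mulVec, hVV', Matrix.one_mulVec]
  have hMe : M *ᵥ Pi.single none (ρ : ℂ) = a • Pi.single none (ρ : ℂ) := by
    rw [hM, ← Matrix.mulVec_mulVec, hVs, ← Matrix.mulVec_mulVec, h1, Matrix.mulVec_smul, hVx]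
  have hMHe : Mᴴ *ᵥ Pi.single none (ρ : ℂ) = a' • Pi.single none (ρ : ℂ) := by
    rw [hM, conjTranspose_mul, conjTranspose_mul, conjTranspose_conjTranspose,
      ← Matrix.mulVec_mulVec, ← Matrix.mulVec_mulVec, hVs, h2, Matrix.mulVec_smul, hVx]
  have m1 : M none none = a := by
    have := congrFun hMe none
    simp [Matrix.mulVec_single] at this
    rcases this with h | h
    · exact h
    · exact absurd h hρ.ne'
  have m2 : ∀ i, M (some i) none = 0 := by
    intro i
    have := congrFun hMe (some i)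
    simp [Matrix.mulVec_single] at this
    rcases this with h | h
    · exact h
    · exact absurd h hρ.ne'
  have m3 : ∀ i, M none (some i) = 0 := by
    intro i
    have := congrFun hMHe (some i)
    simp [Matrix.mulVec_single, Matrix.conjTranspose_apply] at this
    rcases this with h | h
    · exact h
    · exact absurd h hρ.ne'
  obtain ⟨A0, hA0⟩ : ∃ A0 : Matrix (Fin 2) (Fin 2) ℂ,
    A0 = Matrix.of (fun i j => M (some i) (some j)) := ⟨_, rfl⟩
  obtain ⟨V0, hV0⟩ : ∃ V0 : Matrix (Option (Fin 2)) (Fin 2) ℂ,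
    V0 = Matrix.of (fun o j => if o = some j then 1 else 0) := ⟨_, rfl⟩
  have hV0V0 : V0ᴴ * V0 = 1 := by
    ext i j
    rw [Matrix.mul_apply, Fintype.sum_option]
    simp only [hV0, Matrix.conjTranspose_apply, Matrix.of_apply]
    rw [Finset.sum_eq_single i]
    · simp [Matrix.one_apply]
    · intro b _ hb
      simp [hb]
    · simp
  have hV0M : V0ᴴ * M * V0 = A0 := by
    ext i j
    rw [Matrix.mul_apply, Fintype.sum_option]
    have e1 : ∀ o, (V0ᴴ * M) i o = M (some i) o := by
      intro o
      rw [Matrix.mul_apply, Fintype.sum_option]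
      simp only [hV0, Matrix.conjTranspose_apply, Matrix.of_apply]
      rw [Finset.sum_eq_single i]
      · simp
      · intro b _ hb
        simp [hb]
      · simp
    simp only [e1]
    simp only [hV0, hA0, Matrix.of_apply]
    rw [Finset.sum_eq_single j]
    · simp
    · intro b _ hb
      simp [hb]
    · simp
  have hsplit : ∀ y : Option (Fin 2) → ℂ, star y ⬝ᵥ (M *ᵥ y)
      = a * ((‖y none‖ ^ 2 : ℝ) : ℂ)
        + star (fun i => y (some i)) ⬝ᵥ (A0 *ᵥ (fun i => y (some i))) := by
    intro y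
    rw [dotProduct, Fintype.sum_option]
    congr 1
    · rw [Matrix.mulVec, dotProduct, Fintype.sum_option, m1]
      have : ∑ i, M none (some i) * y (some i) = 0 := by
        apply Finset.sum_eq_zero
        intro i _
        rw [m3, zero_mul]
      rw [this, add_zero, Pi.star_apply, Complex.star_def, Complex.ofReal_pow, ← Complex.conj_mul']
      ring
    · rw [dotProduct]
      apply Finset.sum_congr rfl
      intro i _
      rw [Matrix.mulVec, dotProduct, Fintype.sum_option, m2, zero_mul, zero_add]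
      rw [hA0]
      rfl
  have hnsplit : ∀ y : Option (Fin 2) → ℂ, star y ⬝ᵥ y
      = ((‖y none‖ ^ 2 : ℝ) : ℂ) + star (fun i => y (some i)) ⬝ᵥ (fun i => y (some i)) := by
    intro y
    rw [dot_self_eq, dot_self_eq, Fintype.sum_option]
    push_cast
    rfl
  have hMWeq1 : MW A ⊆ MW M := by rw [hM]; exact MW_subset_unitary A V hVV'
  have hMWeq2 : MW M ⊆ MW A := by rw [hM]; exact MW_compress_subset A V hVV
  by_cases haW : a ∈ MW A0
  · -- the 2 by 2 block carries the numerical range
    have hsub : MW M ⊆ MW (V0ᴴ * M * V0) := by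
      rw [hV0M]
      rintro z ⟨y, hy, rfl⟩
      rw [hsplit]
      set ys : Fin 2 → ℂ := fun i => y (some i) with hys
      have hy1 := hnsplit y
      rw [hy] at hy1
      by_cases hys0 : ys = 0
      · rw [← hys, hys0] at hy1
        simp only [star_zero, zero_dotProduct, add_zero] at hy1
        rw [hys0, ← hy1]
        simpa using haW
      · have hw := mem_MW_of_ne_zero A0 ys hys0
        have hpos : 0 < (star ys ⬝ᵥ ys).re := by
          rcases (dot_self_re_nonneg ys).lt_or_eq with h | h
          · exact h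
          · exact absurd (dot_self_re_eq_zero h.symm) hys0
        have hcc : star ys ⬝ᵥ ys = (((star ys ⬝ᵥ ys).re : ℝ) : ℂ) := by
          apply Complex.ext
          · rw [Complex.ofReal_re]
          · rw [Complex.ofReal_im]
            exact dot_self_im ys
        have hsum : ‖y none‖ ^ 2 + (star ys ⬝ᵥ ys).re = 1 := by
          have := congrArg Complex.re hy1
          rw [Complex.add_re, Complex.ofReal_re, Complex.one_re] at this
          exact this.symm
        have hconv := MW_convex A0 haW hw (a := ‖y none‖ ^ 2) (b := (star ys ⬝ᵥ ys).re)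
          (by positivity) hpos.le hsum
        convert hconv using 1
        rw [Complex.real_smul, Complex.real_smul, ← hcc]
        have hne : star ys ⬝ᵥ ys ≠ 0 := by
          rw [hcc]
          exact_mod_cast hpos.ne'
        field_simp
    have h3 : FinPropD M := by
      apply FinPropD.transfer V0 hV0V0 hsub
      rw [hV0M]
      exact finPropD_two A0
    rw [hM] at h3
    exact FinPropD.transfer V hVV (MW_subset_unitary A V hVV') h3
  · -- tangent line argument
    obtain ⟨u0, hu0⟩ := exists_sep A0 a haW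
    have hne : (MW A0).Nonempty := by
      refine ⟨_, mem_MW_of_ne_zero A0 (Pi.single 0 1) ?_⟩
      intro h
      have := congrFun h 0
      simp at this
    have hcont : ContinuousOn (fun w : ℂ => (u0 * (a - w)).im / (u0 * (a - w)).re) (MW A0) := by
      apply ContinuousOn.div
      · fun_prop
      · fun_prop
      · intro w hw
        have := hu0 w hw
        rw [mul_sub, Complex.sub_re]
        linarith
    obtain ⟨w1, hw1, hw1max⟩ := (MW_isCompact A0).exists_isMaxOn hne hcont
    set t1 : ℝ := (u0 * (a - w1)).im / (u0 * (a - w1)).re with ht1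
    have hkey : ∀ w ∈ MW A0, 0 ≤ (((t1 : ℂ) + Complex.I) * u0 * (a - w)).re := by
      intro w hw
      have h3 := hw1max hw
      simp only [Set.mem_ofPred_eq] at h3
      have hpos : 0 < (u0 * (a - w)).re := by
        have := hu0 w hw
        rw [mul_sub, Complex.sub_re]
        linarith
      have h4 : (u0 * (a - w)).im ≤ t1 * (u0 * (a - w)).re := by
        rw [← div_le_iff₀ hpos]
        exact h3
      have h5 : (((t1 : ℂ) + Complex.I) * u0 * (a - w)).re
          = t1 * (u0 * (a - w)).re - (u0 * (a - w)).im := by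
        rw [mul_assoc, add_mul, Complex.add_re, Complex.re_ofReal_mul, Complex.I_mul_re]
        ring
      rw [h5]
      linarith
    have hkey1 : (((t1 : ℂ) + Complex.I) * u0 * (a - w1)).re = 0 := by
      have hpos : 0 < (u0 * (a - w1)).re := by
        have := hu0 w1 hw1
        rw [mul_sub, Complex.sub_re]
        linarith
      have h5 : (((t1 : ℂ) + Complex.I) * u0 * (a - w1)).re
          = t1 * (u0 * (a - w1)).re - (u0 * (a - w1)).im := by
        rw [mul_assoc, add_mul, Complex.add_re, Complex.re_ofReal_mul, Complex.I_mul_re]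
        ring
      rw [h5, ht1]
      field_simp
      ring
    set u : ℂ := ((t1 : ℂ) + Complex.I) * u0 with hu
    have hu00 : u0 ≠ 0 := by
      intro h
      have := hu0 w1 hw1
      rw [h] at this
      simp at this
    have hune : u ≠ 0 := by
      apply mul_ne_zero _ hu00
      intro h
      have := congrArg Complex.im h
      simp at this
    have haM : a ∈ MW M := by
      refine ⟨Pi.single none 1, ?_, ?_⟩
      · rw [dotProduct, Finset.sum_eq_single none]
        · simp
        · intro j _ hj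
          simp [hj]
        · simp
      · rw [hsplit]
        have : (fun i => (Pi.single none (1 : ℂ) : Option (Fin 2) → ℂ) (some i)) = 0 := by
          ext i; simp
        rw [this]
        simp
    have hw1M : w1 ∈ MW M := by
      obtain ⟨y, hy, hyw⟩ := hw1
      refine ⟨fun o => o.elim 0 y, ?_, ?_⟩
      · rw [hnsplit]
        simpa using hy
      · rw [hsplit]
        simpa using hyw
    have hne' : a ≠ w1 := by
      intro h
      exact haW (h ▸ hw1)
    apply finPropD_flat A u hune a w1 (hMWeq2 haM) (hMWeq2 hw1M) hne'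
    · have h3 := hkey1
      rw [mul_sub, Complex.sub_re] at h3
      linarith
    · intro z hz
      obtain ⟨y, hy, rfl⟩ := hMWeq1 hz
      rw [hsplit]
      set ys : Fin 2 → ℂ := fun i => y (some i) with hys
      have hy1 := hnsplit y
      rw [hy] at hy1
      have hre : 1 = ‖y none‖ ^ 2 + (star ys ⬝ᵥ ys).re := by
        have := congrArg Complex.re hy1
        rw [Complex.add_re, Complex.ofReal_re, Complex.one_re] at this
        exact this
      have h3 : (u * (star ys ⬝ᵥ (A0 *ᵥ ys))).re ≤ (u * a).re * (star ys ⬝ᵥ ys).re := by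
        have h4 := re_quad_le_of_MW (u • A0) (u * a).re (by
          rintro z ⟨x', hx', rfl⟩
          have h5 := hkey _ ⟨x', hx', rfl⟩
          rw [mul_sub, Complex.sub_re] at h5
          rw [Matrix.smul_mulVec, dotProduct_smul, smul_eq_mul]
          linarith) ys
        rw [Matrix.smul_mulVec, dotProduct_smul, smul_eq_mul] at h4
        exact h4
      rw [mul_add, Complex.add_re]
      have h6 : (u * (a * ((‖y none‖ ^ 2 : ℝ) : ℂ))).re = (u * a).re * ‖y none‖ ^ 2 := by
        rw [← mul_assoc, Complex.re_mul_ofReal]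
      rw [h6]
      have h7 : (u * a).re * ‖y none‖ ^ 2 + (u * a).re * (star ys ⬝ᵥ ys).re = (u * a).re := by
        rw [← mul_add, ← hre, mul_one]
      linarith

end Pool.Agent.Helper774
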