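import Mathlib
import Pool.Agent.Helper774.PosCases2
open Matrix
open scoped ComplexOrder InnerProductSpace
open Filter Topology

namespace Pool.Agent.Helper774

/-- the hermitian part of `u • A` -/
noncomputable def Hu {ι : Type*} [Fintype ι] (A : Matrix ι ι ℂ) (u : ℂ) : Matrix ι ι ℂ :=
  (1 / 2 : ℂ) • (u • A + (u • A)ᴴ)

/-- `x` is a unit vector maximising `Re (u ⟨Ax, x⟩)`. -/
def Top {ι : Type*} [Fintype ι] (A : Matrix ι ι ℂ) (u : ℂ) (x : ι → ℂ) : Prop :=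
  star x ⬝ᵥ x = 1 ∧ ∀ y, star y ⬝ᵥ y = 1 →
    (u * (star y ⬝ᵥ (A *ᵥ y))).re ≤ (u * (star x ⬝ᵥ (A *ᵥ x))).re

theorem quad_Hu {ι : Type*} [Fintype ι] (A : Matrix ι ι ℂ) (u : ℂ) (x : ι → ℂ) :
    star x ⬝ᵥ (Hu A u *ᵥ x) = (((u * (star x ⬝ᵥ (A *ᵥ x))).re : ℝ) : ℂ) := by
  rw [Hu, quad_herm_part, Matrix.smul_mulVec, dotProduct_smul, smul_eq_mul]

theorem Hu_isHermitian {ι : Type*} [Fintype ι] (A : Matrix ι ι ℂ) (u : ℂ) :
    (Hu A u).IsHermitian := herm_part_isHermitian _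

theorem Hu_neg {ι : Type*} [Fintype ι] (A : Matrix ι ι ℂ) (u : ℂ) : Hu A (-u) = - Hu A u := by
  rw [Hu, Hu, neg_smul, conjTranspose_neg, ← neg_add, smul_neg]

theorem herm_swap {ι : Type*} [Fintype ι] {N : Matrix ι ι ℂ} (hN : N.IsHermitian)
    (x y : ι → ℂ) : star x ⬝ᵥ (N *ᵥ y) = starRingEnd ℂ (star y ⬝ᵥ (N *ᵥ x)) := by
  have := quad_conjTranspose N x y
  rw [hN.eq] at this
  exact this

theorem dot_swap {ι : Type*} [Fintype ι] (x y : ι → ℂ) :
    star x ⬝ᵥ y = starRingEnd ℂ (star y ⬝ᵥ x) := by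
  rw [dotProduct, dotProduct, map_sum]
  apply Finset.sum_congr rfl
  intro i _
  simp only [map_mul, Pi.star_apply, Complex.star_def, Complex.conj_conj]
  rw [mul_comm]

theorem exists_Top {ι : Type*} [Fintype ι] [DecidableEq ι] [Nonempty ι] (A : Matrix ι ι ℂ)
    (u : ℂ) : ∃ x, Top A u x := by
  have hne : ({x : ι → ℂ | star x ⬝ᵥ x = 1}).Nonempty := by
    obtain ⟨i⟩ := (inferInstance : Nonempty ι)
    refine ⟨Pi.single i 1, ?_⟩
    change star (Pi.single i (1 : ℂ)) ⬝ᵥ (Pi.single i 1) = 1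
    rw [dotProduct, Finset.sum_eq_single i]
    · simp
    · intro j _ hj
      simp [hj]
    · simp
  have hc : ContinuousOn (fun x : ι → ℂ => (u * (star x ⬝ᵥ (A *ᵥ x))).re)
      {x : ι → ℂ | star x ⬝ᵥ x = 1} := by
    apply Continuous.continuousOn
    exact Complex.continuous_re.comp (continuous_const.mul (continuous_quad A))
  obtain ⟨x, hx, hmax⟩ := isCompact_unit.exists_isMaxOn hne hc
  exact ⟨x, hx, fun y hy => hmax hy⟩

theorem Top.eig {ι : Type*} [Fintype ι] [DecidableEq ι] {A : Matrix ι ι ℂ} {u : ℂ}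
    {x : ι → ℂ} (h : Top A u x) :
    Hu A u *ᵥ x = (((u * (star x ⬝ᵥ (A *ᵥ x))).re : ℝ) : ℂ) • x := by
  set lam : ℝ := (u * (star x ⬝ᵥ (A *ᵥ x))).re with hlam
  have hle : ∀ y : ι → ℂ, (u * (star y ⬝ᵥ (A *ᵥ y))).re ≤ lam * (star y ⬝ᵥ y).re := by
    intro y
    have h1 := re_quad_le_of_MW (u • A) lam (by
      rintro z ⟨w, hw, rfl⟩
      rw [Matrix.smul_mulVec, dotProduct_smul, smul_eq_mul]
      exact h.2 w hw) y
    rw [Matrix.smul_mulVec, dotProduct_smul, smul_eq_mul] at h1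
    exact h1
  have hPSD : ((lam : ℂ) • (1 : Matrix ι ι ℂ) - Hu A u).PosSemidef := by
    apply Matrix.PosSemidef.of_dotProduct_mulVec_nonneg
    · apply Matrix.IsHermitian.sub _ (Hu_isHermitian A u)
      unfold Matrix.IsHermitian
      rw [conjTranspose_smul, conjTranspose_one]
      simp
    · intro y
      rw [Matrix.sub_mulVec, dotProduct_sub, quad_Hu, Matrix.smul_mulVec, Matrix.one_mulVec,
        dotProduct_smul, smul_eq_mul]
      have hyy : star y ⬝ᵥ y = (((star y ⬝ᵥ y).re : ℝ) : ℂ) := by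
        apply Complex.ext
        · rw [Complex.ofReal_re]
        · rw [Complex.ofReal_im, dot_self_im]
      rw [hyy, ← Complex.ofReal_mul, ← Complex.ofReal_sub]
      have := hle y
      exact_mod_cast sub_nonneg.mpr this
  have h0 : star x ⬝ᵥ (((lam : ℂ) • (1 : Matrix ι ι ℂ) - Hu A u) *ᵥ x) = 0 := by
    rw [Matrix.sub_mulVec, dotProduct_sub, quad_Hu, Matrix.smul_mulVec, Matrix.one_mulVec,
      dotProduct_smul, smul_eq_mul, h.1, mul_one, sub_self]
  have h1 := (hPSD.dotProduct_mulVec_zero_iff x).mp h0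
  rw [Matrix.sub_mulVec, Matrix.smul_mulVec, Matrix.one_mulVec] at h1
  exact (sub_eq_zero.mp h1).symm

theorem Top.of_eig {ι : Type*} [Fintype ι] {A : Matrix ι ι ℂ} {u : ℂ}
    {x y : ι → ℂ} (h : Top A u x) (hy : star y ⬝ᵥ y = 1)
    (he : Hu A u *ᵥ y = (((u * (star x ⬝ᵥ (A *ᵥ x))).re : ℝ) : ℂ) • y) : Top A u y := by
  have h1 : (u * (star y ⬝ᵥ (A *ᵥ y))).re = (u * (star x ⬝ᵥ (A *ᵥ x))).re := by
    have h2 := quad_Hu A u y
    rw [he, dotProduct_smul, hy, smul_eq_mul, mul_one] at h2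
    exact (Complex.ofReal_inj.mp h2).symm
  refine ⟨hy, ?_⟩
  intro w hw
  rw [h1]
  exact h.2 w hw

/-- completing an orthonormal pair in dimension three -/
theorem exists_third (x w : Fin 3 → ℂ) (hx : star x ⬝ᵥ x = 1) (hw : star w ⬝ᵥ w = 1)
    (hxw : star x ⬝ᵥ w = 0) : ∃ g : Fin 3 → ℂ, star g ⬝ᵥ g = 1 ∧ star x ⬝ᵥ g = 0 ∧
      star w ⬝ᵥ g = 0 ∧
      ∀ f : Fin 3 → ℂ, f = (star x ⬝ᵥ f) • x + (star w ⬝ᵥ f) • w + (star g ⬝ᵥ f) • g := by
  classical
  have hin : ∀ a b : EuclideanSpace ℂ (Fin 3), inner ℂ a b = star a.ofLp ⬝ᵥ b.ofLp := by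
    intro a b
    rw [EuclideanSpace.inner_eq_star_dotProduct, dotProduct_comm]
  set v : Fin 3 → EuclideanSpace ℂ (Fin 3) := fun i => if i = 0 then WithLp.toLp 2 x
    else WithLp.toLp 2 w with hv
  have hv0 : v 0 = WithLp.toLp 2 x := by simp [hv]
  have hv1 : v 1 = WithLp.toLp 2 w := by simp [hv]
  have hnx : ‖(WithLp.toLp 2 x : EuclideanSpace ℂ (Fin 3))‖ = 1 := by
    have h1 : inner ℂ (WithLp.toLp 2 x : EuclideanSpace ℂ (Fin 3)) (WithLp.toLp 2 x) = (1 : ℂ) := by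
      rw [hin]; exact hx
    have h2 : ‖(WithLp.toLp 2 x : EuclideanSpace ℂ (Fin 3))‖ ^ 2 = 1 := by
      rw [← inner_self_eq_norm_sq (𝕜 := ℂ), h1]; simp
    have h3 := norm_nonneg (WithLp.toLp 2 x : EuclideanSpace ℂ (Fin 3))
    nlinarith
  have hnw : ‖(WithLp.toLp 2 w : EuclideanSpace ℂ (Fin 3))‖ = 1 := by
    have h1 : inner ℂ (WithLp.toLp 2 w : EuclideanSpace ℂ (Fin 3)) (WithLp.toLp 2 w) = (1 : ℂ) := by
      rw [hin]; exact hw
    have h2 : ‖(WithLp.toLp 2 w : EuclideanSpace ℂ (Fin 3))‖ ^ 2 = 1 := by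
      rw [← inner_self_eq_norm_sq (𝕜 := ℂ), h1]; simp
    have h3 := norm_nonneg (WithLp.toLp 2 w : EuclideanSpace ℂ (Fin 3))
    nlinarith
  have hwx : star w ⬝ᵥ x = 0 := by
    rw [dot_swap, hxw, map_zero]
  have horth : Orthonormal ℂ (({0, 1} : Set (Fin 3)).domRestrict v) := by
    constructor
    · rintro ⟨i, hi⟩
      rcases hi with hi | hi
      · change ‖v i‖ = 1
        rw [hi, hv0]; exact hnx
      · change ‖v i‖ = 1
        rw [Set.mem_singleton_iff.mp hi, hv1]; exact hnw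
    · rintro ⟨i, hi⟩ ⟨j, hj⟩ hij
      change inner ℂ (v i) (v j) = 0
      have hij' : i ≠ j := fun h => hij (Subtype.ext h)
      rcases hi with hi | hi <;> rcases hj with hj | hj
      · exact absurd (hi.trans hj.symm) hij'
      · rw [hi, Set.mem_singleton_iff.mp hj, hv0, hv1, hin]
        exact hxw
      · rw [hj, Set.mem_singleton_iff.mp hi, hv0, hv1, hin]
        exact hwx
      · exact absurd ((Set.mem_singleton_iff.mp hi).trans (Set.mem_singleton_iff.mp hj).symm) hij'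
  obtain ⟨b, hb⟩ := horth.exists_orthonormalBasis_extension_of_card_eq (by simp)
  have hb0 : b 0 = WithLp.toLp 2 x := by rw [hb 0 (by simp), hv0]
  have hb1 : b 1 = WithLp.toLp 2 w := by rw [hb 1 (by simp), hv1]
  have hite := orthonormal_iff_ite.mp b.orthonormal
  refine ⟨(b 2).ofLp, ?_, ?_, ?_, ?_⟩
  · have := hite 2 2
    rw [hin] at this
    simpa using this
  · have := hite 0 2
    rw [hin, hb0] at this
    simpa using this
  · have := hite 1 2
    rw [hin, hb1] at this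
    simpa using this
  · intro f
    have h1 := b.sum_repr' (WithLp.toLp 2 f)
    rw [Fin.sum_univ_three, hb0, hb1, hin, hin, hin] at h1
    have h2 := congrArg WithLp.ofLp h1
    simp only [WithLp.ofLp_add, WithLp.ofLp_smul] at h2
    exact h2.symm

theorem parallel_of_orth (x w e f : Fin 3 → ℂ) (hx : star x ⬝ᵥ x = 1) (hw : star w ⬝ᵥ w = 1)
    (hxw : star x ⬝ᵥ w = 0) (he : e ≠ 0) (h1 : star x ⬝ᵥ e = 0) (h2 : star w ⬝ᵥ e = 0)
    (h3 : star x ⬝ᵥ f = 0) (h4 : star w ⬝ᵥ f = 0) : ∃ c : ℂ, f = c • e := by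
  obtain ⟨g, hg, _, _, hexp⟩ := exists_third x w hx hw hxw
  have e1 := hexp e
  rw [h1, h2, zero_smul, zero_smul, zero_add, zero_add] at e1
  have f1 := hexp f
  rw [h3, h4, zero_smul, zero_smul, zero_add, zero_add] at f1
  have hne : star g ⬝ᵥ e ≠ 0 := by
    intro h
    rw [h, zero_smul] at e1
    exact he e1
  refine ⟨(star g ⬝ᵥ f) / (star g ⬝ᵥ e), ?_⟩
  generalize star g ⬝ᵥ e = d at e1 hne
  generalize star g ⬝ᵥ f = d' at f1
  rw [f1, e1, smul_smul, div_mul_cancel₀ _ hne]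

/-- no reducing eigenvector -/
def NoRed (A : Matrix (Fin 3) (Fin 3) ℂ) : Prop :=
  ¬ ∃ x : Fin 3 → ℂ, x ≠ 0 ∧ ∃ a a' : ℂ, A *ᵥ x = a • x ∧ Aᴴ *ᵥ x = a' • x

/-- no flat portion on the boundary of the numerical range -/
def NoFlat (A : Matrix (Fin 3) (Fin 3) ℂ) : Prop :=
  ¬ ∃ u z w : ℂ, u ≠ 0 ∧ z ∈ MW A ∧ w ∈ MW A ∧ z ≠ w ∧ (u * z).re = (u * w).re ∧
    ∀ y ∈ MW A, (u * y).re ≤ (u * z).re

theorem normalize_vec {ι : Type*} [Fintype ι] (x : ι → ℂ) (hx : x ≠ 0) :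
    ∃ s : ℝ, 0 < s ∧ star ((s : ℂ) • x) ⬝ᵥ ((s : ℂ) • x) = 1 := by
  have hpos : 0 < (star x ⬝ᵥ x).re := by
    rcases (dot_self_re_nonneg x).lt_or_eq with h | h
    · exact h
    · exact absurd (dot_self_re_eq_zero h.symm) hx
  refine ⟨(Real.sqrt (star x ⬝ᵥ x).re)⁻¹, by positivity, ?_⟩
  have hxx : star x ⬝ᵥ x = (((star x ⬝ᵥ x).re : ℝ) : ℂ) := by
    apply Complex.ext
    · rw [Complex.ofReal_re]
    · rw [Complex.ofReal_im, dot_self_im]
  rw [star_smul, smul_dotProduct, dotProduct_smul, smul_eq_mul, smul_eq_mul, Complex.star_def,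
    Complex.conj_ofReal, ← mul_assoc, ← Complex.ofReal_mul, ← mul_inv,
    Real.mul_self_sqrt hpos.le]
  conv_lhs => rw [hxx]
  rw [Complex.ofReal_re, ← Complex.ofReal_mul, inv_mul_cancel₀ hpos.ne', Complex.ofReal_one]

theorem no_two_tops (A : Matrix (Fin 3) (Fin 3) ℂ) (hNR : NoRed A) (hNF : NoFlat A)
    (u : ℂ) (hu : u ≠ 0) (x w : Fin 3 → ℂ) (hx : Top A u x) (hw : Top A u w)
    (hxw : star x ⬝ᵥ w = 0) : False := by
  obtain ⟨g, hg, hxg, hwg, hexp⟩ := exists_third x w hx.1 hw.1 hxw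
  have hwx : star w ⬝ᵥ x = 0 := by rw [dot_swap, hxw, map_zero]
  set h : ℝ := (u * (star x ⬝ᵥ (A *ᵥ x))).re with hh
  have hhw : (u * (star w ⬝ᵥ (A *ᵥ w))).re = h := le_antisymm (hx.2 w hw.1) (hw.2 x hx.1)
  have hHx : Hu A u *ᵥ x = (h : ℂ) • x := hx.eig
  have hHw : Hu A u *ᵥ w = (h : ℂ) • w := by
    have := hw.eig
    rw [hhw] at this
    exact this
  have hHv : ∀ α β : ℂ, Hu A u *ᵥ (α • x + β • w) = (h : ℂ) • (α • x + β • w) := by
    intro α β
    rw [Matrix.mulVec_add, Matrix.mulVec_smul, Matrix.mulVec_smul, hHx, hHw, smul_add,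
      smul_comm α, smul_comm β]
  set a := star x ⬝ᵥ (A *ᵥ x) with ha
  -- all unit vectors in the span give the value a
  have hval : ∀ α β : ℂ, starRingEnd ℂ α * α + starRingEnd ℂ β * β = 1 →
      star (α • x + β • w) ⬝ᵥ (A *ᵥ (α • x + β • w)) = a := by
    intro α β hαβ
    have hunit : star (α • x + β • w) ⬝ᵥ (α • x + β • w) = 1 := by
      rw [star_add, star_smul, star_smul, add_dotProduct, dotProduct_add, dotProduct_add]
      simp only [smul_dotProduct, dotProduct_smul, smul_eq_mul, hx.1, hw.1, hxw, hwx,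
        Complex.star_def]
      linear_combination hαβ
    have htop := hx.of_eig hunit (hHv α β)
    by_contra hne
    apply hNF
    refine ⟨u, a, star (α • x + β • w) ⬝ᵥ (A *ᵥ (α • x + β • w)), hu, ⟨x, hx.1, rfl⟩,
      ⟨_, hunit, rfl⟩, Ne.symm hne, ?_, ?_⟩
    · exact le_antisymm (htop.2 x hx.1) (hx.2 _ hunit)
    · rintro _ ⟨y, hy, rfl⟩
      exact hx.2 y hy
  set p := star x ⬝ᵥ (A *ᵥ w) with hp
  set q := star w ⬝ᵥ (A *ᵥ x) with hq
  set b := star w ⬝ᵥ (A *ᵥ w) with hb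
  have hexpand : ∀ α β : ℂ, star (α • x + β • w) ⬝ᵥ (A *ᵥ (α • x + β • w))
      = starRingEnd ℂ α * α * a + starRingEnd ℂ α * β * p + starRingEnd ℂ β * α * q
        + starRingEnd ℂ β * β * b := by
    intro α β
    rw [star_add, star_smul, star_smul, Matrix.mulVec_add, Matrix.mulVec_smul,
      Matrix.mulVec_smul, add_dotProduct, dotProduct_add, dotProduct_add]
    simp only [smul_dotProduct, dotProduct_smul, smul_eq_mul, Complex.star_def]
    rw [← ha, ← hp, ← hq, ← hb]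
    ring
  have hba : b = a := by
    have := hval 0 1 (by simp)
    rw [hexpand] at this
    simpa using this
  set s : ℝ := (Real.sqrt 2)⁻¹ with hs
  have hss : (s : ℂ) * (s : ℂ) = 1 / 2 := by
    rw [← Complex.ofReal_mul, hs, ← mul_inv, Real.mul_self_sqrt (by norm_num)]
    push_cast; ring
  have hpq1 : p + q = 0 := by
    have h1 := hval (s : ℂ) (s : ℂ) (by rw [Complex.conj_ofReal, hss]; ring)
    rw [hexpand, Complex.conj_ofReal, hss, hba] at h1
    linear_combination 2 * h1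
  have hpq2 : p - q = 0 := by
    have h1 := hval (s : ℂ) ((s : ℂ) * Complex.I) (by
      rw [map_mul, Complex.conj_ofReal, Complex.conj_I]
      have : (s : ℂ) * (s : ℂ) + (s : ℂ) * (-Complex.I) * ((s : ℂ) * Complex.I)
        = (s : ℂ) * (s : ℂ) - (s : ℂ) * (s : ℂ) * (Complex.I * Complex.I) := by ring
      rw [this, Complex.I_mul_I, hss]; ring)
    rw [hexpand, map_mul, Complex.conj_ofReal, Complex.conj_I, hba] at h1
    have h2 : (s : ℂ) * (s : ℂ) * a + (s : ℂ) * ((s : ℂ) * Complex.I) * p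
        + (s : ℂ) * (-Complex.I) * (s : ℂ) * q
        + (s : ℂ) * (-Complex.I) * ((s : ℂ) * Complex.I) * a
        = (s : ℂ) * (s : ℂ) * a + ((s : ℂ) * (s : ℂ)) * Complex.I * (p - q)
          - ((s : ℂ) * (s : ℂ)) * (Complex.I * Complex.I) * a := by ring
    rw [h2, Complex.I_mul_I, hss] at h1
    have h3 : Complex.I * (p - q) = 0 := by linear_combination 2 * h1
    rcases mul_eq_zero.mp h3 with h4 | h4
    · exact absurd h4 Complex.I_ne_zero
    · exact h4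
  have hp0 : p = 0 := by linear_combination (hpq1 + hpq2) / 2
  have hq0 : q = 0 := by linear_combination (hpq1 - hpq2) / 2
  -- choose the combination killed by g
  obtain ⟨α, β, hne, hgz⟩ : ∃ α β : ℂ, (α ≠ 0 ∨ β ≠ 0) ∧
      α * (star g ⬝ᵥ (A *ᵥ x)) + β * (star g ⬝ᵥ (A *ᵥ w)) = 0 := by
    by_cases h0 : star g ⬝ᵥ (A *ᵥ x) = 0
    · exact ⟨1, 0, Or.inl one_ne_zero, by rw [h0]; ring⟩
    · exact ⟨star g ⬝ᵥ (A *ᵥ w), -(star g ⬝ᵥ (A *ᵥ x)), Or.inr (neg_ne_zero.mpr h0), by ring⟩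
  apply hNR
  have hxv : star x ⬝ᵥ (α • x + β • w) = α := by
    rw [dotProduct_add, dotProduct_smul, dotProduct_smul, hx.1, hxw]
    simp
  have hwv : star w ⬝ᵥ (α • x + β • w) = β := by
    rw [dotProduct_add, dotProduct_smul, dotProduct_smul, hw.1, hwx]
    simp
  have hv0 : α • x + β • w ≠ 0 := by
    intro h0
    rcases hne with h | h
    · apply h; rw [← hxv, h0, dotProduct_zero]
    · apply h; rw [← hwv, h0, dotProduct_zero]
  have hAv : A *ᵥ (α • x + β • w) = a • (α • x + β • w) := by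
    rw [hexp (A *ᵥ (α • x + β • w))]
    have e1 : star x ⬝ᵥ (A *ᵥ (α • x + β • w)) = a * α := by
      rw [Matrix.mulVec_add, Matrix.mulVec_smul, Matrix.mulVec_smul, dotProduct_add,
        dotProduct_smul, dotProduct_smul, ← ha, ← hp, hp0, smul_eq_mul, smul_eq_mul]
      ring
    have e2 : star w ⬝ᵥ (A *ᵥ (α • x + β • w)) = a * β := by
      rw [Matrix.mulVec_add, Matrix.mulVec_smul, Matrix.mulVec_smul, dotProduct_add,
        dotProduct_smul, dotProduct_smul, ← hq, ← hb, hq0, hba, smul_eq_mul, smul_eq_mul]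
      ring
    have e3 : star g ⬝ᵥ (A *ᵥ (α • x + β • w)) = 0 := by
      rw [Matrix.mulVec_add, Matrix.mulVec_smul, Matrix.mulVec_smul, dotProduct_add,
        dotProduct_smul, dotProduct_smul, smul_eq_mul, smul_eq_mul]
      exact hgz
    rw [e1, e2, e3, zero_smul, add_zero, smul_add, smul_smul, smul_smul]
  refine ⟨α • x + β • w, hv0, a, (2 * (h : ℂ) - u * a) / starRingEnd ℂ u, hAv, ?_⟩
  have hH := hHv α β
  have hu' : starRingEnd ℂ u ≠ 0 := by
    intro h0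
    exact hu ((map_eq_zero _).mp h0)
  rw [Hu, conjTranspose_smul, Matrix.smul_mulVec, Matrix.add_mulVec, Matrix.smul_mulVec,
    Matrix.smul_mulVec, hAv] at hH
  generalize α • x + β • w = v at hH
  ext i
  have hHi := congrFun hH i
  simp only [Pi.smul_apply, Pi.add_apply, smul_eq_mul, Complex.star_def] at hHi ⊢
  field_simp
  linear_combination 2 * hHi

theorem Top.unique {A : Matrix (Fin 3) (Fin 3) ℂ} (hNR : NoRed A) (hNF : NoFlat A)
    {u : ℂ} (hu : u ≠ 0) {x y : Fin 3 → ℂ} (hx : Top A u x) (hy : Top A u y) :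
    ∃ c : ℂ, c ≠ 0 ∧ y = c • x := by
  set c := star x ⬝ᵥ y with hc
  by_cases hw0 : y - c • x = 0
  · refine ⟨c, ?_, sub_eq_zero.mp hw0⟩
    intro h0
    rw [h0, zero_smul, sub_zero] at hw0
    have := hy.1
    rw [hw0] at this
    simp at this
  exfalso
  obtain ⟨s, hs, hunit⟩ := normalize_vec _ hw0
  have hxw : star x ⬝ᵥ ((s : ℂ) • (y - c • x)) = 0 := by
    rw [dotProduct_smul, dotProduct_sub, dotProduct_smul, hx.1, ← hc]
    simp
  set h : ℝ := (u * (star x ⬝ᵥ (A *ᵥ x))).re with hh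
  have hhy : (u * (star y ⬝ᵥ (A *ᵥ y))).re = h := le_antisymm (hx.2 y hy.1) (hy.2 x hx.1)
  have hHx : Hu A u *ᵥ x = (h : ℂ) • x := hx.eig
  have hHy : Hu A u *ᵥ y = (h : ℂ) • y := by
    have := hy.eig
    rw [hhy] at this
    exact this
  have hHw : Hu A u *ᵥ ((s : ℂ) • (y - c • x)) = (h : ℂ) • ((s : ℂ) • (y - c • x)) := by
    rw [Matrix.mulVec_smul, Matrix.mulVec_sub, Matrix.mulVec_smul, hHx, hHy]
    ext i
    simp only [Pi.smul_apply, Pi.sub_apply, smul_eq_mul]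
    ring
  exact no_two_tops A hNR hNF u hu x _ hx (hx.of_eig hunit hHw) hxw

end Pool.Agent.Helper774
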