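import Mathlib
import Pool.Agent.Helper774.NegA
open Matrix
open scoped ComplexOrder InnerProductSpace
open Filter Topology

namespace Pool.Agent.Helper774

theorem continuous_dot {ι : Type*} [Fintype ι] :
    Continuous (fun p : (ι → ℂ) × (ι → ℂ) => star p.1 ⬝ᵥ p.2) := by
  simp only [dotProduct, Pi.star_apply]
  fun_prop

theorem continuous_quad_val {ι : Type*} [Fintype ι] (A : Matrix ι ι ℂ) :
    Continuous (fun p : ℂ × (ι → ℂ) => (p.1 * (star p.2 ⬝ᵥ (A *ᵥ p.2))).re) :=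
  Complex.continuous_re.comp (continuous_fst.mul ((continuous_quad A).comp continuous_snd))

theorem isClosed_Top {ι : Type*} [Fintype ι] (A : Matrix ι ι ℂ) :
    IsClosed {p : ℂ × (ι → ℂ) | Top A p.1 p.2} := by
  have : {p : ℂ × (ι → ℂ) | Top A p.1 p.2} = {p | star p.2 ⬝ᵥ p.2 = 1} ∩
      ⋂ y : {y : ι → ℂ // star y ⬝ᵥ y = 1},
        {p | (p.1 * (star y.1 ⬝ᵥ (A *ᵥ y.1))).re ≤ (p.1 * (star p.2 ⬝ᵥ (A *ᵥ p.2))).re} := by
    ext p
    simp only [Top, Set.mem_ofPred_eq, Set.mem_inter_iff, Set.mem_iInter, Subtype.forall]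
  rw [this]
  apply IsClosed.inter
  · apply isClosed_eq _ continuous_const
    exact continuous_dot.comp (continuous_snd.prodMk continuous_snd)
  · apply isClosed_iInter
    intro y
    apply isClosed_le _ (continuous_quad_val A)
    exact Complex.continuous_re.comp (continuous_fst.mul continuous_const)

theorem isCompact_Top {ι : Type*} [Fintype ι] (A : Matrix ι ι ℂ) :
    IsCompact {p : ℂ × (ι → ℂ) | ‖p.1‖ = 1 ∧ Top A p.1 p.2} := by
  have h1 : IsCompact (Metric.sphere (0 : ℂ) 1 ×ˢ {x : ι → ℂ | star x ⬝ᵥ x = 1}) :=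
    (isCompact_sphere _ _).prod isCompact_unit
  apply h1.of_isClosed_subset
  · apply IsClosed.inter _ (isClosed_Top A)
    exact isClosed_eq (continuous_norm.comp continuous_fst) continuous_const
  · rintro ⟨u, x⟩ ⟨hu, hx⟩
    exact ⟨by simpa using hu, hx.1⟩

theorem top_swap {A : Matrix (Fin 3) (Fin 3) ℂ} {u : ℂ} {x : Fin 3 → ℂ} (hx : Top A u x)
    (y : Fin 3 → ℂ) :
    star x ⬝ᵥ (Hu A u *ᵥ y) = (((u * (star x ⬝ᵥ (A *ᵥ x))).re : ℝ) : ℂ) * (star x ⬝ᵥ y) := by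
  rw [herm_swap (Hu_isHermitian A u), hx.eig, dotProduct_smul, smul_eq_mul, map_mul,
    Complex.conj_ofReal, ← dot_swap]

/-- uniform spectral gap below the top eigenvalue -/
theorem exists_gap (A : Matrix (Fin 3) (Fin 3) ℂ) (hNR : NoRed A) (hNF : NoFlat A) :
    ∃ g : ℝ, 0 < g ∧ ∀ u : ℂ, ‖u‖ = 1 → ∀ x, Top A u x → ∀ z, star z ⬝ᵥ z = 1 →
      star x ⬝ᵥ z = 0 →
      (u * (star z ⬝ᵥ (A *ᵥ z))).re + g ≤ (u * (star x ⬝ᵥ (A *ᵥ x))).re := by
  set S : Set ((ℂ × (Fin 3 → ℂ)) × (Fin 3 → ℂ)) :=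
    {q | (‖q.1.1‖ = 1 ∧ Top A q.1.1 q.1.2) ∧ star q.2 ⬝ᵥ q.2 = 1 ∧ star q.1.2 ⬝ᵥ q.2 = 0} with hS
  have hScomp : IsCompact S := by
    apply ((isCompact_Top A).prod (isCompact_unit (ι := Fin 3))).of_isClosed_subset
    · apply IsClosed.inter
      · exact (isCompact_Top A).isClosed.preimage continuous_fst
      · apply IsClosed.inter
        · apply isClosed_eq _ continuous_const
          exact continuous_dot.comp (continuous_snd.prodMk continuous_snd)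
        · apply isClosed_eq _ continuous_const
          exact continuous_dot.comp ((continuous_snd.comp continuous_fst).prodMk continuous_snd)
    · rintro ⟨⟨u, x⟩, z⟩ ⟨h1, h2, _⟩
      exact ⟨h1, h2⟩
  set F : ((ℂ × (Fin 3 → ℂ)) × (Fin 3 → ℂ)) → ℝ := fun q =>
    (q.1.1 * (star q.1.2 ⬝ᵥ (A *ᵥ q.1.2))).re - (q.1.1 * (star q.2 ⬝ᵥ (A *ᵥ q.2))).re with hF
  have hFc : Continuous F := by
    apply Continuous.sub
    · exact (continuous_quad_val A).comp continuous_fst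
    · exact (continuous_quad_val A).comp ((continuous_fst.comp continuous_fst).prodMk
        continuous_snd)
  have hFpos : ∀ q ∈ S, 0 < F q := by
    rintro ⟨⟨u, x⟩, z⟩ ⟨⟨hu, hx⟩, hz, hxz⟩
    change star z ⬝ᵥ z = 1 at hz
    change star x ⬝ᵥ z = 0 at hxz
    change Top A u x at hx
    change ‖u‖ = 1 at hu
    change 0 < (u * (star x ⬝ᵥ (A *ᵥ x))).re - (u * (star z ⬝ᵥ (A *ᵥ z))).re
    have h1 := hx.2 z hz
    rcases h1.lt_or_eq with h2 | h2
    · linarith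
    · exfalso
      have hu0 : u ≠ 0 := by
        intro h0; rw [h0] at hu; simp at hu
      apply no_two_tops A hNR hNF u hu0 x z hx _ hxz
      refine ⟨hz, ?_⟩
      intro y hy
      rw [h2]
      exact hx.2 y hy
  by_cases hne : S.Nonempty
  · obtain ⟨q, hq, hmin⟩ := hScomp.exists_isMinOn hne hFc.continuousOn
    refine ⟨F q, hFpos q hq, ?_⟩
    intro u hu x hx z hz hxz
    have h1 : F q ≤ F ((u, x), z) := hmin ⟨⟨hu, hx⟩, hz, hxz⟩
    have h2 : F ((u, x), z) = (u * (star x ⬝ᵥ (A *ᵥ x))).re - (u * (star z ⬝ᵥ (A *ᵥ z))).re := rfl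
    linarith
  · refine ⟨1, one_pos, ?_⟩
    intro u hu x hx z hz hxz
    exact absurd ⟨((u, x), z), ⟨hu, hx⟩, hz, hxz⟩ hne

theorem dot_self_ofReal {ι : Type*} [Fintype ι] (x : ι → ℂ) :
    star x ⬝ᵥ x = (((star x ⬝ᵥ x).re : ℝ) : ℂ) := by
  apply Complex.ext
  · rw [Complex.ofReal_re]
  · rw [Complex.ofReal_im, dot_self_im]

/-- decomposition of the defect along a top vector -/
theorem top_decomp {A : Matrix (Fin 3) (Fin 3) ℂ} {u : ℂ} {x : Fin 3 → ℂ} (hx : Top A u x)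
    (w : Fin 3 → ℂ) (c : ℂ) :
    (u * (star x ⬝ᵥ (A *ᵥ x))).re * (star (w + c • x) ⬝ᵥ (w + c • x)).re
      - (u * (star (w + c • x) ⬝ᵥ (A *ᵥ (w + c • x)))).re
    = (u * (star x ⬝ᵥ (A *ᵥ x))).re * (star w ⬝ᵥ w).re - (u * (star w ⬝ᵥ (A *ᵥ w))).re := by
  set h : ℝ := (u * (star x ⬝ᵥ (A *ᵥ x))).re with hh
  have e1 := quad_Hu A u (w + c • x)
  have e2 := quad_Hu A u w
  have hHx : Hu A u *ᵥ x = (h : ℂ) • x := hx.eig
  have e3 : star (w + c • x) ⬝ᵥ (Hu A u *ᵥ (w + c • x))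
      = star w ⬝ᵥ (Hu A u *ᵥ w) + (h : ℂ) * (star (w + c • x) ⬝ᵥ (w + c • x)
        - star w ⬝ᵥ w) := by
    rw [Matrix.mulVec_add, Matrix.mulVec_smul, hHx, star_add, star_smul]
    simp only [add_dotProduct, dotProduct_add, smul_dotProduct, dotProduct_smul, smul_eq_mul,
      Complex.star_def]
    rw [top_swap hx w, ← hh]
    ring
  have e4 := congrArg Complex.re e3
  rw [e1, e2, Complex.ofReal_re, Complex.add_re, Complex.ofReal_re, Complex.re_ofReal_mul,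
    Complex.sub_re] at e4
  linarith

theorem gap_vec {A : Matrix (Fin 3) (Fin 3) ℂ} {g : ℝ}
    (hg : ∀ u : ℂ, ‖u‖ = 1 → ∀ x, Top A u x → ∀ z, star z ⬝ᵥ z = 1 →
      star x ⬝ᵥ z = 0 →
      (u * (star z ⬝ᵥ (A *ᵥ z))).re + g ≤ (u * (star x ⬝ᵥ (A *ᵥ x))).re)
    {u : ℂ} (hu : ‖u‖ = 1) {x : Fin 3 → ℂ} (hx : Top A u x) (w : Fin 3 → ℂ)
    (hxw : star x ⬝ᵥ w = 0) :
    g * (star w ⬝ᵥ w).re ≤
      (u * (star x ⬝ᵥ (A *ᵥ x))).re * (star w ⬝ᵥ w).re - (u * (star w ⬝ᵥ (A *ᵥ w))).re := by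
  by_cases hw0 : w = 0
  · simp [hw0]
  obtain ⟨s, hs, hunit⟩ := normalize_vec w hw0
  have h1 := hg u hu x hx _ hunit (by rw [dotProduct_smul, hxw, smul_zero])
  have e1 : star ((s : ℂ) • w) ⬝ᵥ (A *ᵥ ((s : ℂ) • w))
      = ((s ^ 2 : ℝ) : ℂ) * (star w ⬝ᵥ (A *ᵥ w)) := by
    rw [star_smul, Matrix.mulVec_smul, smul_dotProduct, dotProduct_smul, smul_eq_mul,
      smul_eq_mul, Complex.star_def, Complex.conj_ofReal]
    push_cast; ring
  have e2 : s ^ 2 * (star w ⬝ᵥ w).re = 1 := by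
    have := congrArg Complex.re hunit
    rw [star_smul, smul_dotProduct, dotProduct_smul, smul_eq_mul,
      smul_eq_mul, Complex.star_def, Complex.conj_ofReal, ← mul_assoc, ← Complex.ofReal_mul,
      Complex.re_ofReal_mul, Complex.one_re] at this
    linarith
  have e3 : (u * (((s ^ 2 : ℝ) : ℂ) * (star w ⬝ᵥ (A *ᵥ w)))).re
      = s ^ 2 * (u * (star w ⬝ᵥ (A *ᵥ w))).re := by
    rw [mul_left_comm, Complex.re_ofReal_mul]
  rw [e1, e3] at h1
  have hs2 : 0 < s ^ 2 := by positivity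
  have h2 : s ^ 2 * (g * (star w ⬝ᵥ w).re) ≤ s ^ 2 * ((u * (star x ⬝ᵥ (A *ᵥ x))).re *
      (star w ⬝ᵥ w).re - (u * (star w ⬝ᵥ (A *ᵥ w))).re) := by
    have : s ^ 2 * (g * (star w ⬝ᵥ w).re) = g := by
      rw [mul_left_comm, e2, mul_one]
    have h3 : s ^ 2 * ((u * (star x ⬝ᵥ (A *ᵥ x))).re *
      (star w ⬝ᵥ w).re - (u * (star w ⬝ᵥ (A *ᵥ w))).re)
      = (u * (star x ⬝ᵥ (A *ᵥ x))).re * (s ^ 2 * (star w ⬝ᵥ w).re)
        - s ^ 2 * (u * (star w ⬝ᵥ (A *ᵥ w))).re := by ring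
    rw [this, h3, e2]
    linarith
  exact le_of_mul_le_mul_left h2 hs2

theorem not_all_Top (A : Matrix (Fin 3) (Fin 3) ℂ) (hNR : NoRed A) (hNF : NoFlat A)
    (u : ℂ) (hu : u ≠ 0) (h : ∀ y : Fin 3 → ℂ, star y ⬝ᵥ y = 1 → Top A u y) : False := by
  have e0 : star (![1, 0, 0] : Fin 3 → ℂ) ⬝ᵥ ![1, 0, 0] = 1 := by
    simp [dotProduct, Fin.sum_univ_three]
  have e1 : star (![0, 1, 0] : Fin 3 → ℂ) ⬝ᵥ ![0, 1, 0] = 1 := by
    simp [dotProduct, Fin.sum_univ_three]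
  have e2 : star (![1, 0, 0] : Fin 3 → ℂ) ⬝ᵥ ![0, 1, 0] = 0 := by
    simp [dotProduct, Fin.sum_univ_three]
  exact no_two_tops A hNR hNF u hu _ _ (h _ e0) (h _ e1) e2

/-- the top vectors of `u` and of `-u` are orthogonal, with different eigenvalues -/
theorem top_bot (A : Matrix (Fin 3) (Fin 3) ℂ) (hNR : NoRed A) (hNF : NoFlat A)
    (u : ℂ) (hu : u ≠ 0) (x x' : Fin 3 → ℂ) (hx : Top A u x) (hx' : Top A (-u) x') :
    star x ⬝ᵥ x' = 0 ∧ (u * (star x' ⬝ᵥ (A *ᵥ x'))).re < (u * (star x ⬝ᵥ (A *ᵥ x))).re := by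
  set h : ℝ := (u * (star x ⬝ᵥ (A *ᵥ x))).re with hh
  set h' : ℝ := (u * (star x' ⬝ᵥ (A *ᵥ x'))).re with hh'
  have hle : h' ≤ h := hx.2 x' hx'.1
  have hne : h' ≠ h := by
    intro heq
    apply not_all_Top A hNR hNF u hu
    intro y hy
    refine ⟨hy, ?_⟩
    intro z hz
    have h1 := hx.2 z hz
    have h2 := hx'.2 y hy
    rw [neg_mul, neg_mul, Complex.neg_re, Complex.neg_re] at h2
    rw [← hh] at h1
    rw [← hh'] at h2
    linarith
  refine ⟨?_, lt_of_le_of_ne hle hne⟩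
  have e1 := top_swap hx x'
  have e2 : Hu A u *ᵥ x' = (h' : ℂ) • x' := by
    have := hx'.eig
    rw [Hu_neg, Matrix.neg_mulVec, neg_mul, Complex.neg_re, ← hh', Complex.ofReal_neg,
      neg_smul] at this
    exact neg_injective this
  rw [e2, dotProduct_smul, smul_eq_mul, ← hh] at e1
  have e3 : ((h' : ℂ) - (h : ℂ)) * (star x ⬝ᵥ x') = 0 := by linear_combination e1
  rcases mul_eq_zero.mp e3 with h4 | h4
  · exfalso
    apply hne
    have := sub_eq_zero.mp h4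
    exact_mod_cast this
  · exact h4

theorem A_eq_Hu (A : Matrix (Fin 3) (Fin 3) ℂ) :
    A = Hu A 1 + Complex.I • Hu A (-Complex.I) := by
  ext i j
  simp only [Hu, Matrix.add_apply, Matrix.smul_apply, Matrix.conjTranspose_apply, smul_eq_mul,
    Complex.star_def, map_mul, one_mul, map_neg, Complex.conj_I, neg_neg]
  have := Complex.I_mul_I
  linear_combination ((1 / 2) * A i j - (1 / 2) * (starRingEnd ℂ) (A j i)) * this

theorem AH_eq_Hu (A : Matrix (Fin 3) (Fin 3) ℂ) :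
    Aᴴ = Hu A 1 - Complex.I • Hu A (-Complex.I) := by
  ext i j
  simp only [Hu, Matrix.add_apply, Matrix.sub_apply, Matrix.smul_apply,
    Matrix.conjTranspose_apply, smul_eq_mul,
    Complex.star_def, map_mul, one_mul, map_neg, Complex.conj_I, neg_neg]
  have := Complex.I_mul_I
  linear_combination (-(1 / 2) * A i j + (1 / 2) * (starRingEnd ℂ) (A j i)) * this

theorem claim_one (A : Matrix (Fin 3) (Fin 3) ℂ) (hNR : NoRed A) (hNF : NoFlat A)
    (e : Fin 3 → ℂ) (h : ∀ u : ℂ, ‖u‖ = 1 → ∀ x, Top A u x → star x ⬝ᵥ e = 0) : e = 0 := by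
  by_contra he
  have key : ∀ u : ℂ, ‖u‖ = 1 → ∃ c : ℂ, Hu A u *ᵥ e = c • e := by
    intro u hu
    have hu0 : u ≠ 0 := by intro h0; rw [h0] at hu; simp at hu
    obtain ⟨x, hx⟩ := exists_Top A u
    obtain ⟨x', hx'⟩ := exists_Top A (-u)
    obtain ⟨h1, _⟩ := top_bot A hNR hNF u hu0 x x' hx hx'
    have hxe := h u hu x hx
    have hxe' := h (-u) (by rw [norm_neg]; exact hu) x' hx'
    apply parallel_of_orth x x' e _ hx.1 hx'.1 h1 he hxe hxe'
    · rw [top_swap hx, hxe, mul_zero]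
    · have := top_swap hx' e
      rw [hxe', mul_zero, Hu_neg, Matrix.neg_mulVec, dotProduct_neg, neg_eq_zero] at this
      exact this
  obtain ⟨c, hc⟩ := key 1 (by simp)
  obtain ⟨c', hc'⟩ := key (-Complex.I) (by simp)
  apply hNR
  refine ⟨e, he, c + Complex.I * c', c - Complex.I * c', ?_, ?_⟩
  · conv_lhs => rw [A_eq_Hu A]
    rw [Matrix.add_mulVec, Matrix.smul_mulVec, hc, hc', add_smul, mul_smul]
  · rw [AH_eq_Hu A, Matrix.sub_mulVec, Matrix.smul_mulVec, hc, hc', sub_smul, mul_smul]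

theorem claim_two (A : Matrix (Fin 3) (Fin 3) ℂ) (hNR : NoRed A) (hNF : NoFlat A)
    (V : Matrix (Fin 3) (Fin 3) ℂ)
    (h : ∀ u : ℂ, ‖u‖ = 1 → ∀ x, Top A u x → ∃ μ : ℂ, V *ᵥ x = μ • x) :
    ∃ μ : ℂ, V = μ • 1 := by
  obtain ⟨x₁, hx₁⟩ := exists_Top A 1
  obtain ⟨μ₁, hμ₁⟩ := h 1 (by simp) x₁ hx₁
  have hne : ∀ x : Fin 3 → ℂ, star x ⬝ᵥ x = 1 → x ≠ 0 := by
    intro x hx h0
    rw [h0] at hx
    simp at hx
  set Λ : Set ℂ := {μ | μ ≠ μ₁ ∧ V.charpoly.eval μ = 0} with hΛ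
  have hΛfin : Λ.Finite := by
    apply (V.charpoly.roots.toFinset.finite_toSet).subset
    rintro μ ⟨_, h2⟩
    rw [Finset.mem_coe, Multiset.mem_toFinset, Polynomial.mem_roots V.charpoly_monic.ne_zero]
    exact h2
  have hΛmem : ∀ μ : ℂ, μ ≠ μ₁ → ∀ x : Fin 3 → ℂ, x ≠ 0 → V *ᵥ x = μ • x → μ ∈ Λ := by
    intro μ hμ x hx0 hVx
    refine ⟨hμ, ?_⟩
    rw [Matrix.eval_charpoly]
    rw [← Matrix.exists_mulVec_eq_zero_iff]
    refine ⟨x, hx0, ?_⟩
    rw [Matrix.sub_mulVec, hVx]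
    ext i
    simp [Matrix.scalar_apply]
  set proj : Set (Fin 3 → ℂ) → Set ℂ := fun F =>
    Prod.fst '' ({p : ℂ × (Fin 3 → ℂ) | ‖p.1‖ = 1 ∧ Top A p.1 p.2} ∩ {p | p.2 ∈ F}) with hproj
  have hclosed : ∀ F : Set (Fin 3 → ℂ), IsClosed F → IsClosed (proj F) := by
    intro F hF
    apply IsCompact.isClosed
    apply IsCompact.image _ continuous_fst
    apply (isCompact_Top A).inter_right
    exact hF.preimage continuous_snd
  have hVc : Continuous (fun x : Fin 3 → ℂ => V *ᵥ x) := by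
    apply continuous_pi
    intro i
    change Continuous (fun x : Fin 3 → ℂ => ∑ j, V i j * x j)
    fun_prop
  have hF : ∀ μ : ℂ, IsClosed {x : Fin 3 → ℂ | V *ᵥ x = μ • x} := by
    intro μ
    exact isClosed_eq hVc (continuous_const_smul μ)
  set F₁ : Set (Fin 3 → ℂ) := {x | V *ᵥ x = μ₁ • x} with hF₁
  set F₂ : Set (Fin 3 → ℂ) := ⋃ μ ∈ Λ, {x | V *ᵥ x = μ • x} with hF₂
  have hF₂c : IsClosed F₂ := hΛfin.isClosed_biUnion (fun μ _ => hF μ)
  have hpre : IsPreconnected (Metric.sphere (0 : ℂ) 1) := by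
    apply isPreconnected_sphere
    rw [Complex.rank_real_complex]
    norm_num
  have hcover : Metric.sphere (0 : ℂ) 1 ⊆ proj F₁ ∪ proj F₂ := by
    intro u hu
    have hu1 : ‖u‖ = 1 := by simpa using hu
    obtain ⟨x, hx⟩ := exists_Top A u
    obtain ⟨μ, hμ⟩ := h u hu1 x hx
    by_cases hμμ : μ = μ₁
    · left
      exact ⟨(u, x), ⟨⟨hu1, hx⟩, by rw [hμμ] at hμ; exact hμ⟩, rfl⟩
    · right
      refine ⟨(u, x), ⟨⟨hu1, hx⟩, ?_⟩, rfl⟩
      change x ∈ F₂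
      rw [hF₂]
      exact Set.mem_biUnion (hΛmem μ hμμ x (hne x hx.1) hμ) hμ
  have hdisj : ∀ u : ℂ, u ∈ proj F₁ → u ∈ proj F₂ → False := by
    rintro u ⟨⟨u1, x⟩, ⟨⟨hu1, hx⟩, hx1⟩, rfl⟩ ⟨⟨u2, y⟩, ⟨⟨hu2, hy⟩, hy2⟩, huu⟩
    change u2 = u1 at huu
    subst huu
    change ‖u2‖ = 1 at hu1
    change Top A u2 x at hx
    change Top A u2 y at hy
    change V *ᵥ x = μ₁ • x at hx1
    change y ∈ F₂ at hy2
    have hu0 : u2 ≠ 0 := by intro h0; rw [h0] at hu1; simp at hu1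
    rw [hF₂, Set.mem_iUnion₂] at hy2
    obtain ⟨μ, hμ, hVy⟩ := hy2
    change V *ᵥ y = μ • y at hVy
    obtain ⟨c, hc, hyx⟩ := Top.unique hNR hNF hu0 hx hy
    rw [hyx, Matrix.mulVec_smul, hx1, smul_smul, smul_smul, mul_comm c, ← sub_eq_zero,
      ← sub_smul, smul_eq_zero] at hVy
    rcases hVy with h1 | h1
    · have : (μ₁ - μ) * c = 0 := by linear_combination h1
      rcases mul_eq_zero.mp this with h2 | h2
      · exact hμ.1 (sub_eq_zero.mp h2).symm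
      · exact hc h2
    · exact hne x hx.1 h1
  rw [isPreconnected_closed_iff] at hpre
  have hall : ∀ u : ℂ, ‖u‖ = 1 → u ∈ proj F₁ := by
    intro u hu
    by_contra hnot
    have husph : u ∈ Metric.sphere (0 : ℂ) 1 := by simpa using hu
    have hu2 : u ∈ proj F₂ := by
      rcases hcover husph with h1 | h1
      · exact absurd h1 hnot
      · exact h1
    obtain ⟨v, _, hv1, hv2⟩ := hpre (proj F₁) (proj F₂) (hclosed _ (hF μ₁)) (hclosed _ hF₂c)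
      hcover ⟨1, by simp, ⟨(1, x₁), ⟨⟨by simp, hx₁⟩, hμ₁⟩, rfl⟩⟩ ⟨u, husph, hu2⟩
    exact hdisj v hv1 hv2
  refine ⟨μ₁, ?_⟩
  have hrow : ∀ i : Fin 3, star ((V - μ₁ • (1 : Matrix (Fin 3) (Fin 3) ℂ)) i) = 0 := by
    intro i
    apply claim_one A hNR hNF
    intro u hu x hx
    have hu0 : u ≠ 0 := by intro h0; rw [h0] at hu; simp at hu
    obtain ⟨⟨u1, y⟩, ⟨⟨_, hy⟩, hy1⟩, huu⟩ := hall u hu
    change u1 = u at huu
    subst huu
    change Top A u1 y at hy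
    change V *ᵥ y = μ₁ • y at hy1
    obtain ⟨c, hc, hxy⟩ := Top.unique hNR hNF hu0 hy hx
    have hVx : V *ᵥ x = μ₁ • x := by
      rw [hxy, Matrix.mulVec_smul, hy1, smul_comm]
    have h1 : (V - μ₁ • (1 : Matrix (Fin 3) (Fin 3) ℂ)) *ᵥ x = 0 := by
      rw [Matrix.sub_mulVec, Matrix.smul_mulVec, Matrix.one_mulVec, hVx, sub_self]
    have h2 := congrFun h1 i
    rw [Matrix.mulVec] at h2
    rw [dot_swap, star_star, h2]
    simp
  have hzero : V - μ₁ • (1 : Matrix (Fin 3) (Fin 3) ℂ) = 0 := by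
    ext i j
    have h1 := congrFun (hrow i) j
    rw [Pi.star_apply, Pi.zero_apply, star_eq_zero] at h1
    exact h1
  exact sub_eq_zero.mp hzero

end Pool.Agent.Helper774
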