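import Mathlib
import Pool.Agent.Helper774.NegB
open Matrix
open scoped ComplexOrder InnerProductSpace
open Filter Topology

namespace Pool.Agent.Helper774

/-- the defect form -/
noncomputable def Qf (A : Matrix (Fin 3) (Fin 3) ℂ) (u : ℂ) (x : Fin 3 → ℂ)
    (V : Matrix (Fin 3) (Fin 3) ℂ) : ℝ :=
  (u * (star x ⬝ᵥ (A *ᵥ x))).re * (star (V *ᵥ x) ⬝ᵥ (V *ᵥ x)).re
    - (u * (star (V *ᵥ x) ⬝ᵥ (A *ᵥ (V *ᵥ x)))).re

theorem Qf_shift {A : Matrix (Fin 3) (Fin 3) ℂ} {u : ℂ} {x : Fin 3 → ℂ} (hx : Top A u x)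
    (V : Matrix (Fin 3) (Fin 3) ℂ) (c : ℂ) : Qf A u x (V + c • 1) = Qf A u x V := by
  unfold Qf
  rw [Matrix.add_mulVec, Matrix.smul_mulVec, Matrix.one_mulVec]
  exact top_decomp hx (V *ᵥ x) c

theorem Qf_smul (A : Matrix (Fin 3) (Fin 3) ℂ) (u : ℂ) (x : Fin 3 → ℂ)
    (V : Matrix (Fin 3) (Fin 3) ℂ) (s : ℝ) : Qf A u x ((s : ℂ) • V) = s ^ 2 * Qf A u x V := by
  unfold Qf
  have e1 : star (((s : ℂ) • V) *ᵥ x) ⬝ᵥ (A *ᵥ (((s : ℂ) • V) *ᵥ x))
      = ((s ^ 2 : ℝ) : ℂ) * (star (V *ᵥ x) ⬝ᵥ (A *ᵥ (V *ᵥ x))) := by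
    rw [Matrix.smul_mulVec, star_smul, Matrix.mulVec_smul, smul_dotProduct, dotProduct_smul,
      smul_eq_mul, smul_eq_mul, Complex.star_def, Complex.conj_ofReal]
    push_cast; ring
  have e2 : star (((s : ℂ) • V) *ᵥ x) ⬝ᵥ (((s : ℂ) • V) *ᵥ x)
      = ((s ^ 2 : ℝ) : ℂ) * (star (V *ᵥ x) ⬝ᵥ (V *ᵥ x)) := by
    rw [Matrix.smul_mulVec, star_smul, smul_dotProduct, dotProduct_smul,
      smul_eq_mul, smul_eq_mul, Complex.star_def, Complex.conj_ofReal]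
    push_cast; ring
  rw [e1, e2, mul_left_comm u, Complex.re_ofReal_mul, Complex.re_ofReal_mul]
  ring

theorem continuous_mulVec_left (x : Fin 3 → ℂ) :
    Continuous (fun V : Matrix (Fin 3) (Fin 3) ℂ => V *ᵥ x) := by
  apply continuous_pi
  intro i
  change Continuous (fun V : Fin 3 → Fin 3 → ℂ => ∑ j, V i j * x j)
  fun_prop

theorem Qf_continuous (A : Matrix (Fin 3) (Fin 3) ℂ) (u : ℂ) (x : Fin 3 → ℂ) :
    Continuous (fun V : Matrix (Fin 3) (Fin 3) ℂ => Qf A u x V) := by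
  unfold Qf
  apply Continuous.sub
  · apply Continuous.mul continuous_const
    exact Complex.continuous_re.comp (continuous_dot.comp
      ((continuous_mulVec_left x).prodMk (continuous_mulVec_left x)))
  · exact Complex.continuous_re.comp (continuous_const.mul
      ((continuous_quad A).comp (continuous_mulVec_left x)))

/-- the remainder after removing the component along a unit vector -/
theorem remainder (x y : Fin 3 → ℂ) (hx : star x ⬝ᵥ x = 1) :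
    star x ⬝ᵥ (y - (star x ⬝ᵥ y) • x) = 0 := by
  rw [dotProduct_sub, dotProduct_smul, hx, smul_eq_mul, mul_one, sub_self]

theorem remainder_norm (x y : Fin 3 → ℂ) (hx : star x ⬝ᵥ x = 1) :
    (star (y - (star x ⬝ᵥ y) • x) ⬝ᵥ (y - (star x ⬝ᵥ y) • x)).re
      = (star y ⬝ᵥ y).re - Complex.normSq (star x ⬝ᵥ y) := by
  have h1 := remainder x y hx
  have h2 : star (y - (star x ⬝ᵥ y) • x) ⬝ᵥ (y - (star x ⬝ᵥ y) • x)
      = star y ⬝ᵥ y - (Complex.normSq (star x ⬝ᵥ y) : ℂ) := by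
    rw [star_sub, star_smul, sub_dotProduct, smul_dotProduct, h1, smul_zero, sub_zero,
      dotProduct_sub, dotProduct_smul, smul_eq_mul, dot_swap y x, Complex.mul_conj]
  rw [h2, Complex.sub_re, Complex.ofReal_re]

section Gap

variable {A : Matrix (Fin 3) (Fin 3) ℂ} {g : ℝ}

theorem gap_full
    (hg : ∀ u : ℂ, ‖u‖ = 1 → ∀ x, Top A u x → ∀ z, star z ⬝ᵥ z = 1 →
      star x ⬝ᵥ z = 0 →
      (u * (star z ⬝ᵥ (A *ᵥ z))).re + g ≤ (u * (star x ⬝ᵥ (A *ᵥ x))).re)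
    {u : ℂ} (hu : ‖u‖ = 1) {x : Fin 3 → ℂ} (hx : Top A u x) (y : Fin 3 → ℂ) :
    g * ((star y ⬝ᵥ y).re - Complex.normSq (star x ⬝ᵥ y)) ≤
      (u * (star x ⬝ᵥ (A *ᵥ x))).re * (star y ⬝ᵥ y).re - (u * (star y ⬝ᵥ (A *ᵥ y))).re := by
  have h1 := gap_vec hg hu hx _ (remainder x y hx.1)
  have h2 := top_decomp hx (y - (star x ⬝ᵥ y) • x) (star x ⬝ᵥ y)
  rw [sub_add_cancel] at h2
  rw [h2, ← remainder_norm x y hx.1]
  exact h1

end Gap

theorem Qf_nonneg {A : Matrix (Fin 3) (Fin 3) ℂ} (hNR : NoRed A) (hNF : NoFlat A) {u : ℂ}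
    (hu : ‖u‖ = 1) {x : Fin 3 → ℂ} (hx : Top A u x) (V : Matrix (Fin 3) (Fin 3) ℂ) :
    0 ≤ Qf A u x V := by
  obtain ⟨g, hgpos, hg⟩ := exists_gap A hNR hNF
  have h1 := gap_full hg hu hx (V *ᵥ x)
  rw [← remainder_norm x _ hx.1] at h1
  have h2 := dot_self_re_nonneg (V *ᵥ x - (star x ⬝ᵥ (V *ᵥ x)) • x)
  unfold Qf
  have := mul_nonneg hgpos.le h2
  linarith

theorem Qf_zero {A : Matrix (Fin 3) (Fin 3) ℂ} (hNR : NoRed A) (hNF : NoFlat A) {u : ℂ}
    (hu : ‖u‖ = 1) {x : Fin 3 → ℂ} (hx : Top A u x) (V : Matrix (Fin 3) (Fin 3) ℂ)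
    (h0 : Qf A u x V = 0) : ∃ μ : ℂ, V *ᵥ x = μ • x := by
  obtain ⟨g, hgpos, hg⟩ := exists_gap A hNR hNF
  have h1 := gap_full hg hu hx (V *ᵥ x)
  rw [← remainder_norm x _ hx.1] at h1
  have h2 := dot_self_re_nonneg (V *ᵥ x - (star x ⬝ᵥ (V *ᵥ x)) • x)
  unfold Qf at h0
  rw [h0] at h1
  have h3 : (star (V *ᵥ x - (star x ⬝ᵥ (V *ᵥ x)) • x) ⬝ᵥ
      (V *ᵥ x - (star x ⬝ᵥ (V *ᵥ x)) • x)).re = 0 := by
    apply le_antisymm _ h2
    by_contra hlt
    push Not at hlt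
    have := mul_pos hgpos hlt
    linarith
  exact ⟨_, sub_eq_zero.mp (dot_self_re_eq_zero h3)⟩

/-- the traceless unit sphere of matrices -/
theorem isCompact_traceless :
    IsCompact {V : Matrix (Fin 3) (Fin 3) ℂ | V 0 0 + V 1 1 + V 2 2 = 0 ∧
      ∑ i, ∑ j, ‖V i j‖ ^ 2 = 1} := by
  have h : IsCompact {V : Fin 3 → Fin 3 → ℂ | V 0 0 + V 1 1 + V 2 2 = 0 ∧
      ∑ i, ∑ j, ‖V i j‖ ^ 2 = 1} := by
    apply Metric.isCompact_of_isClosed_isBounded
    · apply IsClosed.inter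
      · apply isClosed_eq _ continuous_const
        fun_prop
      · apply isClosed_eq _ continuous_const
        fun_prop
    · rw [Metric.isBounded_iff_subset_closedBall 0]
      refine ⟨1, ?_⟩
      rintro V ⟨_, hV⟩
      rw [mem_closedBall_zero_iff, pi_norm_le_iff_of_nonneg zero_le_one]
      intro i
      rw [pi_norm_le_iff_of_nonneg zero_le_one]
      intro j
      have h1 : ‖V i j‖ ^ 2 ≤ 1 := by
        rw [← hV]
        calc ‖V i j‖ ^ 2 ≤ ∑ j, ‖V i j‖ ^ 2 :=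
              Finset.single_le_sum (f := fun j => ‖V i j‖ ^ 2) (fun j _ => by positivity)
                (Finset.mem_univ j)
          _ ≤ ∑ i, ∑ j, ‖V i j‖ ^ 2 :=
              Finset.single_le_sum (f := fun i => ∑ j, ‖V i j‖ ^ 2) (fun i _ => by positivity)
                (Finset.mem_univ i)
      nlinarith [norm_nonneg (V i j)]
  exact h

theorem coercive (A : Matrix (Fin 3) (Fin 3) ℂ) (hNR : NoRed A) (hNF : NoFlat A)
    (l : Matrix (Fin 3) (Fin 3) ℂ → ℝ) (hc : Continuous l)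
    (hs : ∀ (s : ℝ) V, l ((s : ℂ) • V) = s ^ 2 * l V)
    (hsh : ∀ (c : ℂ) V, l (V + c • 1) = l V) :
    ∃ (t : Finset {p : ℂ × (Fin 3 → ℂ) // ‖p.1‖ = 1 ∧ Top A p.1 p.2}) (C : ℝ), 0 ≤ C ∧
      ∀ V, l V ≤ C * ∑ p ∈ t, Qf A p.1.1 p.1.2 V := by
  classical
  set K₀ : Set (Matrix (Fin 3) (Fin 3) ℂ) := {V | V 0 0 + V 1 1 + V 2 2 = 0 ∧
      ∑ i, ∑ j, ‖V i j‖ ^ 2 = 1} with hK₀
  have hK₀c : IsCompact K₀ := isCompact_traceless
  have hpt : ∀ V ∈ K₀, ∃ p : {p : ℂ × (Fin 3 → ℂ) // ‖p.1‖ = 1 ∧ Top A p.1 p.2},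
      0 < Qf A p.1.1 p.1.2 V := by
    rintro V ⟨htr, hn⟩
    by_contra hcon
    push Not at hcon
    have h1 : ∀ u : ℂ, ‖u‖ = 1 → ∀ x, Top A u x → ∃ μ : ℂ, V *ᵥ x = μ • x := by
      intro u hu x hx
      apply Qf_zero hNR hNF hu hx
      exact le_antisymm (hcon ⟨(u, x), hu, hx⟩) (Qf_nonneg hNR hNF hu hx V)
    obtain ⟨μ, hμ⟩ := claim_two A hNR hNF V h1
    have hμ0 : μ = 0 := by
      rw [hμ] at htr
      simp at htr
      linear_combination htr / 3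
    rw [hμ, hμ0] at hn
    simp at hn
  obtain ⟨t, ht⟩ := hK₀c.elim_finite_subcover
    (fun p : {p : ℂ × (Fin 3 → ℂ) // ‖p.1‖ = 1 ∧ Top A p.1 p.2} => {V | 0 < Qf A p.1.1 p.1.2 V})
    (fun p => isOpen_lt continuous_const (Qf_continuous A _ _))
    (fun V hV => by
      obtain ⟨p, hp⟩ := hpt V hV
      exact Set.mem_iUnion.mpr ⟨p, hp⟩)
  set Q : Matrix (Fin 3) (Fin 3) ℂ → ℝ := fun V => ∑ p ∈ t, Qf A p.1.1 p.1.2 V with hQ
  have hQc : Continuous Q := continuous_finsetSum _ (fun p _ => Qf_continuous A _ _)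
  have hQnn : ∀ V, 0 ≤ Q V := fun V => Finset.sum_nonneg
    (fun p _ => Qf_nonneg hNR hNF p.2.1 p.2.2 V)
  have hQpos : ∀ V ∈ K₀, 0 < Q V := by
    intro V hV
    obtain ⟨p, hp, hpos⟩ := Set.mem_iUnion₂.mp (ht hV)
    exact lt_of_lt_of_le hpos (Finset.single_le_sum (f := fun p => Qf A p.1.1 p.1.2 V)
      (fun p _ => Qf_nonneg hNR hNF p.2.1 p.2.2 V) hp)
  have hQs : ∀ (s : ℝ) V, Q ((s : ℂ) • V) = s ^ 2 * Q V := by
    intro s V
    rw [hQ]
    simp only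
    rw [Finset.mul_sum]
    exact Finset.sum_congr rfl (fun p _ => Qf_smul A _ _ V s)
  have hQsh : ∀ (c : ℂ) V, Q (V + c • 1) = Q V := by
    intro c V
    exact Finset.sum_congr rfl (fun p _ => Qf_shift p.2.2 V c)
  have hl0 : l 0 = 0 := by
    have := hs 0 0
    simpa using this
  -- bound on the compact set
  obtain ⟨C, hC0, hC⟩ : ∃ C : ℝ, 0 ≤ C ∧ ∀ V ∈ K₀, l V ≤ C * Q V := by
    by_cases hne : K₀.Nonempty
    · obtain ⟨V₁, hV₁, hmax⟩ := hK₀c.exists_isMaxOn hne hc.continuousOn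
      obtain ⟨V₂, hV₂, hmin⟩ := hK₀c.exists_isMinOn hne hQc.continuousOn
      have hpos := hQpos V₂ hV₂
      refine ⟨|l V₁| / Q V₂, by positivity, ?_⟩
      intro V hV
      have h1 : l V ≤ l V₁ := hmax hV
      have h2 : Q V₂ ≤ Q V := hmin hV
      calc l V ≤ |l V₁| := h1.trans (le_abs_self _)
        _ = |l V₁| / Q V₂ * Q V₂ := by field_simp
        _ ≤ |l V₁| / Q V₂ * Q V := by
            apply mul_le_mul_of_nonneg_left h2
            positivity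
    · exact ⟨0, le_refl 0, fun V hV => absurd ⟨V, hV⟩ hne⟩
  refine ⟨t, C, hC0, ?_⟩
  -- traceless case
  have htl : ∀ V : Matrix (Fin 3) (Fin 3) ℂ, V 0 0 + V 1 1 + V 2 2 = 0 → l V ≤ C * Q V := by
    intro V htr
    by_cases hV0 : V = 0
    · rw [hV0, hl0]
      exact mul_nonneg hC0 (hQnn 0)
    set n : ℝ := ∑ i, ∑ j, ‖V i j‖ ^ 2 with hn
    have hnpos : 0 < n := by
      rcases (show 0 ≤ n by positivity).lt_or_eq with h | h
      · exact h
      · exfalso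
        apply hV0
        ext i j
        have h1 := (Finset.sum_eq_zero_iff_of_nonneg (fun i _ => by positivity)).mp h.symm i
          (Finset.mem_univ i)
        have h2 := (Finset.sum_eq_zero_iff_of_nonneg (fun j _ => by positivity)).mp h1 j
          (Finset.mem_univ j)
        simpa using h2
    set s : ℝ := (Real.sqrt n)⁻¹ with hsdef
    have hspos : 0 < s := by positivity
    have hs2 : s ^ 2 * n = 1 := by
      rw [hsdef, inv_pow, Real.sq_sqrt hnpos.le, inv_mul_cancel₀ hnpos.ne']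
    have hmem : (s : ℂ) • V ∈ K₀ := by
      constructor
      · simp only [Matrix.smul_apply, smul_eq_mul]
        linear_combination (s : ℂ) * htr
      · simp only [Matrix.smul_apply, smul_eq_mul, norm_mul, Complex.norm_real, mul_pow,
          Real.norm_eq_abs, sq_abs]
        simp only [← Finset.mul_sum]
        rw [← hn]
        exact hs2
    have h1 := hC _ hmem
    rw [hs, hQs, mul_left_comm] at h1
    exact le_of_mul_le_mul_left h1 (by positivity)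
  intro V
  set c : ℂ := (V 0 0 + V 1 1 + V 2 2) / 3 with hcdef
  have h1 := htl (V + (-c) • 1) (by
    simp [hcdef]
    ring)
  rw [hsh, hQsh] at h1
  exact h1

end Pool.Agent.Helper774
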