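import Mathlib
import Pool.Agent.Helper774.NegC
open Matrix
open scoped ComplexOrder InnerProductSpace
open Filter Topology

namespace Pool.Agent.Helper774

/-- `Hu A u` as a real combination of `Hu A 1` and `Hu A (-I)` -/
theorem Hu_comb (A : Matrix (Fin 3) (Fin 3) ℂ) (u : ℂ) :
    Hu A u = (u.re : ℂ) • Hu A 1 - (u.im : ℂ) • Hu A (-Complex.I) := by
  ext i j
  simp only [Hu, Matrix.add_apply, Matrix.sub_apply, Matrix.smul_apply,
    Matrix.conjTranspose_apply, smul_eq_mul,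
    Complex.star_def, map_mul, one_mul, map_neg, Complex.conj_I, neg_neg]
  have h1 : u = u.re + u.im * Complex.I := (Complex.re_add_im u).symm
  have h2 : starRingEnd ℂ u = u.re - u.im * Complex.I := by
    apply Complex.ext <;> simp
  rw [h2]
  linear_combination ((1 / 2) * A i j) * h1

theorem exists_eigenbasis (A : Matrix (Fin 3) (Fin 3) ℂ) (hNR : NoRed A) (hNF : NoFlat A)
    (u : ℂ) (hu : u ≠ 0) :
    ∃ (x : Fin 3 → (Fin 3 → ℂ)) (k : Fin 3 → ℝ),
      (∀ i j, star (x i) ⬝ᵥ x j = if i = j then 1 else 0) ∧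
      (∀ f : Fin 3 → ℂ, f = ∑ i, (star (x i) ⬝ᵥ f) • x i) ∧
      (∀ i, Hu A u *ᵥ x i = (k i : ℂ) • x i) ∧ Function.Injective k := by
  obtain ⟨x, hx⟩ := exists_Top A u
  obtain ⟨x', hx'⟩ := exists_Top A (-u)
  obtain ⟨hxx', hlt⟩ := top_bot A hNR hNF u hu x x' hx hx'
  obtain ⟨g, hg, hxg, hx'g, hexp⟩ := exists_third x x' hx.1 hx'.1 hxx'
  have hx'x : star x' ⬝ᵥ x = 0 := by rw [dot_swap, hxx', map_zero]
  have hgx : star g ⬝ᵥ x = 0 := by rw [dot_swap, hxg, map_zero]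
  have hgx' : star g ⬝ᵥ x' = 0 := by rw [dot_swap, hx'g, map_zero]
  have hHx : Hu A u *ᵥ x = (((u * (star x ⬝ᵥ (A *ᵥ x))).re : ℝ) : ℂ) • x := hx.eig
  have hHx' : Hu A u *ᵥ x' = (((u * (star x' ⬝ᵥ (A *ᵥ x'))).re : ℝ) : ℂ) • x' := by
    have := hx'.eig
    rw [Hu_neg, Matrix.neg_mulVec, neg_mul, Complex.neg_re, Complex.ofReal_neg,
      neg_smul] at this
    exact neg_injective this
  have hHg : Hu A u *ᵥ g = (((u * (star g ⬝ᵥ (A *ᵥ g))).re : ℝ) : ℂ) • g := by
    have e1 := hexp (Hu A u *ᵥ g)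
    rw [top_swap hx, hxg, mul_zero, zero_smul, zero_add, quad_Hu] at e1
    have e2 : star x' ⬝ᵥ (Hu A u *ᵥ g) = 0 := by
      have := top_swap hx' g
      rw [hx'g, mul_zero, Hu_neg, Matrix.neg_mulVec, dotProduct_neg, neg_eq_zero] at this
      exact this
    rw [e2, zero_smul, zero_add] at e1
    exact e1
  have hgne1 : (u * (star g ⬝ᵥ (A *ᵥ g))).re ≠ (u * (star x ⬝ᵥ (A *ᵥ x))).re := by
    intro h
    rw [h] at hHg
    exact no_two_tops A hNR hNF u hu x g hx (hx.of_eig hg hHg) hxg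
  have hgne2 : (u * (star g ⬝ᵥ (A *ᵥ g))).re ≠ (u * (star x' ⬝ᵥ (A *ᵥ x'))).re := by
    intro h
    rw [h] at hHg
    apply no_two_tops A hNR hNF (-u) (neg_ne_zero.mpr hu) x' g hx' (hx'.of_eig hg _) hx'g
    rw [Hu_neg, Matrix.neg_mulVec, hHg, neg_mul, Complex.neg_re, Complex.ofReal_neg, neg_smul]
  refine ⟨![x, x', g], ![(u * (star x ⬝ᵥ (A *ᵥ x))).re, (u * (star x' ⬝ᵥ (A *ᵥ x'))).re,
    (u * (star g ⬝ᵥ (A *ᵥ g))).re], ?_, ?_, ?_, ?_⟩
  · intro i j
    fin_cases i <;> fin_cases j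
    · simpa using hx.1
    · simpa using hxx'
    · simpa using hxg
    · simpa using hx'x
    · simpa using hx'.1
    · simpa using hx'g
    · simpa using hgx
    · simpa using hgx'
    · simpa using hg
  · intro f
    rw [Fin.sum_univ_three]
    exact hexp f
  · intro i
    fin_cases i
    · exact hHx
    · exact hHx'
    · exact hHg
  · intro i j hij
    fin_cases i <;> fin_cases j
    · rfl
    · exact absurd (show (u * (star x ⬝ᵥ (A *ᵥ x))).re = (u * (star x' ⬝ᵥ (A *ᵥ x'))).re from hij)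
        hlt.ne'
    · exact absurd (show (u * (star x ⬝ᵥ (A *ᵥ x))).re = (u * (star g ⬝ᵥ (A *ᵥ g))).re from hij)
        (Ne.symm hgne1)
    · exact absurd (show (u * (star x' ⬝ᵥ (A *ᵥ x'))).re = (u * (star x ⬝ᵥ (A *ᵥ x))).re from hij)
        hlt.ne
    · rfl
    · exact absurd (show (u * (star x' ⬝ᵥ (A *ᵥ x'))).re = (u * (star g ⬝ᵥ (A *ᵥ g))).re from hij)
        (Ne.symm hgne2)
    · exact absurd (show (u * (star g ⬝ᵥ (A *ᵥ g))).re = (u * (star x ⬝ᵥ (A *ᵥ x))).re from hij)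
        hgne1
    · exact absurd (show (u * (star g ⬝ᵥ (A *ᵥ g))).re = (u * (star x' ⬝ᵥ (A *ᵥ x'))).re from hij)
        hgne2
    · rfl

theorem commute_eig (K S : Matrix (Fin 3) (Fin 3) ℂ) (hK : K.IsHermitian)
    (x : Fin 3 → (Fin 3 → ℂ)) (k : Fin 3 → ℝ)
    (hexp : ∀ f : Fin 3 → ℂ, f = ∑ i, (star (x i) ⬝ᵥ f) • x i)
    (hKx : ∀ i, K *ᵥ x i = (k i : ℂ) • x i) (hinj : Function.Injective k)
    (hcomm : K * S = S * K) (i : Fin 3) : S *ᵥ x i = (star (x i) ⬝ᵥ (S *ᵥ x i)) • x i := by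
  have h1 : ∀ j, j ≠ i → star (x j) ⬝ᵥ (S *ᵥ x i) = 0 := by
    intro j hj
    have e1 : star (x j) ⬝ᵥ (K *ᵥ (S *ᵥ x i)) = (k j : ℂ) * (star (x j) ⬝ᵥ (S *ᵥ x i)) := by
      rw [herm_swap hK, hKx, dotProduct_smul, smul_eq_mul, map_mul, Complex.conj_ofReal,
        ← dot_swap]
    have e2 : star (x j) ⬝ᵥ (K *ᵥ (S *ᵥ x i)) = (k i : ℂ) * (star (x j) ⬝ᵥ (S *ᵥ x i)) := by
      rw [Matrix.mulVec_mulVec, hcomm, ← Matrix.mulVec_mulVec, hKx, Matrix.mulVec_smul,
        dotProduct_smul, smul_eq_mul]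
    have e3 : ((k j : ℂ) - (k i : ℂ)) * (star (x j) ⬝ᵥ (S *ᵥ x i)) = 0 := by
      linear_combination e2 - e1
    rcases mul_eq_zero.mp e3 with h | h
    · exfalso
      apply hj
      apply hinj
      have := sub_eq_zero.mp h
      exact_mod_cast this
    · exact h
  conv_lhs => rw [hexp (S *ᵥ x i)]
  rw [Finset.sum_eq_single i]
  · intro j _ hj
    rw [h1 j hj, zero_smul]
  · intro h
    exact absurd (Finset.mem_univ i) h

theorem interp (k σ : Fin 3 → ℝ) (hinj : Function.Injective k) :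
    ∃ α b c : ℝ, ∀ i, σ i = α * k i ^ 2 + b * k i + c := by
  have h01 : k 1 - k 0 ≠ 0 := by
    intro h
    have := hinj (sub_eq_zero.mp h)
    exact absurd this (by decide)
  have h02 : k 2 - k 0 ≠ 0 := by
    intro h
    have := hinj (sub_eq_zero.mp h)
    exact absurd this (by decide)
  have h12 : k 2 - k 1 ≠ 0 := by
    intro h
    have := hinj (sub_eq_zero.mp h)
    exact absurd this (by decide)
  set c1 : ℝ := (σ 1 - σ 0) / (k 1 - k 0) with hc1
  set c2 : ℝ := ((σ 2 - σ 0) / (k 2 - k 0) - c1) / (k 2 - k 1) with hc2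
  have e1 : c1 * (k 1 - k 0) = σ 1 - σ 0 := by rw [hc1]; field_simp
  have e2 : c2 * (k 2 - k 1) * (k 2 - k 0) = σ 2 - σ 0 - c1 * (k 2 - k 0) := by
    rw [hc2]; field_simp
  refine ⟨c2, c1 - c2 * (k 0 + k 1), σ 0 - c1 * k 0 + c2 * k 0 * k 1, ?_⟩
  intro i
  fin_cases i
  · change σ 0 = _ * k 0 ^ 2 + _ * k 0 + _
    ring
  · change σ 1 = _ * k 1 ^ 2 + _ * k 1 + _
    linear_combination -e1
  · change σ 2 = _ * k 2 ^ 2 + _ * k 2 + _
    linear_combination -e2

theorem eq_of_basis (M N : Matrix (Fin 3) (Fin 3) ℂ) (x : Fin 3 → (Fin 3 → ℂ))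
    (hexp : ∀ f : Fin 3 → ℂ, f = ∑ i, (star (x i) ⬝ᵥ f) • x i)
    (h : ∀ i, M *ᵥ x i = N *ᵥ x i) : M = N := by
  have key : ∀ f : Fin 3 → ℂ, M *ᵥ f = N *ᵥ f := by
    intro f
    rw [hexp f]
    simp only [Matrix.mulVec_sum, Matrix.mulVec_smul, h]
  ext i j
  have := congrFun (key (Pi.single j 1)) i
  simpa using this

/-- the direction of perturbation -/
noncomputable def Bm (A : Matrix (Fin 3) (Fin 3) ℂ) : Matrix (Fin 3) (Fin 3) ℂ :=
  Complex.I • (Hu A 1 * Hu A 1 * Hu A (-Complex.I) - Hu A (-Complex.I) * (Hu A 1 * Hu A 1))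

theorem Bm_isHermitian (A : Matrix (Fin 3) (Fin 3) ℂ) : (Bm A).IsHermitian := by
  unfold Matrix.IsHermitian Bm
  rw [conjTranspose_smul, conjTranspose_sub]
  simp only [conjTranspose_mul]
  rw [(Hu_isHermitian A 1).eq, (Hu_isHermitian A (-Complex.I)).eq,
    Complex.star_def, Complex.conj_I, neg_smul, ← smul_neg, neg_sub]

theorem Bm_quad_top (A : Matrix (Fin 3) (Fin 3) ℂ) (u : ℂ) (hu : ‖u‖ = 1) (x : Fin 3 → ℂ)
    (hx : Top A u x) : star x ⬝ᵥ (Bm A *ᵥ x) = 0 := by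
  set H := Hu A 1 with hH
  set K := Hu A (-Complex.I) with hK
  have hB : star x ⬝ᵥ (Bm A *ᵥ x)
      = Complex.I * (star x ⬝ᵥ ((H * H * K) *ᵥ x) - star x ⬝ᵥ ((K * (H * H)) *ᵥ x)) := by
    rw [Bm, Matrix.smul_mulVec, Matrix.sub_mulVec, dotProduct_smul, dotProduct_sub, smul_eq_mul]
  by_cases him : u.im = 0
  · -- `x` is an eigenvector of `H`
    have hre : (u.re : ℂ) ≠ 0 := by
      intro h0
      have h1 : u = 0 := by
        apply Complex.ext
        · exact_mod_cast h0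
        · exact him
      rw [h1] at hu
      simp at hu
    have h1 : (u.re : ℂ) • (H *ᵥ x) = (((u * (star x ⬝ᵥ (A *ᵥ x))).re : ℝ) : ℂ) • x := by
      have := hx.eig
      rw [Hu_comb, him, Complex.ofReal_zero, zero_smul, sub_zero, Matrix.smul_mulVec] at this
      exact this
    set m : ℂ := (((u * (star x ⬝ᵥ (A *ᵥ x))).re : ℝ) : ℂ) / (u.re : ℂ) with hm
    have h2 : H *ᵥ x = m • x := by
      rw [hm, div_eq_inv_mul, mul_smul, ← h1, smul_smul, inv_mul_cancel₀ hre, one_smul]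
    have hmreal : starRingEnd ℂ m = m := by
      rw [hm, map_div₀, Complex.conj_ofReal, Complex.conj_ofReal]
    have h3 : ∀ y, star x ⬝ᵥ (H *ᵥ y) = m * (star x ⬝ᵥ y) := by
      intro y
      rw [herm_swap (Hu_isHermitian A 1), h2, dotProduct_smul, smul_eq_mul, map_mul, hmreal,
        ← dot_swap]
    have e1 : star x ⬝ᵥ ((H * H * K) *ᵥ x) = m * (m * (star x ⬝ᵥ (K *ᵥ x))) := by
      rw [← Matrix.mulVec_mulVec, ← Matrix.mulVec_mulVec, h3, h3]
    have e2 : star x ⬝ᵥ ((K * (H * H)) *ᵥ x) = m * (m * (star x ⬝ᵥ (K *ᵥ x))) := by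
      rw [← Matrix.mulVec_mulVec, ← Matrix.mulVec_mulVec, h2, Matrix.mulVec_smul, h2,
        smul_smul, Matrix.mulVec_smul, dotProduct_smul, smul_eq_mul, mul_assoc]
    rw [hB, e1, e2, sub_self, mul_zero]
  · set h : ℝ := (u * (star x ⬝ᵥ (A *ᵥ x))).re with hh
    have him' : (u.im : ℂ) ≠ 0 := by exact_mod_cast him
    have e1 : star x ⬝ᵥ ((Hu A u * (H * H)) *ᵥ x) = (h : ℂ) * (star x ⬝ᵥ ((H * H) *ᵥ x)) := by
      rw [← Matrix.mulVec_mulVec, top_swap hx]
    have e2 : star x ⬝ᵥ ((H * H * Hu A u) *ᵥ x) = (h : ℂ) * (star x ⬝ᵥ ((H * H) *ᵥ x)) := by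
      rw [← Matrix.mulVec_mulVec, hx.eig, Matrix.mulVec_smul, dotProduct_smul, smul_eq_mul]
    have e3 : Hu A u * (H * H) - H * H * Hu A u
        = (u.im : ℂ) • (H * H * K - K * (H * H)) := by
      rw [Hu_comb, ← hH, ← hK, sub_mul, mul_sub, smul_mul_assoc, smul_mul_assoc,
        mul_smul_comm, mul_smul_comm, smul_sub, mul_assoc H H H]
      abel
    have e4 : star x ⬝ᵥ ((Hu A u * (H * H) - H * H * Hu A u) *ᵥ x) = 0 := by
      rw [Matrix.sub_mulVec, dotProduct_sub, e1, e2, sub_self]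
    rw [e3, Matrix.smul_mulVec, dotProduct_smul, smul_eq_mul, Matrix.sub_mulVec,
      dotProduct_sub] at e4
    rcases mul_eq_zero.mp e4 with h5 | h5
    · exact absurd h5 him'
    · rw [hB, h5, mul_zero]

theorem Bm_not_tangent (A : Matrix (Fin 3) (Fin 3) ℂ) (hNR : NoRed A) (hNF : NoFlat A)
    (S : Matrix (Fin 3) (Fin 3) ℂ) (hS : Sᴴ = -S) (hB : Bm A = A * S - S * A) : False := by
  set H := Hu A 1 with hH
  set K := Hu A (-Complex.I) with hK
  have hHh : Hᴴ = H := Hu_isHermitian A 1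
  have hKh : Kᴴ = K := Hu_isHermitian A (-Complex.I)
  have hA : A = H + Complex.I • K := A_eq_Hu A
  have hI : (Complex.I : ℂ) ≠ 0 := Complex.I_ne_zero
  -- first and adjoint equations
  have h1 : Bm A = (H + Complex.I • K) * S - S * (H + Complex.I • K) := by
    rw [← hA]; exact hB
  have h2 : Bm A = (H - Complex.I • K) * S - S * (H - Complex.I • K) := by
    have h3 := congrArg conjTranspose h1
    rw [(Bm_isHermitian A).eq, conjTranspose_sub, conjTranspose_mul, conjTranspose_mul,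
      conjTranspose_add, conjTranspose_smul, hHh, hKh, hS, Complex.star_def,
      Complex.conj_I] at h3
    rw [h3]
    simp only [neg_smul, mul_add, add_mul, mul_sub, sub_mul, mul_neg, neg_mul, neg_neg]
    abel
  have hcomm : K * S = S * K := by
    have h3 := h1.symm.trans h2
    simp only [mul_add, add_mul, mul_sub, sub_mul, smul_mul_assoc, mul_smul_comm] at h3
    have h4 : (2 * Complex.I) • (K * S) = (2 * Complex.I) • (S * K) := by
      have h5 : Complex.I • (K * S) + Complex.I • (K * S)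
          = Complex.I • (S * K) + Complex.I • (S * K) := by
        have h6 := sub_eq_zero.mpr h3
        rw [← sub_eq_zero]
        rw [← h6]
        abel
      rw [mul_smul, mul_smul, two_smul, two_smul]
      exact h5
    exact smul_right_injective _ (mul_ne_zero two_ne_zero hI) h4
  have hHS : Bm A = H * S - S * H := by
    rw [h1, add_mul, mul_add, smul_mul_assoc, mul_smul_comm, hcomm]
    abel
  -- the eigenbasis of `K`
  obtain ⟨x, k, hon, hexp, hKx, hinj⟩ := exists_eigenbasis A hNR hNF (-Complex.I)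
    (neg_ne_zero.mpr hI)
  have hSx := commute_eig K S hKh x k hexp hKx hinj hcomm
  -- the diagonal entries are imaginary
  have hsig : ∀ i, star (x i) ⬝ᵥ (S *ᵥ x i)
      = Complex.I * (((star (x i) ⬝ᵥ (S *ᵥ x i)).im : ℝ) : ℂ) := by
    intro i
    have h3 := quad_conjTranspose S (x i) (x i)
    rw [hS, Matrix.neg_mulVec, dotProduct_neg] at h3
    have h4 := congrArg Complex.re h3
    rw [Complex.neg_re, Complex.conj_re] at h4
    apply Complex.ext
    · simp
      linarith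
    · simp
  obtain ⟨α, b, c, habc⟩ := interp k (fun i => (star (x i) ⬝ᵥ (S *ᵥ x i)).im) hinj
  have hSeq : S = Complex.I • ((α : ℂ) • (K * K) + (b : ℂ) • K + (c : ℂ) • 1) := by
    apply eq_of_basis _ _ x hexp
    intro i
    rw [hSx i, hsig i]
    have h3 := habc i
    rw [h3]
    simp only [Matrix.smul_mulVec, Matrix.add_mulVec, Matrix.one_mulVec, ← Matrix.mulVec_mulVec]
    have hKx' : K *ᵥ x i = (k i : ℂ) • x i := hKx i
    rw [hKx', Matrix.mulVec_smul, hKx']
    ext j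
    simp only [Pi.smul_apply, Pi.add_apply, smul_eq_mul]
    push_cast
    ring
  -- the square of `G` commutes with `K`
  obtain ⟨G, hG⟩ : ∃ G : Matrix (Fin 3) (Fin 3) ℂ,
    G = H - (α : ℂ) • K - ((b / 2 : ℝ) : ℂ) • 1 := ⟨_, rfl⟩
  have hBI : H * H * K - K * (H * H) = H * ((α : ℂ) • (K * K) + (b : ℂ) • K + (c : ℂ) • 1)
      - ((α : ℂ) • (K * K) + (b : ℂ) • K + (c : ℂ) • 1) * H := by
    have h3 := hHS
    rw [hSeq, mul_smul_comm, smul_mul_assoc, ← smul_sub] at h3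
    exact smul_right_injective _ hI h3
  have hGK : G * G * K = K * (G * G) := by
    rw [← sub_eq_zero]
    have h3 := sub_eq_zero.mpr hBI
    rw [← h3, hG]
    simp only [mul_add, add_mul, mul_sub, sub_mul, smul_mul_assoc, mul_smul_comm, smul_add,
      smul_sub, smul_smul, mul_one, one_mul, mul_assoc]
    push_cast
    module
  have hGH : G * G * H = H * (G * G) := by
    have h3 : H = G + (α : ℂ) • K + ((b / 2 : ℝ) : ℂ) • 1 := by
      rw [hG]; abel
    rw [h3]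
    rw [mul_add, mul_add, add_mul, add_mul, mul_smul_comm, smul_mul_assoc, hGK, mul_assoc G G G,
      mul_smul_comm, smul_mul_assoc, mul_one, one_mul]
  -- hence scalar
  obtain ⟨m, hm⟩ : ∃ μ : ℂ, G * G = μ • 1 := by
    apply claim_two A hNR hNF
    intro u hu y hy
    have hu0 : u ≠ 0 := by intro h0; rw [h0] at hu; simp at hu
    by_cases hz : (G * G) *ᵥ y = 0
    · exact ⟨0, by rw [hz, zero_smul]⟩
    · obtain ⟨s, hs, hunit⟩ := normalize_vec _ hz
      have hcu : Hu A u * (G * G) = (G * G) * Hu A u := by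
        rw [Hu_comb, ← hH, ← hK, sub_mul, mul_sub, smul_mul_assoc, smul_mul_assoc,
          mul_smul_comm, mul_smul_comm, hGK, hGH]
      have he : Hu A u *ᵥ ((s : ℂ) • ((G * G) *ᵥ y))
          = (((u * (star y ⬝ᵥ (A *ᵥ y))).re : ℝ) : ℂ) • ((s : ℂ) • ((G * G) *ᵥ y)) := by
        rw [Matrix.mulVec_smul, Matrix.mulVec_mulVec, hcu, ← Matrix.mulVec_mulVec, hy.eig,
          Matrix.mulVec_smul, smul_comm]
      obtain ⟨d, _, hd⟩ := Top.unique hNR hNF hu0 hy (hy.of_eig hunit he)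
      have hs0 : (s : ℂ) ≠ 0 := by exact_mod_cast hs.ne'
      refine ⟨(s : ℂ)⁻¹ * d, ?_⟩
      rw [mul_smul, ← hd, smul_smul, inv_mul_cancel₀ hs0, one_smul]
  -- three distinct eigenvalues of `H - α K`
  have hv0 : (1 + (α : ℂ) * Complex.I : ℂ) ≠ 0 := by
    intro h0
    have := congrArg Complex.re h0
    simp at this
  obtain ⟨y, q, hyon, _, hy, hqinj⟩ := exists_eigenbasis A hNR hNF (1 + (α : ℂ) * Complex.I) hv0
  have hGv : G = Hu A (1 + (α : ℂ) * Complex.I) - ((b / 2 : ℝ) : ℂ) • 1 := by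
    rw [Hu_comb A (1 + (α : ℂ) * Complex.I), hG]
    simp
    rfl
  have hroot : ∀ i, (((q i - b / 2) * (q i - b / 2) : ℝ) : ℂ) = m := by
    intro i
    have hGy : G *ᵥ y i = ((q i - b / 2 : ℝ) : ℂ) • y i := by
      rw [hGv, Matrix.sub_mulVec, hy, Matrix.smul_mulVec, Matrix.one_mulVec, ← sub_smul]
      push_cast; rfl
    have h3 : (G * G) *ᵥ y i = (((q i - b / 2) * (q i - b / 2) : ℝ) : ℂ) • y i := by
      rw [← Matrix.mulVec_mulVec, hGy, Matrix.mulVec_smul, hGy, smul_smul, Complex.ofReal_mul]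
    rw [hm, Matrix.smul_mulVec, Matrix.one_mulVec] at h3
    have hyne : y i ≠ 0 := by
      intro h0
      have h5 := hyon i i
      rw [h0, if_pos rfl] at h5
      simp at h5
    have h4 := sub_eq_zero.mpr h3
    rw [← sub_smul, smul_eq_zero] at h4
    rcases h4 with h4 | h4
    · exact (sub_eq_zero.mp h4).symm
    · exact absurd h4 hyne
  have r01 : (q 0 - b / 2) * (q 0 - b / 2) = (q 1 - b / 2) * (q 1 - b / 2) := by
    exact_mod_cast (hroot 0).trans (hroot 1).symm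
  have r02 : (q 0 - b / 2) * (q 0 - b / 2) = (q 2 - b / 2) * (q 2 - b / 2) := by
    exact_mod_cast (hroot 0).trans (hroot 2).symm
  have n01 : q 0 - q 1 ≠ 0 := by
    intro h
    exact absurd (hqinj (sub_eq_zero.mp h)) (by decide)
  have n02 : q 0 - q 2 ≠ 0 := by
    intro h
    exact absurd (hqinj (sub_eq_zero.mp h)) (by decide)
  have s01 : q 0 + q 1 - b = 0 := by
    have : (q 0 - q 1) * (q 0 + q 1 - b) = 0 := by linear_combination r01
    rcases mul_eq_zero.mp this with h | h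
    · exact absurd h n01
    · exact h
  have s02 : q 0 + q 2 - b = 0 := by
    have : (q 0 - q 2) * (q 0 + q 2 - b) = 0 := by linear_combination r02
    rcases mul_eq_zero.mp this with h | h
    · exact absurd h n02
    · exact h
  have h12 : q 1 = q 2 := by linarith
  exact absurd (hqinj h12) (by decide)

end Pool.Agent.Helper774
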