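import Mathlib
import Pool.Agent.Helper774.NegD
open Matrix
open scoped ComplexOrder InnerProductSpace
open Filter Topology

namespace Pool.Agent.Helper774

/-- the tangent space of the unitary orbit of `A` at `A` -/
def tangent (A : Matrix (Fin 3) (Fin 3) ℂ) : Submodule ℝ (Matrix (Fin 3) (Fin 3) ℂ) where
  carrier := {M | ∃ S : Matrix (Fin 3) (Fin 3) ℂ, Sᴴ = -S ∧ M = A * S - S * A}
  add_mem' := by
    rintro M N ⟨S, hS, rfl⟩ ⟨S', hS', rfl⟩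
    refine ⟨S + S', ?_, ?_⟩
    · rw [conjTranspose_add, hS, hS']; abel
    · rw [mul_add, add_mul]; abel
  zero_mem' := ⟨0, by simp, by simp⟩
  smul_mem' := by
    rintro c M ⟨S, hS, rfl⟩
    refine ⟨c • S, ?_, ?_⟩
    · rw [conjTranspose_smul, hS, star_trivial, smul_neg]
    · rw [mul_smul_comm, smul_mul_assoc, smul_sub]

theorem exists_functional (A : Matrix (Fin 3) (Fin 3) ℂ) (hNR : NoRed A) (hNF : NoFlat A) :
    ∃ f : Matrix (Fin 3) (Fin 3) ℂ →ₗ[ℝ] ℝ,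
      (∀ S : Matrix (Fin 3) (Fin 3) ℂ, Sᴴ = -S → f (A * S - S * A) = 0) ∧ f (Bm A) = 1 := by
  have hB : Bm A ∉ tangent A := by
    rintro ⟨S, hS, hBS⟩
    exact Bm_not_tangent A hNR hNF S hS hBS
  obtain ⟨f, hf, hmap⟩ := Submodule.exists_dual_map_eq_bot_of_notMem hB inferInstance
  refine ⟨(f (Bm A))⁻¹ • f, ?_, ?_⟩
  · intro S hS
    have h1 : f (A * S - S * A) ∈ (tangent A).map f :=
      Submodule.mem_map_of_mem ⟨S, hS, rfl⟩
    rw [hmap, Submodule.mem_bot] at h1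
    rw [LinearMap.smul_apply, h1, smul_zero]
  · rw [LinearMap.smul_apply, smul_eq_mul, inv_mul_cancel₀ hf]

/-- the quadratic form attached to a functional -/
noncomputable def ell (A : Matrix (Fin 3) (Fin 3) ℂ) (f : Matrix (Fin 3) (Fin 3) ℂ →ₗ[ℝ] ℝ)
    (V : Matrix (Fin 3) (Fin 3) ℂ) : ℝ :=
  f (Vᴴ * A * V) - (1 / 2) * f (Vᴴ * V * A + A * (Vᴴ * V))

theorem ell_shift (A : Matrix (Fin 3) (Fin 3) ℂ) (f : Matrix (Fin 3) (Fin 3) ℂ →ₗ[ℝ] ℝ)
    (hf : ∀ S : Matrix (Fin 3) (Fin 3) ℂ, Sᴴ = -S → f (A * S - S * A) = 0)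
    (c : ℂ) (V : Matrix (Fin 3) (Fin 3) ℂ) : ell A f (V + c • 1) = ell A f V := by
  set S : Matrix (Fin 3) (Fin 3) ℂ := starRingEnd ℂ c • V - c • Vᴴ with hS
  have hskew : Sᴴ = -S := by
    rw [hS, conjTranspose_sub, conjTranspose_smul, conjTranspose_smul,
      conjTranspose_conjTranspose, Complex.star_def, Complex.conj_conj, neg_sub]
  have h0 := hf S hskew
  have hct : (V + c • (1 : Matrix (Fin 3) (Fin 3) ℂ))ᴴ
      = Vᴴ + starRingEnd ℂ c • (1 : Matrix (Fin 3) (Fin 3) ℂ) := by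
    rw [conjTranspose_add, conjTranspose_smul, conjTranspose_one]; rfl
  have key : (V + c • (1 : Matrix (Fin 3) (Fin 3) ℂ))ᴴ * A * (V + c • 1)
        + (V + c • (1 : Matrix (Fin 3) (Fin 3) ℂ))ᴴ * A * (V + c • 1)
        + (Vᴴ * V * A + A * (Vᴴ * V))
      = Vᴴ * A * V + Vᴴ * A * V
        + ((V + c • (1 : Matrix (Fin 3) (Fin 3) ℂ))ᴴ * (V + c • 1) * A
          + A * ((V + c • (1 : Matrix (Fin 3) (Fin 3) ℂ))ᴴ * (V + c • 1)))
        + (A * S - S * A) := by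
    rw [hct, hS]
    simp only [mul_add, add_mul, mul_sub, sub_mul, smul_mul_assoc, mul_smul_comm, smul_add,
      smul_sub, smul_smul, mul_one, one_mul, mul_assoc]
    module
  have h1 := congrArg f key
  simp only [map_add, h0] at h1
  unfold ell
  simp only [map_add]
  linarith

theorem ell_smul (A : Matrix (Fin 3) (Fin 3) ℂ) (f : Matrix (Fin 3) (Fin 3) ℂ →ₗ[ℝ] ℝ)
    (s : ℝ) (V : Matrix (Fin 3) (Fin 3) ℂ) : ell A f ((s : ℂ) • V) = s ^ 2 * ell A f V := by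
  have hct : ((s : ℂ) • V)ᴴ = (s : ℂ) • Vᴴ := by
    rw [conjTranspose_smul, Complex.star_def, Complex.conj_ofReal]
  have h1 : ((s : ℂ) • V)ᴴ * A * ((s : ℂ) • V) = (s ^ 2 : ℝ) • (Vᴴ * A * V) := by
    rw [hct, smul_mul_assoc, smul_mul_assoc, mul_smul_comm, smul_smul, ← Complex.coe_smul]
    push_cast
    rw [pow_two]
  have h2 : ((s : ℂ) • V)ᴴ * ((s : ℂ) • V) = (s ^ 2 : ℝ) • (Vᴴ * V) := by
    rw [hct, smul_mul_assoc, mul_smul_comm, smul_smul, ← Complex.coe_smul]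
    push_cast
    rw [pow_two]
  unfold ell
  rw [h1, h2, smul_mul_assoc, mul_smul_comm, ← smul_add, map_smul, map_smul, smul_eq_mul,
    smul_eq_mul]
  ring

theorem ell_continuous (A : Matrix (Fin 3) (Fin 3) ℂ)
    (f : Matrix (Fin 3) (Fin 3) ℂ →ₗ[ℝ] ℝ) : Continuous (ell A f) := by
  have hf : Continuous f := LinearMap.continuous_of_finiteDimensional f
  have hct : Continuous (fun V : Matrix (Fin 3) (Fin 3) ℂ => Vᴴ) :=
    Continuous.matrix_conjTranspose continuous_id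
  have h2 : Continuous (fun V : Matrix (Fin 3) (Fin 3) ℂ => Vᴴ * V) :=
    hct.matrix_mul continuous_id
  apply Continuous.sub
  · exact hf.comp ((hct.matrix_mul continuous_const).matrix_mul continuous_id)
  · apply continuous_const.mul
    exact hf.comp ((h2.matrix_mul continuous_const).add (continuous_const.matrix_mul h2))

theorem FinDil.toMatrix {A T : Matrix (Fin 3) (Fin 3) ℂ} (h : FinDil A T) :
    ∃ (N : ℕ) (R : Fin N → Matrix (Fin 3) (Fin 3) ℂ), ∑ p, (R p)ᴴ * R p = 1 ∧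
      ∑ p, (R p)ᴴ * A * R p = T := by
  obtain ⟨N, R, h1, h2⟩ := h
  refine ⟨N, fun p => Matrix.of (R p), ?_, ?_⟩
  · ext a b
    rw [Matrix.sum_apply, Matrix.one_apply, ← h1 a b]
    apply Finset.sum_congr rfl
    intro p _
    rw [Matrix.mul_apply]
    rfl
  · ext a b
    rw [Matrix.sum_apply, ← h2 a b]
    apply Finset.sum_congr rfl
    intro p _
    rw [Matrix.mul_assoc, Matrix.mul_apply]
    apply Finset.sum_congr rfl
    intro i _
    rw [Matrix.mul_apply, Finset.mul_sum]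
    apply Finset.sum_congr rfl
    intro j _
    change starRingEnd ℂ (R p i a) * (A i j * R p j b) = _
    ring

theorem dil_estimate (A : Matrix (Fin 3) (Fin 3) ℂ)
    (f : Matrix (Fin 3) (Fin 3) ℂ →ₗ[ℝ] ℝ)
    (t : Finset {p : ℂ × (Fin 3 → ℂ) // ‖p.1‖ = 1 ∧ Top A p.1 p.2}) (C : ℝ)
    (hC : ∀ V, ell A f V ≤ C * ∑ p ∈ t, Qf A p.1.1 p.1.2 V)
    (T : Matrix (Fin 3) (Fin 3) ℂ) (hT : FinDil A T) :
    f T - f A ≤ C * ∑ p ∈ t, ((p.1.1 * (star p.1.2 ⬝ᵥ (A *ᵥ p.1.2))).re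
      - (p.1.1 * (star p.1.2 ⬝ᵥ (T *ᵥ p.1.2))).re) := by
  obtain ⟨N, R, h1, h2⟩ := hT.toMatrix
  have e1 : ∑ q, ell A f (R q) = f T - f A := by
    unfold ell
    rw [Finset.sum_sub_distrib, ← map_sum, h2, ← Finset.mul_sum, ← map_sum,
      Finset.sum_add_distrib, ← Finset.sum_mul, ← Finset.mul_sum, h1, one_mul, mul_one,
      map_add]
    ring
  have e2 : ∀ p : {p : ℂ × (Fin 3 → ℂ) // ‖p.1‖ = 1 ∧ Top A p.1 p.2},
      ∑ q, Qf A p.1.1 p.1.2 (R q) = (p.1.1 * (star p.1.2 ⬝ᵥ (A *ᵥ p.1.2))).re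
      - (p.1.1 * (star p.1.2 ⬝ᵥ (T *ᵥ p.1.2))).re := by
    rintro ⟨⟨u, x⟩, hu, hx⟩
    change ∑ q, Qf A u x (R q) = (u * (star x ⬝ᵥ (A *ᵥ x))).re - (u * (star x ⬝ᵥ (T *ᵥ x))).re
    have hx1 : star x ⬝ᵥ x = 1 := hx.1
    unfold Qf
    rw [Finset.sum_sub_distrib, ← Finset.mul_sum]
    have e3 : ∑ q, (star (R q *ᵥ x) ⬝ᵥ (R q *ᵥ x)).re = 1 := by
      rw [← Complex.re_sum]
      have : ∑ q, star (R q *ᵥ x) ⬝ᵥ (R q *ᵥ x) = 1 := by
        have h3 : ∀ q, star (R q *ᵥ x) ⬝ᵥ (R q *ᵥ x) = star x ⬝ᵥ (((R q)ᴴ * R q) *ᵥ x) := by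
          intro q
          rw [Matrix.star_mulVec, ← Matrix.dotProduct_mulVec, Matrix.mulVec_mulVec]
        rw [Finset.sum_congr rfl (fun q _ => h3 q), ← dotProduct_sum, ← Matrix.sum_mulVec, h1,
          Matrix.one_mulVec, hx1]
      rw [this, Complex.one_re]
    have e4 : ∑ q, (u * (star (R q *ᵥ x) ⬝ᵥ (A *ᵥ (R q *ᵥ x)))).re
        = (u * (star x ⬝ᵥ (T *ᵥ x))).re := by
      rw [← Complex.re_sum, ← Finset.mul_sum]
      have : ∑ q, star (R q *ᵥ x) ⬝ᵥ (A *ᵥ (R q *ᵥ x)) = star x ⬝ᵥ (T *ᵥ x) := by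
        have h3 : ∀ q, star (R q *ᵥ x) ⬝ᵥ (A *ᵥ (R q *ᵥ x))
            = star x ⬝ᵥ (((R q)ᴴ * A * R q) *ᵥ x) := by
          intro q
          rw [Matrix.star_mulVec, ← Matrix.dotProduct_mulVec, Matrix.mulVec_mulVec,
            Matrix.mulVec_mulVec, Matrix.mul_assoc]
        rw [Finset.sum_congr rfl (fun q _ => h3 q), ← dotProduct_sum, ← Matrix.sum_mulVec, h2]
      rw [this]
    rw [e3, e4, mul_one]
  calc f T - f A = ∑ q, ell A f (R q) := e1.symm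
    _ ≤ ∑ q, C * ∑ p ∈ t, Qf A p.1.1 p.1.2 (R q) := Finset.sum_le_sum (fun q _ => hC (R q))
    _ = C * ∑ p ∈ t, ∑ q, Qf A p.1.1 p.1.2 (R q) := by
        rw [← Finset.mul_sum, Finset.sum_comm]
    _ = _ := by
        rw [Finset.sum_congr rfl (fun p _ => e2 p)]

end Pool.Agent.Helper774
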