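import Mathlib
import Pool.Agent.Helper774.NegE
open Matrix
open scoped ComplexOrder InnerProductSpace
open Filter Topology

namespace Pool.Agent.Helper774

theorem norm_le_of_dot (a : Fin 3 → ℂ) (r : ℝ) (hr : 0 ≤ r) (h : (star a ⬝ᵥ a).re ≤ r ^ 2)
    (i : Fin 3) : ‖a i‖ ≤ r := by
  rw [dot_self_eq, Complex.ofReal_re] at h
  have h1 : ‖a i‖ ^ 2 ≤ ∑ i, ‖a i‖ ^ 2 :=
    Finset.single_le_sum (f := fun i => ‖a i‖ ^ 2) (fun i _ => by positivity) (Finset.mem_univ i)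
  exact le_of_sq_le_sq (h1.trans h) hr

theorem form_bound (B : Matrix (Fin 3) (Fin 3) ℂ) (a b : Fin 3 → ℂ) (r s : ℝ)
    (hr : 0 ≤ r) (_ : 0 ≤ s) (ha : ∀ i, ‖a i‖ ≤ r) (hb : ∀ i, ‖b i‖ ≤ s) :
    ‖star a ⬝ᵥ (B *ᵥ b)‖ ≤ (∑ i, ∑ j, ‖B i j‖) * (r * s) := by
  rw [dotProduct]
  calc ‖∑ i, star a i * (B *ᵥ b) i‖ ≤ ∑ i, ‖star a i * (B *ᵥ b) i‖ := norm_sum_le _ _
    _ ≤ ∑ i, ∑ j, ‖B i j‖ * (r * s) := by
        apply Finset.sum_le_sum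
        intro i _
        rw [norm_mul, Pi.star_apply, norm_star]
        have h1 : ‖(B *ᵥ b) i‖ ≤ ∑ j, ‖B i j‖ * s := by
          change ‖∑ j, B i j * b j‖ ≤ _
          refine (norm_sum_le _ _).trans (Finset.sum_le_sum (fun j _ => ?_))
          rw [norm_mul]
          exact mul_le_mul_of_nonneg_left (hb j) (norm_nonneg _)
        calc ‖a i‖ * ‖(B *ᵥ b) i‖ ≤ r * ∑ j, ‖B i j‖ * s :=
              mul_le_mul (ha i) h1 (norm_nonneg _) hr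
          _ = ∑ j, ‖B i j‖ * (r * s) := by
              rw [Finset.mul_sum]
              exact Finset.sum_congr rfl (fun j _ => by ring)
    _ = _ := by
        rw [Finset.sum_mul]
        exact Finset.sum_congr rfl (fun i _ => by rw [Finset.sum_mul])

/-- the perturbation raises the support function only to second order -/
theorem perturb_bound (A : Matrix (Fin 3) (Fin 3) ℂ) (g : ℝ) (hgpos : 0 < g)
    (hg : ∀ u : ℂ, ‖u‖ = 1 → ∀ x, Top A u x → ∀ z, star z ⬝ᵥ z = 1 →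
      star x ⬝ᵥ z = 0 →
      (u * (star z ⬝ᵥ (A *ᵥ z))).re + g ≤ (u * (star x ⬝ᵥ (A *ᵥ x))).re)
    (B : Matrix (Fin 3) (Fin 3) ℂ) (hBh : B.IsHermitian)
    (hB0 : ∀ u : ℂ, ‖u‖ = 1 → ∀ x, Top A u x → star x ⬝ᵥ (B *ᵥ x) = 0)
    (β : ℝ) (hβ : β = ∑ i, ∑ j, ‖B i j‖) (ε : ℝ) (hε : 0 ≤ ε)
    (u : ℂ) (hu : ‖u‖ = 1) (x : Fin 3 → ℂ) (hx : Top A u x) (y : Fin 3 → ℂ)
    (hy : star y ⬝ᵥ y = 1) :
    (u * (star y ⬝ᵥ (A *ᵥ y) + (ε : ℂ) * (star y ⬝ᵥ (B *ᵥ y)))).re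
      ≤ (u * (star x ⬝ᵥ (A *ᵥ x))).re + 9 * β ^ 2 / (4 * g) * ε ^ 2 := by
  have hβ0 : 0 ≤ β := by rw [hβ]; positivity
  set c : ℂ := star x ⬝ᵥ y with hc
  set w : Fin 3 → ℂ := y - c • x with hw
  have h1 := gap_full hg hu hx y
  have hwn : (star w ⬝ᵥ w).re = (star y ⬝ᵥ y).re - Complex.normSq (star x ⬝ᵥ y) :=
    remainder_norm x y hx.1
  rw [← hwn, hy, Complex.one_re, mul_one] at h1
  rw [hy, Complex.one_re, ← hc] at hwn
  have hwnn : 0 ≤ (star w ⬝ᵥ w).re := dot_self_re_nonneg w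
  set ρ : ℝ := Real.sqrt (star w ⬝ᵥ w).re with hρ
  have hρ0 : 0 ≤ ρ := Real.sqrt_nonneg _
  have hρ2 : ρ ^ 2 = (star w ⬝ᵥ w).re := Real.sq_sqrt hwnn
  have hnc : 0 ≤ Complex.normSq c := Complex.normSq_nonneg c
  have hρ1 : ρ ≤ 1 := by
    have : ρ ^ 2 ≤ 1 ^ 2 := by rw [hρ2, hwn]; linarith
    exact le_of_sq_le_sq this zero_le_one
  have hc1 : ‖c‖ ≤ 1 := by
    have : ‖c‖ ^ 2 ≤ 1 ^ 2 := by
      rw [← Complex.normSq_eq_norm_sq]; linarith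
    exact le_of_sq_le_sq this zero_le_one
  have hwi : ∀ i, ‖w i‖ ≤ ρ := norm_le_of_dot w ρ hρ0 hρ2.ge
  have hxi : ∀ i, ‖x i‖ ≤ 1 := norm_le_of_dot x 1 zero_le_one (by rw [hx.1]; simp)
  have hb1 := form_bound B w w ρ ρ hρ0 hρ0 hwi hwi
  have hb2 := form_bound B w x ρ 1 hρ0 zero_le_one hwi hxi
  rw [← hβ] at hb1 hb2
  have hyw : y = w + c • x := by rw [hw]; abel
  have hq : star y ⬝ᵥ (B *ᵥ y) = star w ⬝ᵥ (B *ᵥ w) + c * (star w ⬝ᵥ (B *ᵥ x))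
      + starRingEnd ℂ (c * (star w ⬝ᵥ (B *ᵥ x))) := by
    rw [hyw, Matrix.mulVec_add, Matrix.mulVec_smul, star_add, star_smul]
    simp only [add_dotProduct, dotProduct_add, smul_dotProduct, dotProduct_smul, smul_eq_mul,
      Complex.star_def]
    rw [hB0 u hu x hx, herm_swap hBh x w, map_mul]
    ring
  have hqn : ‖star y ⬝ᵥ (B *ᵥ y)‖ ≤ 3 * β * ρ := by
    rw [hq]
    calc ‖star w ⬝ᵥ (B *ᵥ w) + c * (star w ⬝ᵥ (B *ᵥ x))
          + starRingEnd ℂ (c * (star w ⬝ᵥ (B *ᵥ x)))‖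
        ≤ ‖star w ⬝ᵥ (B *ᵥ w)‖ + ‖c * (star w ⬝ᵥ (B *ᵥ x))‖
          + ‖starRingEnd ℂ (c * (star w ⬝ᵥ (B *ᵥ x)))‖ := norm_add₃_le
      _ ≤ β * (ρ * ρ) + β * (ρ * 1) + β * (ρ * 1) := by
          rw [RCLike.norm_conj, norm_mul]
          have h3 : ‖c‖ * ‖star w ⬝ᵥ (B *ᵥ x)‖ ≤ β * (ρ * 1) := by
            calc ‖c‖ * ‖star w ⬝ᵥ (B *ᵥ x)‖ ≤ 1 * ‖star w ⬝ᵥ (B *ᵥ x)‖ :=
                  mul_le_mul_of_nonneg_right hc1 (norm_nonneg _)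
              _ = ‖star w ⬝ᵥ (B *ᵥ x)‖ := one_mul _
              _ ≤ _ := hb2
          linarith
      _ ≤ 3 * β * ρ := by
          have : β * (ρ * ρ) ≤ β * (ρ * 1) := by
            apply mul_le_mul_of_nonneg_left _ hβ0
            exact mul_le_mul_of_nonneg_left hρ1 hρ0
          linarith
  have hre : (u * ((ε : ℂ) * (star y ⬝ᵥ (B *ᵥ y)))).re ≤ ε * (3 * β * ρ) := by
    calc (u * ((ε : ℂ) * (star y ⬝ᵥ (B *ᵥ y)))).re ≤ ‖u * ((ε : ℂ) * (star y ⬝ᵥ (B *ᵥ y)))‖ :=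
          Complex.re_le_norm _
      _ = ε * ‖star y ⬝ᵥ (B *ᵥ y)‖ := by
          rw [norm_mul, norm_mul, hu, one_mul, Complex.norm_real, Real.norm_eq_abs,
            abs_of_nonneg hε]
      _ ≤ _ := mul_le_mul_of_nonneg_left hqn hε
  rw [mul_add, Complex.add_re]
  have hsq : 0 ≤ g * (ρ - 3 * ε * β / (2 * g)) ^ 2 := by positivity
  have hexp : g * (ρ - 3 * ε * β / (2 * g)) ^ 2
      = g * ρ ^ 2 - ε * (3 * β * ρ) + 9 * β ^ 2 / (4 * g) * ε ^ 2 := by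
    field_simp
    ring
  rw [hρ2] at hexp
  linarith

/-- the mean of the diagonal lies well inside -/
theorem mean_bound (A : Matrix (Fin 3) (Fin 3) ℂ) (g : ℝ)
    (hg : ∀ u : ℂ, ‖u‖ = 1 → ∀ x, Top A u x → ∀ z, star z ⬝ᵥ z = 1 →
      star x ⬝ᵥ z = 0 →
      (u * (star z ⬝ᵥ (A *ᵥ z))).re + g ≤ (u * (star x ⬝ᵥ (A *ᵥ x))).re)
    (u : ℂ) (hu : ‖u‖ = 1) (x : Fin 3 → ℂ) (hx : Top A u x) :
    (u * ((A 0 0 + A 1 1 + A 2 2) / 3)).re ≤ (u * (star x ⬝ᵥ (A *ᵥ x))).re - 2 * g / 3 := by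
  have key : ∀ i : Fin 3, g * (1 - ‖x i‖ ^ 2) ≤
      (u * (star x ⬝ᵥ (A *ᵥ x))).re - (u * A i i).re := by
    intro i
    have h1 := gap_full hg hu hx (Pi.single i 1)
    have e1 : star (Pi.single i (1 : ℂ) : Fin 3 → ℂ) ⬝ᵥ Pi.single i 1 = 1 := by
      rw [dotProduct_single]; simp
    have e2 : star x ⬝ᵥ (Pi.single i (1 : ℂ) : Fin 3 → ℂ) = star (x i) := by
      rw [dotProduct_single]; simp
    have e3 : star (Pi.single i (1 : ℂ) : Fin 3 → ℂ) ⬝ᵥ (A *ᵥ Pi.single i 1) = A i i := by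
      rw [Matrix.mulVec_single_one, dotProduct, Finset.sum_eq_single i]
      · simp
      · intro j _ hj
        simp [hj]
      · simp
    rw [e1, e2, e3, Complex.one_re, mul_one, Complex.star_def, Complex.normSq_conj,
      Complex.normSq_eq_norm_sq] at h1
    exact h1
  have hsum : ‖x 0‖ ^ 2 + ‖x 1‖ ^ 2 + ‖x 2‖ ^ 2 = 1 := by
    have := hx.1
    rw [dot_self_eq, Fin.sum_univ_three] at this
    exact_mod_cast this
  have h0 := key 0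
  have h1 := key 1
  have h2 := key 2
  have e : (u * ((A 0 0 + A 1 1 + A 2 2) / 3)).re
      = ((u * A 0 0).re + (u * A 1 1).re + (u * A 2 2).re) / 3 := by
    have : u * ((A 0 0 + A 1 1 + A 2 2) / 3)
        = ((1 / 3 : ℝ) : ℂ) * (u * A 0 0 + u * A 1 1 + u * A 2 2) := by
      push_cast; ring
    rw [this, Complex.re_ofReal_mul, Complex.add_re, Complex.add_re]
    ring
  rw [e]
  have e4 : g * (1 - ‖x 0‖ ^ 2) + g * (1 - ‖x 1‖ ^ 2) + g * (1 - ‖x 2‖ ^ 2) = 2 * g := by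
    linear_combination -g * hsum
  linarith

theorem neg_direction (A : Matrix (Fin 3) (Fin 3) ℂ) (hNR : NoRed A) (hNF : NoFlat A) :
    ∃ T : Matrix (Fin 3) (Fin 3) ℂ, MW T ⊆ MW A ∧ ¬ FinDil A T := by
  obtain ⟨g, hgpos, hg⟩ := exists_gap A hNR hNF
  obtain ⟨f, hf0, hf1⟩ := exists_functional A hNR hNF
  obtain ⟨t, C, hC0, hC⟩ := coercive A hNR hNF (ell A f) (ell_continuous A f)
    (fun s V => ell_smul A f s V) (fun c V => ell_shift A f hf0 c V)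
  set B := Bm A with hBdef
  have hBh : B.IsHermitian := Bm_isHermitian A
  have hB0 : ∀ u : ℂ, ‖u‖ = 1 → ∀ x, Top A u x → star x ⬝ᵥ (B *ᵥ x) = 0 :=
    fun u hu x hx => Bm_quad_top A u hu x hx
  set β : ℝ := ∑ i, ∑ j, ‖B i j‖ with hβ
  set τ : ℂ := (A 0 0 + A 1 1 + A 2 2) / 3 with hτ
  set T : ℝ → ℝ → Matrix (Fin 3) (Fin 3) ℂ := fun ε δ =>
    ((1 - δ : ℝ) : ℂ) • (A + (ε : ℂ) • B) + ((δ : ℝ) : ℂ) • (τ • 1) with hT
  have hTq : ∀ ε δ : ℝ, ∀ y : Fin 3 → ℂ, star y ⬝ᵥ y = 1 →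
      star y ⬝ᵥ (T ε δ *ᵥ y) = ((1 - δ : ℝ) : ℂ) * (star y ⬝ᵥ (A *ᵥ y)
        + (ε : ℂ) * (star y ⬝ᵥ (B *ᵥ y))) + (δ : ℂ) * τ := by
    intro ε δ y hy
    rw [hT]
    simp only [Matrix.add_mulVec, Matrix.smul_mulVec, Matrix.one_mulVec, dotProduct_add,
      dotProduct_smul, smul_eq_mul, hy, mul_one]
  -- inclusion of numerical ranges
  have hincl : ∀ ε δ : ℝ, 0 ≤ ε → 0 ≤ δ → δ ≤ 1 →
      9 * β ^ 2 / (4 * g) * ε ^ 2 ≤ δ * (2 * g / 3) → MW (T ε δ) ⊆ MW A := by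
    intro ε δ hε hδ0 hδ1 hεδ z hz
    by_contra hzA
    obtain ⟨u, hu⟩ := exists_sep A z hzA
    obtain ⟨y, hy, rfl⟩ := hz
    have hu0 : u ≠ 0 := by
      intro h0
      obtain ⟨x, hx⟩ := exists_Top A 1
      have := hu _ ⟨x, hx.1, rfl⟩
      rw [h0] at this
      simp at this
    have hun : 0 < ‖u‖ := norm_pos_iff.mpr hu0
    set v : ℂ := ((‖u‖⁻¹ : ℝ) : ℂ) * u with hv
    have hv1 : ‖v‖ = 1 := by
      rw [hv, norm_mul, Complex.norm_real, Real.norm_eq_abs, abs_of_pos (inv_pos.mpr hun),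
        inv_mul_cancel₀ hun.ne']
    obtain ⟨x, hx⟩ := exists_Top A v
    have h1 := hu _ ⟨x, hx.1, rfl⟩
    have h2 : (v * (star x ⬝ᵥ (A *ᵥ x))).re < (v * (star y ⬝ᵥ (T ε δ *ᵥ y))).re := by
      rw [hv, mul_assoc, mul_assoc, Complex.re_ofReal_mul, Complex.re_ofReal_mul]
      exact mul_lt_mul_of_pos_left h1 (inv_pos.mpr hun)
    have h3 := perturb_bound A g hgpos hg B hBh hB0 β hβ ε hε v hv1 x hx y hy
    have h4 := mean_bound A g hg v hv1 x hx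
    rw [← hτ] at h4
    rw [hTq ε δ y hy, mul_add, mul_left_comm v, mul_left_comm v, Complex.add_re,
      Complex.re_ofReal_mul, Complex.re_ofReal_mul] at h2
    have h5 := mul_le_mul_of_nonneg_left h3 (sub_nonneg.mpr hδ1)
    have h6 := mul_le_mul_of_nonneg_left h4 hδ0
    have h7 : (1 - δ) * (9 * β ^ 2 / (4 * g) * ε ^ 2) ≤ 9 * β ^ 2 / (4 * g) * ε ^ 2 := by
      have : 0 ≤ 9 * β ^ 2 / (4 * g) * ε ^ 2 := by positivity
      nlinarith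
    nlinarith
  -- the constants
  set Sg : ℝ := ∑ p ∈ t, ((p.1.1 * (star p.1.2 ⬝ᵥ (A *ᵥ p.1.2))).re - (p.1.1 * τ).re) with hSg
  set D : ℝ := |C * Sg - (f (τ • 1) - f A)| with hD
  have hD0 : 0 ≤ D := abs_nonneg _
  set κ : ℝ := 27 * β ^ 2 / (8 * g ^ 2) + 1 with hκ
  have hκ1 : 1 ≤ κ := by
    rw [hκ]
    have : 0 ≤ 27 * β ^ 2 / (8 * g ^ 2) := by positivity
    linarith
  have hκ0 : 0 < κ := by linarith
  set ε : ℝ := 1 / (2 * κ * (1 + D)) with hε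
  have hε0 : 0 < ε := by positivity
  set δ : ℝ := κ * ε ^ 2 with hδ
  have hδ0 : 0 ≤ δ := by positivity
  have hκε : κ * ε * (1 + D) = 1 / 2 := by
    rw [hε]; field_simp
  have hκε' : κ * ε ≤ 1 / 2 := by
    have : κ * ε * 1 ≤ κ * ε * (1 + D) := by
      apply mul_le_mul_of_nonneg_left _ (by positivity)
      linarith
    linarith
  have hε1 : ε ≤ 1 / 2 := by
    have : 1 * ε ≤ κ * ε := mul_le_mul_of_nonneg_right hκ1 hε0.le
    linarith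
  have hδ4 : δ ≤ 1 / 4 := by
    have : δ = (κ * ε) * ε := by rw [hδ]; ring
    rw [this]
    calc κ * ε * ε ≤ 1 / 2 * (1 / 2) := mul_le_mul hκε' hε1 hε0.le (by norm_num)
      _ = 1 / 4 := by norm_num
  have hδ1 : δ ≤ 1 := by linarith
  have hcond : 9 * β ^ 2 / (4 * g) * ε ^ 2 ≤ δ * (2 * g / 3) := by
    have e1 : δ * (2 * g / 3) = 9 * β ^ 2 / (4 * g) * ε ^ 2 + 2 * g / 3 * ε ^ 2 := by
      rw [hδ, hκ]; field_simp; ring
    rw [e1]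
    have : 0 ≤ 2 * g / 3 * ε ^ 2 := by positivity
    linarith
  refine ⟨T ε δ, hincl ε δ hε0.le hδ0 hδ1 hcond, ?_⟩
  intro hdil
  have hest := dil_estimate A f t C hC (T ε δ) hdil
  have hfT : f (T ε δ) = (1 - δ) * (f A + ε) + δ * f (τ • 1) := by
    have hsm : ∀ (r : ℝ) (M : Matrix (Fin 3) (Fin 3) ℂ), f ((r : ℂ) • M) = r * f M := by
      intro r M
      rw [Complex.coe_smul, map_smul, smul_eq_mul]
    rw [hT]
    simp only
    rw [map_add, hsm, hsm, map_add, hsm, hf1, mul_one]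
  have hsum : ∑ p ∈ t, ((p.1.1 * (star p.1.2 ⬝ᵥ (A *ᵥ p.1.2))).re
      - (p.1.1 * (star p.1.2 ⬝ᵥ (T ε δ *ᵥ p.1.2))).re) = δ * Sg := by
    rw [hSg, Finset.mul_sum]
    apply Finset.sum_congr rfl
    rintro ⟨⟨u, x⟩, hu, hx⟩ _
    change (u * (star x ⬝ᵥ (A *ᵥ x))).re - (u * (star x ⬝ᵥ (T ε δ *ᵥ x))).re
      = δ * ((u * (star x ⬝ᵥ (A *ᵥ x))).re - (u * τ).re)
    have hx1 : star x ⬝ᵥ x = 1 := hx.1
    rw [hTq ε δ x hx1, hB0 u hu x hx, mul_zero, add_zero, mul_add, mul_left_comm u,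
      mul_left_comm u, Complex.add_re, Complex.re_ofReal_mul, Complex.re_ofReal_mul]
    ring
  rw [hfT, hsum] at hest
  have hle : (1 - δ) * ε ≤ δ * D := by
    have h1 : C * Sg - (f (τ • 1) - f A) ≤ D := le_abs_self _
    have h2 := mul_le_mul_of_nonneg_left h1 hδ0
    nlinarith
  have h3 : δ * D = ε * (κ * ε * D) := by rw [hδ]; ring
  have h4 : κ * ε * D ≤ 1 / 2 := by
    have : κ * ε * D ≤ κ * ε * (1 + D) := by
      apply mul_le_mul_of_nonneg_left _ (by positivity)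
      linarith
    linarith
  have h5 : ε * (κ * ε * D) ≤ ε * (1 / 2) := mul_le_mul_of_nonneg_left h4 hε0.le
  have h6 : 3 / 4 * ε ≤ (1 - δ) * ε := by
    apply mul_le_mul_of_nonneg_right _ hε0.le
    linarith
  linarith

end Pool.Agent.Helper774
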