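import Mathlib
import Pool.Agent.Helper774.NegF
import Pool.Agent.Helper774.LimitC
open Matrix
open scoped ComplexOrder InnerProductSpace TensorProduct
open Filter Topology

namespace Pool.Agent.Helper774

universe u

theorem norm_eq_one_iff_dot {ι : Type*} [Fintype ι] (x : EuclideanSpace ℂ ι) :
    ‖x‖ = 1 ↔ star x.ofLp ⬝ᵥ x.ofLp = 1 := by
  have h1 : inner ℂ x x = star x.ofLp ⬝ᵥ x.ofLp := by
    rw [EuclideanSpace.inner_eq_star_dotProduct, dotProduct_comm]
  have h2 : inner ℂ x x = ((‖x‖ ^ 2 : ℝ) : ℂ) := by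
    rw [inner_self_eq_norm_sq_to_K]
    push_cast; rfl
  rw [← h1, h2]
  constructor
  · intro h
    rw [h]; simp
  · intro h
    have h3 : ‖x‖ ^ 2 = 1 := by exact_mod_cast h
    have h4 := norm_nonneg x
    nlinarith

theorem inner_toEuclideanCLM {ι : Type*} [Fintype ι] [DecidableEq ι] (A : Matrix ι ι ℂ)
    (x y : EuclideanSpace ℂ ι) :
    inner ℂ x (Matrix.toEuclideanCLM (𝕜 := ℂ) A y) = star x.ofLp ⬝ᵥ (A *ᵥ y.ofLp) := by
  rw [EuclideanSpace.inner_eq_star_dotProduct, dotProduct_comm]
  rfl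

theorem numRange_eq_MW {ι : Type*} [Fintype ι] [DecidableEq ι] (A : Matrix ι ι ℂ) :
    {z : ℂ | ∃ x : EuclideanSpace ℂ ι, ‖x‖ = 1 ∧
      inner ℂ x (Matrix.toEuclideanCLM (𝕜 := ℂ) A x) = z} = MW A := by
  ext z
  constructor
  · rintro ⟨x, hx, hz⟩
    refine ⟨x.ofLp, (norm_eq_one_iff_dot x).mp hx, ?_⟩
    rw [← hz, inner_toEuclideanCLM]
  · rintro ⟨x, hx, hz⟩
    refine ⟨WithLp.toLp 2 x, (norm_eq_one_iff_dot _).mpr hx, ?_⟩
    rw [inner_toEuclideanCLM]
    exact hz

/-- supporting lines at points outside the interior -/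
theorem exists_support (A : Matrix (Fin 3) (Fin 3) ℂ) (m : ℂ) (hm : m ∈ frontier (MW A)) :
    ∃ u : ℂ, u ≠ 0 ∧ ∀ y ∈ MW A, (u * y).re ≤ (u * m).re := by
  set P : Set (Metric.sphere (0 : ℂ) 1 × ℂ) :=
    ⋂ y ∈ MW A, {q | ((q.1 : ℂ) * y).re ≤ ((q.1 : ℂ) * q.2).re} with hP
  have hPc : IsClosed P := by
    apply isClosed_biInter
    intro y _
    apply isClosed_le
    · exact Complex.continuous_re.comp
        ((continuous_subtype_val.comp continuous_fst).mul continuous_const)
    · exact Complex.continuous_re.comp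
        ((continuous_subtype_val.comp continuous_fst).mul continuous_snd)
  have hSc : IsClosed (Prod.snd '' P) := isClosedMap_snd_of_compactSpace _ hPc
  have hsub : (MW A)ᶜ ⊆ Prod.snd '' P := by
    intro z hz
    obtain ⟨u, hu⟩ := exists_sep A z hz
    have hu0 : u ≠ 0 := by
      intro h0
      obtain ⟨x, hx⟩ := exists_Top A 1
      have := hu _ ⟨x, hx.1, rfl⟩
      rw [h0] at this
      simp at this
    have hun : 0 < ‖u‖ := norm_pos_iff.mpr hu0
    have hv1 : ‖((‖u‖⁻¹ : ℝ) : ℂ) * u‖ = 1 := by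
      rw [norm_mul, Complex.norm_real, Real.norm_eq_abs, abs_of_pos (inv_pos.mpr hun),
        inv_mul_cancel₀ hun.ne']
    refine ⟨(⟨((‖u‖⁻¹ : ℝ) : ℂ) * u, by simpa using hv1⟩, z), ?_, rfl⟩
    rw [hP, Set.mem_iInter₂]
    intro y hy
    change (((‖u‖⁻¹ : ℝ) : ℂ) * u * y).re ≤ (((‖u‖⁻¹ : ℝ) : ℂ) * u * z).re
    rw [mul_assoc, mul_assoc, Complex.re_ofReal_mul, Complex.re_ofReal_mul]
    exact mul_le_mul_of_nonneg_left (hu y hy).le (inv_pos.mpr hun).le
  have hmem : m ∈ Prod.snd '' P := by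
    apply hSc.closure_subset_iff.mpr hsub
    rw [frontier_eq_closure_inter_closure] at hm
    exact hm.2
  obtain ⟨⟨v, m'⟩, hv, rfl⟩ := hmem
  refine ⟨v, ?_, ?_⟩
  · intro h0
    have := v.2
    rw [h0] at this
    simp at this
  · intro y hy
    exact Set.mem_iInter₂.mp hv y hy

/-- segments in the boundary lie on a supporting line -/
theorem flat_iff (A : Matrix (Fin 3) (Fin 3) ℂ) :
    (∃ z w : ℂ, z ≠ w ∧ segment ℝ z w ⊆ frontier (MW A)) ↔
      ∃ u z w : ℂ, u ≠ 0 ∧ z ∈ MW A ∧ w ∈ MW A ∧ z ≠ w ∧ (u * z).re = (u * w).re ∧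
        ∀ y ∈ MW A, (u * y).re ≤ (u * z).re := by
  have hcl : IsClosed (MW A) := (MW_isCompact A).isClosed
  constructor
  · rintro ⟨z, w, hzw, hseg⟩
    have hz : z ∈ MW A := hcl.frontier_subset (hseg (left_mem_segment ℝ z w))
    have hw : w ∈ MW A := hcl.frontier_subset (hseg (right_mem_segment ℝ z w))
    have hm : ((1 / 2 : ℝ) • z + (1 / 2 : ℝ) • w) ∈ segment ℝ z w :=
      ⟨1 / 2, 1 / 2, by norm_num, by norm_num, by norm_num, rfl⟩
    obtain ⟨u, hu, hsup⟩ := exists_support A _ (hseg hm)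
    have e : (u * ((1 / 2 : ℝ) • z + (1 / 2 : ℝ) • w)).re
        = 1 / 2 * (u * z).re + 1 / 2 * (u * w).re := by
      rw [Complex.real_smul, Complex.real_smul, mul_add, mul_left_comm, mul_left_comm u,
        Complex.add_re, Complex.re_ofReal_mul, Complex.re_ofReal_mul]
    rw [e] at hsup
    have h1 := hsup z hz
    have h2 := hsup w hw
    refine ⟨u, z, w, hu, hz, hw, hzw, by linarith, ?_⟩
    intro y hy
    have h3 := hsup y hy
    linarith
  · rintro ⟨u, z, w, hu, hz, hw, hzw, heq, hmax⟩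
    refine ⟨z, w, hzw, ?_⟩
    rintro _ ⟨s, t, hs, ht, hst, rfl⟩
    have hmem : s • z + t • w ∈ MW A := MW_convex A hz hw hs ht hst
    refine ⟨subset_closure hmem, ?_⟩
    intro hint
    -- move in the direction of `conj u`
    have hval : (u * (s • z + t • w)).re = (u * z).re := by
      rw [Complex.real_smul, Complex.real_smul, mul_add, mul_left_comm, mul_left_comm u,
        Complex.add_re, Complex.re_ofReal_mul, Complex.re_ofReal_mul, ← heq, ← add_mul, hst,
        one_mul]
    have hcont : Tendsto (fun r : ℝ => (s • z + t • w) + (r : ℂ) * starRingEnd ℂ u) (𝓝 0)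
        (𝓝 ((s • z + t • w) + ((0 : ℝ) : ℂ) * starRingEnd ℂ u)) := by
      apply Continuous.tendsto
      exact continuous_const.add (Complex.continuous_ofReal.mul continuous_const)
    rw [Complex.ofReal_zero, zero_mul, add_zero] at hcont
    have hev : ∀ᶠ r : ℝ in 𝓝 0, (s • z + t • w) + (r : ℂ) * starRingEnd ℂ u ∈ MW A :=
      hcont.eventually (mem_interior_iff_mem_nhds.mp hint)
    obtain ⟨δ, hδ, hball⟩ := Metric.eventually_nhds_iff.mp hev
    have h1 := hball (show dist (δ / 2) 0 < δ by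
      rw [Real.dist_eq, sub_zero, abs_of_pos (by positivity)]; linarith)
    have h2 := hmax _ h1
    rw [mul_add, Complex.add_re, hval, mul_left_comm, Complex.mul_conj, Complex.re_ofReal_mul,
      Complex.ofReal_re] at h2
    have h3 : 0 < δ / 2 * Complex.normSq u := by
      have := Complex.normSq_pos.mpr hu
      positivity
    linarith

theorem tensor_decomp {H : Type*} [NormedAddCommGroup H] [InnerProductSpace ℂ H] {n : ℕ}
    (t : H ⊗[ℂ] EuclideanSpace ℂ (Fin n)) :
    ∃ v : Fin n → H, t = ∑ i, v i ⊗ₜ[ℂ] (EuclideanSpace.single i (1 : ℂ)) := by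
  induction t using TensorProduct.induction_on with
  | zero => exact ⟨0, by simp⟩
  | tmul x y =>
    refine ⟨fun i => y i • x, ?_⟩
    have hy : y = ∑ i, y i • EuclideanSpace.single i (1 : ℂ) := by
      ext j
      rw [WithLp.ofLp_sum, Finset.sum_apply, Finset.sum_eq_single j]
      · simp
      · intro i _ hij
        simp [Ne.symm hij]
      · simp
    conv_lhs => rw [hy]
    rw [TensorProduct.tmul_sum]
    apply Finset.sum_congr rfl
    intro i _
    rw [TensorProduct.tmul_smul, TensorProduct.smul_tmul']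
  | add x y hx hy =>
    obtain ⟨v, rfl⟩ := hx
    obtain ⟨w, rfl⟩ := hy
    refine ⟨fun i => v i + w i, ?_⟩
    rw [← Finset.sum_add_distrib]
    apply Finset.sum_congr rfl
    intro i _
    rw [TensorProduct.add_tmul]

theorem FinDil.of_tensor {ν : Type*} [Fintype ν] [DecidableEq ν] {n : ℕ}
    (A : Matrix (Fin n) (Fin n) ℂ) (T : Matrix ν ν ℂ)
    {H : Type*} [NormedAddCommGroup H] [InnerProductSpace ℂ H]
    (Y : ν → H ⊗[ℂ] EuclideanSpace ℂ (Fin n))
    (h1 : ∀ a b, inner ℂ (Y a) (Y b) = if a = b then (1 : ℂ) else 0)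
    (h2 : ∀ a b, inner ℂ (Y a) (LinearMap.lTensor H (Matrix.toEuclideanLin A) (Y b)) = T a b) :
    FinDil A T := by
  classical
  choose v hv using fun a => tensor_decomp (Y a)
  set e : Fin n → EuclideanSpace ℂ (Fin n) := fun i => EuclideanSpace.single i (1 : ℂ) with he
  have hee : ∀ i j, inner ℂ (e i) (e j) = (if i = j then (1 : ℂ) else 0) := by
    intro i j
    rw [he]
    simp only [EuclideanSpace.inner_single_left, map_one, one_mul]
    by_cases hij : i = j
    · subst hij; simp
    · simp [hij]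
  have heA : ∀ i j, inner ℂ (e i) (Matrix.toEuclideanLin A (e j)) = A i j := by
    intro i j
    rw [he]
    simp only [EuclideanSpace.inner_single_left, map_one, one_mul]
    rw [Matrix.ofLp_toLpLin]
    simp
  have hYY : ∀ a b, inner ℂ (Y a) (Y b) = ∑ i, inner ℂ (v a i) (v b i) := by
    intro a b
    rw [hv a, hv b, sum_inner]
    apply Finset.sum_congr rfl
    intro i _
    rw [inner_sum, Finset.sum_eq_single i]
    · rw [TensorProduct.inner_tmul]
      have := hee i i
      rw [if_pos rfl] at this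
      rw [this, mul_one]
    · intro j _ hj
      rw [TensorProduct.inner_tmul]
      have := hee i j
      rw [if_neg (Ne.symm hj)] at this
      rw [this, mul_zero]
    · simp
  have hYAY : ∀ a b, inner ℂ (Y a) (LinearMap.lTensor H (Matrix.toEuclideanLin A) (Y b))
      = ∑ i, ∑ j, A i j * inner ℂ (v a i) (v b j) := by
    intro a b
    rw [hv a, hv b, map_sum]
    simp only [LinearMap.lTensor_tmul]
    rw [sum_inner]
    apply Finset.sum_congr rfl
    intro i _
    rw [inner_sum]
    apply Finset.sum_congr rfl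
    intro j _
    rw [TensorProduct.inner_tmul, heA i j, mul_comm]
  set W : Submodule ℂ H := Submodule.span ℂ (Set.range (fun q : ν × Fin n => v q.1 q.2)) with hW
  haveI : FiniteDimensional ℂ W := FiniteDimensional.span_of_finite ℂ (Set.finite_range _)
  have hvW : ∀ a i, v a i ∈ W := fun a i => Submodule.subset_span ⟨(a, i), rfl⟩
  set h : OrthonormalBasis (Fin (Module.finrank ℂ W)) ℂ W := stdOrthonormalBasis ℂ W with hh
  have hpars : ∀ a i b j, ∑ p, starRingEnd ℂ (inner ℂ (h p : H) (v a i)) *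
      inner ℂ (h p : H) (v b j) = inner ℂ (v a i) (v b j) := by
    intro a i b j
    have := h.sum_inner_mul_inner (⟨v a i, hvW a i⟩ : W) ⟨v b j, hvW b j⟩
    change _ = inner ℂ (v a i) (v b j) at this
    rw [← this]
    apply Finset.sum_congr rfl
    intro p _
    rw [inner_conj_symm]
    rfl
  refine ⟨Module.finrank ℂ W, fun p i a => inner ℂ (h p : H) (v a i), ?_, ?_⟩
  · intro a b
    rw [Finset.sum_comm, ← h1 a b, hYY]
    apply Finset.sum_congr rfl
    intro i _
    exact hpars a i b i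
  · intro a b
    rw [← h2 a b, hYAY, Finset.sum_comm]
    apply Finset.sum_congr rfl
    intro i _
    rw [Finset.sum_comm]
    apply Finset.sum_congr rfl
    intro j _
    rw [← Finset.mul_sum, hpars a i b j]

end Pool.Agent.Helper774
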