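import Mathlib
import Pool.Agent.Helper774.Final
import Pool.Agent.Helper774.PosCases2
open Matrix
open scoped ComplexOrder InnerProductSpace TensorProduct
open Filter Topology

namespace Pool.Agent.Helper774

universe u

theorem splits_iff (A : Matrix (Fin 3) (Fin 3) ℂ) :
    (∃ (U : Matrix (Fin 3) (Fin 3) ℂ) (lam : ℂ) (A₀ : Matrix (Fin 2) (Fin 2) ℂ),
      Uᴴ * U = 1 ∧ Uᴴ * A * U = !![lam, 0, 0; 0, A₀ 0 0, A₀ 0 1; 0, A₀ 1 0, A₀ 1 1]) ↔
    ∃ x : Fin 3 → ℂ, x ≠ 0 ∧ ∃ a a' : ℂ, A *ᵥ x = a • x ∧ Aᴴ *ᵥ x = a' • x := by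
  constructor
  · rintro ⟨U, lam, A₀, hU, hA⟩
    have hU' : U * Uᴴ = 1 := mul_eq_one_comm.mp hU
    obtain ⟨M, hM⟩ : ∃ M : Matrix (Fin 3) (Fin 3) ℂ,
      M = !![lam, 0, 0; 0, A₀ 0 0, A₀ 0 1; 0, A₀ 1 0, A₀ 1 1] := ⟨_, rfl⟩
    rw [← hM] at hA
    have hAU : A * U = U * M := by
      rw [← hA, ← Matrix.mul_assoc, ← Matrix.mul_assoc, hU', Matrix.one_mul]
    have hAHU : Aᴴ * U = U * Mᴴ := by
      have h1 : Mᴴ = Uᴴ * Aᴴ * U := by
        rw [← hA, conjTranspose_mul, conjTranspose_mul, conjTranspose_conjTranspose,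
          Matrix.mul_assoc]
      rw [h1, ← Matrix.mul_assoc, ← Matrix.mul_assoc, hU', Matrix.one_mul]
    have hMe : M *ᵥ Pi.single 0 1 = lam • Pi.single 0 1 := by
      rw [hM]
      ext i
      fin_cases i <;> simp
    have hMHe : Mᴴ *ᵥ Pi.single 0 1 = (starRingEnd ℂ lam) • Pi.single 0 1 := by
      rw [hM]
      ext i
      fin_cases i <;> simp [Matrix.conjTranspose_apply]
    refine ⟨U *ᵥ Pi.single 0 1, ?_, lam, starRingEnd ℂ lam, ?_, ?_⟩
    · intro h0
      have h1 : Uᴴ *ᵥ (U *ᵥ Pi.single 0 1) = (0 : Fin 3 → ℂ) := by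
        rw [h0, Matrix.mulVec_zero]
      rw [Matrix.mulVec_mulVec, hU, Matrix.one_mulVec] at h1
      have h2 := congrFun h1 0
      simp at h2
    · rw [Matrix.mulVec_mulVec, hAU, ← Matrix.mulVec_mulVec, hMe, Matrix.mulVec_smul]
    · rw [Matrix.mulVec_mulVec, hAHU, ← Matrix.mulVec_mulVec, hMHe, Matrix.mulVec_smul]
  · rintro ⟨x, hx, a, a', h1, h2⟩
    obtain ⟨V, ρ, hρ, hVV, hVV', hVx⟩ := exists_unitary_col x hx 2 (by simp)
    obtain ⟨M, hM⟩ : ∃ M : Matrix (Option (Fin 2)) (Option (Fin 2)) ℂ, M = Vᴴ * A * V := ⟨_, rfl⟩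
    have hVs : V *ᵥ Pi.single none (ρ : ℂ) = x := by
      rw [← hVx, Matrix.mulVec_mulVec, hVV', Matrix.one_mulVec]
    have hMe : M *ᵥ Pi.single none (ρ : ℂ) = a • Pi.single none (ρ : ℂ) := by
      rw [hM, ← Matrix.mulVec_mulVec, hVs, ← Matrix.mulVec_mulVec, h1, Matrix.mulVec_smul, hVx]
    have hMHe : Mᴴ *ᵥ Pi.single none (ρ : ℂ) = a' • Pi.single none (ρ : ℂ) := by
      rw [hM, conjTranspose_mul, conjTranspose_mul, conjTranspose_conjTranspose,
        ← Matrix.mulVec_mulVec, ← Matrix.mulVec_mulVec, hVs, h2, Matrix.mulVec_smul, hVx]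
    have m2 : ∀ i, M (some i) none = 0 := by
      intro i
      have := congrFun hMe (some i)
      simp [Matrix.mulVec_single] at this
      rcases this with h | h
      · exact h
      · exact absurd h hρ.ne'
    have m3 : ∀ i, M none (some i) = 0 := by
      intro i
      have := congrFun hMHe (some i)
      simp [Matrix.mulVec_single, Matrix.conjTranspose_apply] at this
      rcases this with h | h
      · exact h
      · exact absurd h hρ.ne'
    set f : Fin 3 → Option (Fin 2) := ![none, some 0, some 1] with hf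
    have hfinj : Function.Injective f := by
      intro i j hij
      fin_cases i <;> fin_cases j <;> simp [hf] at hij ⊢
    refine ⟨V.submatrix id f, M none none, Matrix.of (fun i j => M (some i) (some j)), ?_, ?_⟩
    · ext i j
      have e1 : ((V.submatrix id f)ᴴ * V.submatrix id f) i j = (Vᴴ * V) (f i) (f j) := rfl
      rw [e1, hVV, Matrix.one_apply, Matrix.one_apply]
      by_cases hij : i = j
      · subst hij; simp
      · rw [if_neg hij, if_neg (fun h => hij (hfinj h))]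
    · ext i j
      have e1 : ((V.submatrix id f)ᴴ * A * V.submatrix id f) i j = M (f i) (f j) := by
        rw [hM]; rfl
      rw [e1]
      fin_cases i <;> fin_cases j
      · rfl
      · exact m3 0
      · exact m3 1
      · exact m2 0
      · rfl
      · rfl
      · exact m2 1
      · rfl
      · rfl

/-- the finite-dimensional consequence of the dilation property -/
theorem finDil_of_property (A : Matrix (Fin 3) (Fin 3) ℂ)
    (h : ∀ (K : Type u) [NormedAddCommGroup K] [InnerProductSpace ℂ K] [CompleteSpace K]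
      (T : K →L[ℂ] K), (∀ x : K, ‖x‖ = 1 → inner ℂ x (T x) ∈ MW A) →
      ∃ (H : Type u) (_ : NormedAddCommGroup H) (_ : InnerProductSpace ℂ H)
        (_ : CompleteSpace H) (X : K →ₗᵢ[ℂ] H ⊗[ℂ] EuclideanSpace ℂ (Fin 3)),
        ∀ x y : K, inner ℂ (X y) (LinearMap.lTensor H (Matrix.toEuclideanLin A) (X x))
          = inner ℂ y (T x))
    (T : Matrix (Fin 3) (Fin 3) ℂ) (hT : MW T ⊆ MW A) : FinDil A T := by
  classical
  set T' : Matrix (ULift.{u} (Fin 3)) (ULift.{u} (Fin 3)) ℂ :=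
    T.submatrix ULift.down ULift.down with hT'
  have hsum : ∀ F : Fin 3 → ℂ, ∑ i : ULift.{u} (Fin 3), F i.down = ∑ i, F i := by
    intro F
    exact Fintype.sum_equiv Equiv.ulift _ _ (fun _ => rfl)
  have hquad : ∀ x : ULift.{u} (Fin 3) → ℂ, star x ⬝ᵥ (T' *ᵥ x)
      = star (fun i => x (ULift.up i)) ⬝ᵥ (T *ᵥ (fun i => x (ULift.up i))) := by
    intro x
    rw [dotProduct, dotProduct, ← hsum]
    apply Finset.sum_congr rfl
    intro i _
    have e1 : (T' *ᵥ x) i = (T *ᵥ (fun i => x (ULift.up i))) i.down := by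
      change ∑ j : ULift.{u} (Fin 3), T i.down j.down * x j
        = ∑ j : Fin 3, T i.down j * x (ULift.up j)
      exact hsum (fun j => T i.down j * x (ULift.up j))
    rw [e1]
    rfl
  have hunit : ∀ x : ULift.{u} (Fin 3) → ℂ, star x ⬝ᵥ x
      = star (fun i => x (ULift.up i)) ⬝ᵥ (fun i => x (ULift.up i)) := by
    intro x
    rw [dotProduct, dotProduct, ← hsum]
    rfl
  obtain ⟨H, i1, i2, i3, X, hX⟩ := h (EuclideanSpace ℂ (ULift.{u} (Fin 3)))
    (Matrix.toEuclideanCLM (𝕜 := ℂ) T') (by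
      intro x hx
      apply hT
      rw [inner_toEuclideanCLM, hquad]
      refine ⟨_, ?_, rfl⟩
      rw [← hunit]
      exact (norm_eq_one_iff_dot x).mp hx)
  set Y : Fin 3 → H ⊗[ℂ] EuclideanSpace ℂ (Fin 3) :=
    fun a => X (EuclideanSpace.single (ULift.up a) (1 : ℂ)) with hY
  apply FinDil.of_tensor A T Y
  · intro a b
    rw [hY]
    simp only [LinearIsometry.inner_map_map]
    rw [EuclideanSpace.inner_single_left, map_one, one_mul]
    by_cases hab : a = b
    · subst hab; simp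
    · rw [if_neg hab]
      simp [hab]
  · intro a b
    rw [hY]
    simp only
    rw [hX, inner_toEuclideanCLM]
    have e1 : (EuclideanSpace.single (ULift.up.{u} b) (1 : ℂ)).ofLp
        = Pi.single (ULift.up b) 1 := rfl
    have e2 : (EuclideanSpace.single (ULift.up.{u} a) (1 : ℂ)).ofLp
        = Pi.single (ULift.up a) 1 := rfl
    rw [e1, e2, Matrix.mulVec_single_one, dotProduct, Finset.sum_eq_single (ULift.up a)]
    · simp [hT']
    · intro j _ hj
      simp [hj]
    · simp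

end Pool.Agent.Helper774
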